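import Pool.Agent.W387.SqGrp

set_option autoImplicit false

namespace Pool.Agent.TH95.DI

open Pool.Agent.W387 Pool.Agent.W387.SqSys

variable {A : Type} (S : SqSys A)

/-- derivations with `n` flips -/
inductive Der : ℕ → List A → List A → Prop
  | refl (l : List A) : Der 0 l l
  | flip {n : ℕ} (g l : List A) {a b p q : A} {l' : List A} : S.sq a b = some (p, q) →
      Der n (g ++ b :: q :: l) l' → Der (n + 1) (g ++ a :: p :: l) l'
  | back {n : ℕ} (g l : List A) (x : A) {l' : List A} :
      Der n (g ++ l) l' → Der n (g ++ x :: S.inv x :: l) l'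

theorem Der.trans' {n m : ℕ} {l l' l'' : List A} (h : Der S n l l') (h2 : Der S m l' l'') :
    Der S (n + m) l l'' := by
  induction h with
  | refl l => rw [Nat.zero_add]; exact h2
  | flip g l hs _ ih =>
    rw [Nat.add_right_comm]
    exact Der.flip g l hs (ih h2)
  | back g l x _ ih => exact Der.back g l x (ih h2)

theorem Der.cons' {n : ℕ} {l l' : List A} (c : A) (h : Der S n l l') :
    Der S n (c :: l) (c :: l') := by
  induction h with
  | refl l => exact Der.refl _
  | flip g l hs _ ih => exact Der.flip (c :: g) l hs ih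
  | back g l x _ ih => exact Der.back (c :: g) l x ih

theorem der_front (m : List A) : ∀ (b : A) (v : List A), S.E m (b :: v) →
    ∃ k ≤ m.length, ∃ p', Der S k m (b :: p') ∧ S.E m (b :: p') := by
  induction m with
  | nil =>
    intro b v h
    have := E.length h
    simp at this
  | cons b1 u ih =>
    intro b v h
    rcases key _ _ _ _ _ rfl h with ⟨h1, h2⟩ | ⟨p, e, f, h1, h2, h3⟩
    · subst h1
      exact ⟨0, Nat.zero_le _, u, Der.refl _, E.refl _⟩
    · obtain ⟨k, hk, p', hd, he⟩ := ih e p h2
      refine ⟨k + 1, by simpa using hk, f :: p', ?_, ?_⟩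
      · exact (hd.cons' S b1).trans' S (Der.flip (S := S) [] p' h1 (Der.refl _))
      · exact (he.cons b1).trans (E.of (Fl.head p' h1))

theorem der_red (l : List A) : ∃ (n : ℕ) (m : List A), Der S n l m ∧ S.Red m ∧
    m.length ≤ l.length ∧ evL (S := S) m = evL l ∧ n ≤ l.length ^ 2 := by
  induction l with
  | nil => exact ⟨0, [], Der.refl _, red_nil, le_refl _, rfl, Nat.zero_le _⟩
  | cons a l ih =>
    obtain ⟨n, m, hd, hr, hl, he, hn⟩ := ih
    by_cases h : S.Red (a :: m)
    · refine ⟨n, a :: m, hd.cons' S a, h, by simpa using hl, by rw [evL_cons, evL_cons, he], ?_⟩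
      simp only [List.length_cons]
      nlinarith
    · obtain ⟨t, ht⟩ := exists_tail hr h
      obtain ⟨k, hk, p', hd2, he2⟩ := der_front S m _ _ ht
      have hlen := E.length he2
      simp only [List.length_cons] at hlen
      refine ⟨n + k, p', ?_, (hr.congr he2).tail, by simp only [List.length_cons]; omega, ?_, ?_⟩
      · have h1 : Der S (n + k) (a :: l) (a :: S.inv a :: p') :=
          (hd.cons' S a).trans' S (hd2.cons' S a)
        exact h1.trans' S (Der.back (S := S) [] p' a (Der.refl _))
      · have h1 := evL_E he2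
        rw [evL_cons, gn_inv] at h1
        rw [evL_cons, ← he, h1, mul_inv_cancel_left]
      · simp only [List.length_cons]
        nlinarith

theorem der_of_evL (l : List A) (h : evL (S := S) l = 1) :
    ∃ n ≤ l.length ^ 2, Der S n l [] := by
  obtain ⟨n, m, hd, hr, hl, he, hn⟩ := der_red S l
  refine ⟨n, hn, ?_⟩
  have h1 : S.E m [] := E_of_evL_eq hr red_nil (by rw [he, h]; rfl)
  have h2 := E.length h1
  have h3 : m = [] := List.length_eq_zero_iff.mp (by simpa using h2)
  rw [h3] at hd
  exact hd

end Pool.Agent.TH95.DI
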