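import Pool.Agent.TH95.DI.JobF

/-!
The base facts with a common constant.
-/

set_option autoImplicit false

set_option linter.unusedSectionVars false

noncomputable section

namespace Pool.Agent.TH95.DI

theorem mono_ex {D D' : ℕ} (h : D ≤ D') {x : FreeGroup LT}
    (H : ∃ W : FreeGroup NB, Bd W D ∧ x * (iq W)⁻¹ ∈ KR RR D) :
    ∃ W : FreeGroup NB, Bd W D' ∧ x * (iq W)⁻¹ ∈ KR RR D' := by
  obtain ⟨W, h1, h2⟩ := H
  exact ⟨W, h1.mono h, KR_mono h h2⟩

theorem baseT_mono {D D' : ℕ} (h : D ≤ D') (H : BaseT RR hq iq zq D) : BaseT RR hq iq zq D' where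
  hat_len := H.hat_len
  ι_len := H.ι_len
  z_len := H.z_len
  comm := fun β => (H.comm β).mono h
  conj := fun x β => mono_ex h (H.conj x β)
  zN := mono_ex h H.zN
  R1 := H.R1
  R2 := H.R2
  R3 := H.R3
  Q1 := mono_ex h H.Q1
  Q2 := mono_ex h H.Q2

theorem exists_both : ∃ D : ℕ, BaseT RR hq iq zq D ∧ ∀ a : LT × Bool, ∃ W : FreeGroup NB,
    Bd W D ∧ (hq (pF rq (FreeGroup.mk [a])))⁻¹ * FreeGroup.mk [a] * (iq W)⁻¹ ∈ KR RR D := by
  obtain ⟨D, hD⟩ := exists_baseT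
  obtain ⟨D', hD'⟩ := exists_mod
  exact ⟨max D D', baseT_mono (le_max_left _ _) hD, fun a => mono_ex (le_max_right _ _) (hD' a)⟩

end Pool.Agent.TH95.DI
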