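import Pool.Agent.TH95.DI.Rel
import Pool.Agent.TH95.SD.Final

/-!
The presentation is finite.
-/

set_option autoImplicit false

set_option linter.unusedSectionVars false

noncomputable section

namespace Pool.Agent.TH95.DI

instance finiteLT : Finite LT := inferInstance

/-- the set of relators is finite -/
theorem relT_finite : {ρ : FreeGroup LT | RelT rq ρ}.Finite := by
  have h : {ρ : FreeGroup LT | RelT rq ρ} ⊆
      Set.range (fun p : Ci Lq Kq × (Lq × Bool) => lv (Vt.c p.1) * hw (Sum.inl p.2.1, p.2.2) *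
        (hw (Sum.inl p.2.1, p.2.2) * lv (Vt.d p.1 p.2))⁻¹) ∪
      (Set.range (fun p : Ci Lq Kq × (Lq × Bool) => lv (Vt.d p.1 p.2) * lh (Sum.inr (Bt.b p.2)) *
        (lh (Sum.inr (Bt.b p.2)) * lv (Vt.c p.1))⁻¹) ∪
      (Set.range (fun p : Ci Lq Kq × Fin 8 => lv (pos p.1 p.2.castSucc) * hw (top rq p.1 p.2) *
        (hw (bot p.2) * lv (pos p.1 p.2.succ) * (if p.2 = 7 then corr p.1 else 1))⁻¹) ∪
      (Set.range (fun p : Kq × Bt Lq => lz p.1 * lh (Sum.inr p.2) *
        (lh (Sum.inr p.2) * lz p.1)⁻¹) ∪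
      Set.range (fun p : Kq × Ci Lq Kq => lz p.1 * lv (Vt.c p.2) *
        (lv (Vt.c p.2) * lz p.1)⁻¹)))) := by
    intro ρ hρ
    cases hρ with
    | p1 l x => exact Or.inl ⟨(l, x), rfl⟩
    | p2 l x => exact Or.inr (Or.inl ⟨(l, x), rfl⟩)
    | s l i => exact Or.inr (Or.inr (Or.inl ⟨(l, i), rfl⟩))
    | zb k β => exact Or.inr (Or.inr (Or.inr (Or.inl ⟨(k, β), rfl⟩)))
    | zc k l => exact Or.inr (Or.inr (Or.inr (Or.inr ⟨(k, l), rfl⟩)))
  refine Set.Finite.subset ?_ h
  exact (Set.finite_range _).union ((Set.finite_range _).union ((Set.finite_range _).union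
    ((Set.finite_range _).union (Set.finite_range _))))

theorem Uq_finite : Set.Finite Uq := by
  have h : Uq ⊆ {zs (ea * ea) * (zs ea)⁻¹ * (zs ea)⁻¹ * (zs ea)⁻¹ * zs 1, zs eh * (zs 1)⁻¹,
      zs (eh * ea) * (zs ea)⁻¹, FreeGroup.of (1, Kq.k1), FreeGroup.of (1, Kq.k2)} := by
    intro u hu
    simp only [Set.mem_insert_iff, Set.mem_singleton_iff]
    cases hu with
    | s1 => exact Or.inl rfl
    | s2 => exact Or.inr (Or.inl rfl)
    | s3 => exact Or.inr (Or.inr (Or.inl rfl))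
    | k1 => exact Or.inr (Or.inr (Or.inr (Or.inl rfl)))
    | k2 => exact Or.inr (Or.inr (Or.inr (Or.inr rfl)))
  exact Set.Finite.subset (Set.toFinite _) h

theorem RR_finite : RR.Finite := relT_finite.union (Uq_finite.image _)

end Pool.Agent.TH95.DI
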