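import Mathlib

set_option autoImplicit false

namespace Pool.Agent.TH95.DI

theorem poly_le (K d : ℕ) : ∃ m : ℕ, K * (m + 1) ^ d ≤ 2 ^ m := by
  have h := tendsto_pow_const_div_const_pow_of_one_lt d (one_lt_two (α := ℝ))
  have h2 : (0 : ℝ) < 1 / (2 * (K + 1)) := by positivity
  obtain ⟨N, hN⟩ := Filter.eventually_atTop.mp (h.eventually (gt_mem_nhds h2))
  refine ⟨N, ?_⟩
  have h3 := hN (N + 1) (by omega)
  have hp : (0 : ℝ) < 2 ^ (N + 1) := by positivity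
  rw [div_lt_iff₀ hp, div_mul_eq_mul_div, one_mul, lt_div_iff₀ (by positivity)] at h3
  have h4 : (2 : ℝ) ^ (N + 1) = 2 * 2 ^ N := by ring
  rw [h4] at h3
  have h5 : (0 : ℝ) ≤ ((N + 1 : ℕ) : ℝ) ^ d := by positivity
  have h6 : (K : ℝ) * ((N + 1 : ℕ) : ℝ) ^ d ≤ 2 ^ N := by nlinarith
  exact_mod_cast h6

theorem asym (A B C : ℕ) (a : ℝ) (ha : 1 < a) : ∃ m : ℕ,
    (C : ℝ) * a ^ (A * (C * (B * (m + 1)) + 1) ^ A) + (C : ℝ) * ((B * (m + 1) : ℕ) : ℝ) + (C : ℝ) <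
      2 ^ (2 ^ m) := by
  obtain ⟨c, hc⟩ := pow_unbounded_of_one_lt a (one_lt_two (α := ℝ))
  obtain ⟨m, hm⟩ := poly_le (C + c * (A * (C * B + 1) ^ A) + C * B + 2) (A + 1)
  refine ⟨m, ?_⟩
  set E : ℕ := A * (C * (B * (m + 1)) + 1) ^ A with hE
  set P : ℕ := C + c * E + C * (B * (m + 1)) with hP
  have h1 : P + 2 ≤ 2 ^ m := by
    refine le_trans ?_ hm
    have e1 : C * (B * (m + 1)) + 1 ≤ (C * B + 1) * (m + 1) := by ring_nf; omega
    have e2 : E ≤ A * ((C * B + 1) * (m + 1)) ^ A := by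
      rw [hE]
      exact Nat.mul_le_mul_left _ (Nat.pow_le_pow_left e1 _)
    have e3 : A * ((C * B + 1) * (m + 1)) ^ A ≤ A * (C * B + 1) ^ A * (m + 1) ^ (A + 1) := by
      rw [mul_pow, mul_assoc]
      exact Nat.mul_le_mul_left _ (Nat.mul_le_mul_left _ (Nat.pow_le_pow_right (by omega) (by omega)))
    have e4 : 1 ≤ (m + 1) ^ (A + 1) := Nat.one_le_pow _ _ (by omega)
    have e5 : m + 1 ≤ (m + 1) ^ (A + 1) := by
      calc m + 1 = (m + 1) ^ 1 := (pow_one _).symm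
        _ ≤ (m + 1) ^ (A + 1) := Nat.pow_le_pow_right (by omega) (by omega)
    have e6 : c * E ≤ c * (A * (C * B + 1) ^ A * (m + 1) ^ (A + 1)) :=
      Nat.mul_le_mul_left _ (e2.trans e3)
    have e7 : C * (B * (m + 1)) ≤ C * B * (m + 1) ^ (A + 1) := by
      rw [← mul_assoc]
      exact Nat.mul_le_mul_left _ e5
    have e8 : C ≤ C * (m + 1) ^ (A + 1) := Nat.le_mul_of_pos_right _ (by omega)
    have e9 : 2 ≤ 2 * (m + 1) ^ (A + 1) := by omega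
    calc P + 2 = C + c * E + C * (B * (m + 1)) + 2 := by rw [hP]
      _ ≤ C * (m + 1) ^ (A + 1) + c * (A * (C * B + 1) ^ A * (m + 1) ^ (A + 1)) +
          C * B * (m + 1) ^ (A + 1) + 2 * (m + 1) ^ (A + 1) := by omega
      _ = _ := by ring
  have hC2 : (C : ℝ) ≤ 2 ^ C := by exact_mod_cast (Nat.lt_two_pow_self (n := C)).le
  have hb : (((B * (m + 1) : ℕ) : ℝ)) * C ≤ 2 ^ (C * (B * (m + 1))) := by
    have := (Nat.lt_two_pow_self (n := C * (B * (m + 1)))).le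
    have h2 : ((C * (B * (m + 1)) : ℕ) : ℝ) ≤ ((2 ^ (C * (B * (m + 1))) : ℕ) : ℝ) := by
      exact_mod_cast this
    push_cast at h2 ⊢
    linarith
  have t1 : (C : ℝ) * a ^ E ≤ 2 ^ P := by
    calc (C : ℝ) * a ^ E ≤ 2 ^ C * (2 ^ c) ^ E := by
          gcongr
      _ = 2 ^ (C + c * E) := by rw [← pow_mul, ← pow_add]
      _ ≤ 2 ^ P := pow_le_pow_right₀ (by norm_num) (by omega)
  have t2 : (C : ℝ) * ((B * (m + 1) : ℕ) : ℝ) ≤ 2 ^ P := by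
    calc (C : ℝ) * ((B * (m + 1) : ℕ) : ℝ) = ((B * (m + 1) : ℕ) : ℝ) * C := mul_comm _ _
      _ ≤ 2 ^ (C * (B * (m + 1))) := hb
      _ ≤ 2 ^ P := pow_le_pow_right₀ (by norm_num) (by omega)
  have t3 : (C : ℝ) ≤ 2 ^ P := hC2.trans (pow_le_pow_right₀ (by norm_num) (by omega))
  have t4 : (2 : ℝ) ^ (P + 2) ≤ 2 ^ (2 ^ m) := pow_le_pow_right₀ (by norm_num) h1
  have t5 : (2 : ℝ) ^ (P + 2) = 4 * 2 ^ P := by ring
  have t6 : (0 : ℝ) < 2 ^ P := by positivity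
  linarith

end Pool.Agent.TH95.DI
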