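import Mathlib

set_option autoImplicit false

namespace Pool.Agent.TH95.DI

section tr

variable {α β : Type} (e : α ≃ β)

/-- transport of a word -/
def tr (w : List (α × Bool)) : List (β × Bool) := w.map (fun x => (e x.1, x.2))

theorem tr_length (w : List (α × Bool)) : (tr e w).length = w.length := by
  simp [tr]

theorem tr_mk (w : List (α × Bool)) :
    FreeGroup.freeGroupCongr e (FreeGroup.mk w) = FreeGroup.mk (tr e w) := rfl

theorem tr_tr (w : List (β × Bool)) : tr e (tr e.symm w) = w := by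
  simp [tr, Function.comp_def]

theorem tr_prod (l : List (List (α × Bool) × FreeGroup α)) :
    FreeGroup.freeGroupCongr e
      (l.map (fun p => FreeGroup.mk p.1 * p.2 * (FreeGroup.mk p.1)⁻¹)).prod =
    ((l.map (fun p => (tr e p.1, FreeGroup.freeGroupCongr e p.2))).map
      (fun p => FreeGroup.mk p.1 * p.2 * (FreeGroup.mk p.1)⁻¹)).prod := by
  rw [map_list_prod, List.map_map, List.map_map]
  congr 1
  apply List.map_congr_left
  intro p _
  simp only [Function.comp_apply, map_mul, map_inv, tr_mk]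

theorem tr_nc (R : Set (FreeGroup α)) (w : List (α × Bool)) :
    FreeGroup.mk w ∈ Subgroup.normalClosure R ↔
      FreeGroup.mk (tr e w) ∈ Subgroup.normalClosure (FreeGroup.freeGroupCongr e '' R) := by
  have h := Subgroup.map_normalClosure R (FreeGroup.freeGroupCongr e).toMonoidHom
    (FreeGroup.freeGroupCongr e).surjective
  have h2 : Subgroup.normalClosure (FreeGroup.freeGroupCongr e '' R) =
      (Subgroup.normalClosure R).map (FreeGroup.freeGroupCongr e).toMonoidHom := h.symm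
  rw [h2, ← tr_mk]
  constructor
  · intro hw
    exact ⟨_, hw, rfl⟩
  · rintro ⟨x, hx, hxe⟩
    have : x = FreeGroup.mk w := (FreeGroup.freeGroupCongr e).injective hxe
    rw [← this]
    exact hx

end tr

theorem transfer (hasym : ∀ (A B C : ℕ) (a : ℝ), 1 < a → ∃ m : ℕ,
      (C : ℝ) * a ^ (A * (C * (B * (m + 1)) + 1) ^ A) + (C : ℝ) * ((B * (m + 1) : ℕ) : ℝ) + (C : ℝ) <
        2 ^ (2 ^ m))
    (α : Type) [Finite α] (R : Set (FreeGroup α)) (hR : R.Finite) (A B : ℕ)
    (hup : ∀ (n : ℕ) (w : List (α × Bool)), w.length ≤ n →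
      FreeGroup.mk w ∈ Subgroup.normalClosure R →
      ∃ l : List (List (α × Bool) × FreeGroup α),
        (∀ p ∈ l, (p.2 ∈ R ∨ p.2⁻¹ ∈ R) ∧ p.1.length ≤ A * (n + 1) ^ A) ∧
        FreeGroup.mk w =
          (l.map (fun p => FreeGroup.mk p.1 * p.2 * (FreeGroup.mk p.1)⁻¹)).prod)
    (hlow : ∀ m : ℕ, ∃ w : List (α × Bool), w.length ≤ B * (m + 1) ∧
      FreeGroup.mk w ∈ Subgroup.normalClosure R ∧
      ∀ l : List (List (α × Bool) × FreeGroup α), (∀ p ∈ l, p.2 ∈ R ∨ p.2⁻¹ ∈ R) →
        FreeGroup.mk w =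
          (l.map (fun p => FreeGroup.mk p.1 * p.2 * (FreeGroup.mk p.1)⁻¹)).prod →
        2 ^ (2 ^ m) ≤ l.length) :
    ¬ (∀ (k : ℕ) (R : Finset (FreeGroup (Fin k))),
      ∃ a : ℝ, 1 < a ∧ ∃ C : ℕ, 1 ≤ C ∧
        ∀ n m : ℕ,
          (∀ w : List (Fin k × Bool), w.length ≤ C * n →
            FreeGroup.mk w ∈ Subgroup.normalClosure (R : Set (FreeGroup (Fin k))) →
            ∃ l : List (List (Fin k × Bool) × FreeGroup (Fin k)),
              (∀ p ∈ l, (p.2 ∈ R ∨ p.2⁻¹ ∈ R) ∧ p.1.length ≤ m) ∧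
              FreeGroup.mk w =
                (l.map (fun p => FreeGroup.mk p.1 * p.2 * (FreeGroup.mk p.1)⁻¹)).prod) →
          ∀ w : List (Fin k × Bool), w.length ≤ n →
            FreeGroup.mk w ∈ Subgroup.normalClosure (R : Set (FreeGroup (Fin k))) →
            ∃ l : List (List (Fin k × Bool) × FreeGroup (Fin k)),
              (∀ p ∈ l, p.2 ∈ R ∨ p.2⁻¹ ∈ R) ∧
              (l.length : ℝ) ≤ (C : ℝ) * a ^ m + (C : ℝ) * (n : ℝ) + (C : ℝ) ∧
              FreeGroup.mk w =
                (l.map (fun p => FreeGroup.mk p.1 * p.2 * (FreeGroup.mk p.1)⁻¹)).prod) := by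
  classical
  intro H
  obtain ⟨k, ⟨e⟩⟩ := Finite.exists_equiv_fin α
  set E := FreeGroup.freeGroupCongr e with hE
  have hEs : ∀ x : FreeGroup (Fin k), E (FreeGroup.freeGroupCongr e.symm x) = x :=
    fun x => (FreeGroup.freeGroupCongr e).apply_symm_apply x
  have hsE : ∀ x : FreeGroup α, FreeGroup.freeGroupCongr e.symm (E x) = x :=
    fun x => (FreeGroup.freeGroupCongr e).symm_apply_apply x
  have hR' : ((hR.toFinset.image E : Finset (FreeGroup (Fin k))) : Set (FreeGroup (Fin k))) =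
      E '' R := by
    rw [Finset.coe_image, Set.Finite.coe_toFinset]
  have hmem : ∀ x : FreeGroup (Fin k), x ∈ hR.toFinset.image E ↔
      FreeGroup.freeGroupCongr e.symm x ∈ R := by
    intro x
    rw [← Finset.mem_coe, hR']
    constructor
    · rintro ⟨y, hy, rfl⟩
      rw [hsE]
      exact hy
    · intro h
      exact ⟨_, h, hEs x⟩
  obtain ⟨a, ha, C, _, H⟩ := H k (hR.toFinset.image E)
  obtain ⟨m, hm⟩ := hasym A B C a ha
  have H1 := H (B * (m + 1)) (A * (C * (B * (m + 1)) + 1) ^ A) ?_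
  · obtain ⟨w, hw, hwR, hwl⟩ := hlow m
    obtain ⟨l, hl1, hl2, hl3⟩ := H1 (tr e w) (by rw [tr_length]; exact hw)
      (by rw [hR']; exact (tr_nc e R w).mp hwR)
    have h1 := hwl (l.map (fun p => (tr e.symm p.1, FreeGroup.freeGroupCongr e.symm p.2))) ?_ ?_
    · rw [List.length_map] at h1
      have h2 : ((2 ^ 2 ^ m : ℕ) : ℝ) ≤ l.length := by exact_mod_cast h1
      push_cast at h2
      linarith
    · intro p hp
      rw [List.mem_map] at hp
      obtain ⟨p', hp', rfl⟩ := hp
      have h3 := hl1 p' hp'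
      rw [hmem, hmem, map_inv] at h3
      exact h3
    · rw [← tr_prod e.symm, ← hl3, ← tr_mk e]
      exact (hsE _).symm
  · intro w hw hwR
    rw [hR'] at hwR
    have h1 : FreeGroup.mk (tr e.symm w) ∈ Subgroup.normalClosure R := by
      rw [tr_nc e R, tr_tr]
      exact hwR
    obtain ⟨l, hl1, hl2⟩ := hup (C * (B * (m + 1))) (tr e.symm w) (by rw [tr_length]; exact hw) h1
    refine ⟨l.map (fun p => (tr e p.1, FreeGroup.freeGroupCongr e p.2)), ?_, ?_⟩
    · intro p hp
      rw [List.mem_map] at hp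
      obtain ⟨p', hp', rfl⟩ := hp
      obtain ⟨h3, h4⟩ := hl1 p' hp'
      rw [hmem, hmem, map_inv]
      refine ⟨?_, by rw [tr_length]; exact h4⟩
      have : FreeGroup.freeGroupCongr e.symm (FreeGroup.freeGroupCongr e p'.2) = p'.2 := hsE _
      rw [this]
      exact h3
    · rw [← tr_prod e, ← hl2, tr_mk, tr_tr]

end Pool.Agent.TH95.DI
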