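import Pool.Agent.TH95.DI.NF2

/-!
The formal sum of a trivial product.
-/

set_option autoImplicit false
set_option linter.unusedSectionVars false
noncomputable section

namespace Pool.Agent.TH95.DI

/-- the general statement about the representation -/
theorem theta_general {Ω : Type} [Countable Ω] (ξ : Lq → Equiv.Perm Ω)
    (hξ : ∀ k, FreeGroup.lift ξ (FreeGroup.mk (rq k)) = 1) (ω : Ω) :
    ∃ (Γ : Type) (_ : Group Γ) (ι : Multiplicative (Ω →₀ ℤ) →* Γ) (Θ : FreeGroup LT →* Γ),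
      Function.Injective ι ∧ (∀ ρ, RelT rq ρ → Θ ρ = 1) ∧
      (∀ (g : FreeGroup LT) (v : Seq Lq Kq), Θ (g * zhat v * g⁻¹) = Θ (zhat (cj (pF rq g) v))) ∧
      (∀ u : FL, Θ (U hq zq u) = ι (Multiplicative.ofAdd (Finsupp.single (FreeGroup.lift ξ u ω) 1))) ∧
      (∀ (u : FL) (k : Kq), k ≠ Kq.k0 → Θ (zhat (FreeGroup.of (u, k))) = 1) := by
  classical
  let m0 : Kq → (Ω →₀ ℤ) := fun k => if k = Kq.k0 then Finsupp.single ω 1 else 0
  obtain ⟨Γ, _, ι, Θ, κ, hι, hrel, hz, hκx, _, hconj⟩ := exists_theta rq rq_len ξ hξ m0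
  have hκ : ∀ w : FL, κ (hat w) = FreeGroup.lift ξ w := by
    intro w
    have : κ.comp hat = FreeGroup.lift ξ := by
      ext1 x
      simp only [hat, MonoidHom.comp_apply, FreeGroup.map.of, FreeGroup.lift_apply_of]
      exact hκx x
    exact DFunLike.congr_fun this w
  have hval : ∀ (u : FL) (k : Kq), Θ (zhat (FreeGroup.of (u, k))) =
      ι (Multiplicative.ofAdd (Finsupp.mapDomain (FreeGroup.lift ξ u) (m0 k))) := by
    intro u k
    simp only [zhat, zP_of, map_mul, map_inv, hz, hconj, hκ]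
  have hU0 : ∀ u ∈ (∅ : Set (Seq Lq Kq)), rho (rW rq) u = 1 :=
    fun _ h => absurd h (Set.notMem_empty _)
  have hΘ : ∀ w w' : FreeGroup LT, mkP rq ∅ w = mkP rq ∅ w' → Θ w = Θ w' := by
    intro w w' h
    have h1 : w * w'⁻¹ ∈ Subgroup.normalClosure (allRel rq (∅ : Set (Seq Lq Kq))) := by
      apply PresentedGroup.mk_eq_one_iff.mp
      show mkP rq ∅ (w * w'⁻¹) = 1
      rw [map_mul, map_inv, h, mul_inv_cancel]
    have h2 : Θ (w * w'⁻¹) = 1 := by
      apply nc_one Θ _ _ _ h1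
      rintro s (hs | ⟨u, hu, _⟩)
      · exact hrel s hs
      · exact absurd hu (Set.notMem_empty _)
    rw [map_mul, map_inv, mul_inv_eq_one] at h2
    exact h2
  refine ⟨Γ, inferInstance, ι, Θ, hι, hrel, ?_, ?_, ?_⟩
  · intro g v
    apply hΘ
    have h1 := zP_conj (r := rq) (∅ : Set (Seq Lq Kq)) rq_len hU0 (mkP rq ∅ g) v
    rw [phiP_mk] at h1
    have h2 : ∀ v : Seq Lq Kq, mkP rq ∅ (zhat v) =
        zP (hatP rq ∅) (fun k => mkP rq ∅ (lz k)) v := by
      intro v
      unfold zhat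
      rw [zP_map]
      rfl
    rw [map_mul, map_mul, map_inv, h2, h2]
    exact h1
  · intro u
    have h1 := hval u Kq.k0
    have h2 : zhat (FreeGroup.of (u, Kq.k0)) = U hq zq u := by
      simp [zhat, U, zq]
    rw [h2] at h1
    rw [h1]
    simp [m0, Finsupp.mapDomain_single]
  · intro u k hk
    rw [hval]
    simp [m0, hk]

theorem zhat_zs (u : FL) : zhat (zs u) = U hq zq u := by
  simp [zhat, zs, U, zq]

theorem cj_zs (g u : FL) : cj g (zs u) = zs (g * u) := by
  simp [cj, zs]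

/-- the values of conjugates of relators -/
theorem theta_rel {Γ : Type} [Group Γ] {Ω : Type} (ι : Multiplicative (Ω →₀ ℤ) →* Γ)
    (Θ : FreeGroup LT →* Γ) (ξ : Lq → Equiv.Perm Ω) (ω : Ω)
    (hrel : ∀ ρ, RelT rq ρ → Θ ρ = 1)
    (hcj : ∀ (g : FreeGroup LT) (v : Seq Lq Kq), Θ (g * zhat v * g⁻¹) = Θ (zhat (cj (pF rq g) v)))
    (hU : ∀ u : FL, Θ (U hq zq u) =
      ι (Multiplicative.ofAdd (Finsupp.single (FreeGroup.lift ξ u ω) 1)))
    (hk : ∀ (u : FL) (k : Kq), k ≠ Kq.k0 → Θ (zhat (FreeGroup.of (u, k))) = 1)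
    (g ρ : FreeGroup LT) (hρ : ρ ∈ RR) :
    Θ (g * ρ * g⁻¹) = 1 ∨ ∃ w : FL,
      Θ (g * ρ * g⁻¹) = ι (Multiplicative.ofAdd
        (Finsupp.single (FreeGroup.lift ξ (w * (ea * ea)) ω) 1 -
          Finsupp.single (FreeGroup.lift ξ (w * ea) ω) 3 +
          Finsupp.single (FreeGroup.lift ξ w ω) 1)) ∨
      Θ (g * ρ * g⁻¹) = ι (Multiplicative.ofAdd
        (Finsupp.single (FreeGroup.lift ξ (w * eh) ω) 1 -
          Finsupp.single (FreeGroup.lift ξ w ω) 1)) ∨
      Θ (g * ρ * g⁻¹) = ι (Multiplicative.ofAdd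
        (Finsupp.single (FreeGroup.lift ξ (w * (eh * ea)) ω) 1 -
          Finsupp.single (FreeGroup.lift ξ (w * ea) ω) 1)) := by
  rcases hρ with hρ | ⟨v, hv, rfl⟩
  · left
    rw [map_mul, map_mul, hrel ρ hρ, mul_one, ← map_mul, mul_inv_cancel, map_one]
  · rw [hcj]
    set w := pF rq g
    cases hv with
    | s1 =>
      right
      refine ⟨w, Or.inl ?_⟩
      simp only [map_mul, map_inv, cj_zs, zhat_zs, hU, mul_one]
      simp only [← map_mul, ← map_inv, ← ofAdd_add, ← ofAdd_neg]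
      congr 2
      have : (Finsupp.single (FreeGroup.lift ξ (w * ea) ω) 3 : Ω →₀ ℤ) =
          Finsupp.single (FreeGroup.lift ξ (w * ea) ω) 1 +
          Finsupp.single (FreeGroup.lift ξ (w * ea) ω) 1 +
          Finsupp.single (FreeGroup.lift ξ (w * ea) ω) 1 := by
        rw [← Finsupp.single_add, ← Finsupp.single_add]
        norm_num
      rw [this]
      abel
    | s2 =>
      right
      refine ⟨w, Or.inr (Or.inl ?_)⟩
      simp only [map_mul, map_inv, cj_zs, zhat_zs, hU, mul_one]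
      simp only [← map_mul, ← map_inv, ← ofAdd_add, ← ofAdd_neg]
      congr 2
      abel
    | s3 =>
      right
      refine ⟨w, Or.inr (Or.inr ?_)⟩
      simp only [map_mul, map_inv, cj_zs, zhat_zs, hU]
      simp only [← map_mul, ← map_inv, ← ofAdd_add, ← ofAdd_neg]
      congr 2
      abel
    | k1 =>
      left
      have : cj w (FreeGroup.of ((1 : FL), Kq.k1)) = FreeGroup.of (w * 1, Kq.k1) := by
        simp [cj]
      rw [this]
      exact hk _ _ (by decide)
    | k2 =>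
      left
      have : cj w (FreeGroup.of ((1 : FL), Kq.k2)) = FreeGroup.of (w * 1, Kq.k2) := by
        simp [cj]
      rw [this]
      exact hk _ _ (by decide)

theorem theta_Wd {Γ : Type} [Group Γ] {Ω : Type} (ι : Multiplicative (Ω →₀ ℤ) →* Γ)
    (Θ : FreeGroup LT →* Γ) (ξ : Lq → Equiv.Perm Ω) (ω : Ω)
    (hU : ∀ u : FL, Θ (U hq zq u) =
      ι (Multiplicative.ofAdd (Finsupp.single (FreeGroup.lift ξ u ω) 1)))
    (Λ : List (FL × Bool)) : Θ (Wd hq zq Λ) =
      ι (Multiplicative.ofAdd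
        (Λ.map (fun p => Finsupp.single (FreeGroup.lift ξ p.1 ω) (sg p.2))).sum) := by
  induction Λ with
  | nil => simp
  | cons p Λ ih =>
    rw [Wd_cons, map_mul, ih, List.map_cons, List.sum_cons, ofAdd_add, map_mul]
    congr 1
    unfold Us
    cases p.2
    · simp only [Bool.false_eq_true, if_false, map_inv, hU, sg_false, Finsupp.single_neg, ofAdd_neg]
    · simp only [if_true, hU, sg_true]

theorem xiS_rel : ∀ k, FreeGroup.lift xiS (FreeGroup.mk (rq k)) = 1 := by
  intro k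
  cases k with
  | k0 =>
    have : FreeGroup.mk (rq Kq.k0) = 1 := FreeGroup.one_eq_mk.symm
    rw [this, map_one]
  | k1 =>
    have e : (FreeGroup.mk (rq Kq.k1) : FL) = et * eh * et⁻¹ * ea⁻¹ * eh⁻¹ := rfl
    rw [e]
    simp only [map_mul, map_inv, et, eh, ea, FreeGroup.lift_apply_of]
    have h : xiS Lq.t * xiS Lq.h * (xiS Lq.t)⁻¹ = xiS Lq.h * xiS Lq.a := by
      rw [mul_inv_eq_iff_eq_mul]
      ext s
      · rfl
      · show s.2 + Gz (-s.1) = s.2 + (Gz (1 - (s.1 + 1)) - Gz (-(s.1 + 1))) + Gz (-(s.1 + 1))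
        rw [show 1 - (s.1 + 1) = -s.1 by ring]
        ring
    rw [h]
    group
  | k2 =>
    have e : (FreeGroup.mk (rq Kq.k2) : FL) = et * ea * et⁻¹ * ea⁻¹ * ea⁻¹ * eh⁻¹ := rfl
    rw [e]
    simp only [map_mul, map_inv, et, eh, ea, FreeGroup.lift_apply_of]
    have h : xiS Lq.t * xiS Lq.a * (xiS Lq.t)⁻¹ = xiS Lq.h * xiS Lq.a * xiS Lq.a := by
      rw [mul_inv_eq_iff_eq_mul]
      ext s
      · rfl
      · show s.2 + (Gz (1 - s.1) - Gz (-s.1)) = s.2 + (Gz (1 - (s.1 + 1)) - Gz (-(s.1 + 1))) +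
          (Gz (1 - (s.1 + 1)) - Gz (-(s.1 + 1))) + Gz (-(s.1 + 1))
        have h2 := Gz_rec (-(s.1 + 1))
        rw [show -(s.1 + 1) + 2 = 1 - s.1 by ring, show -(s.1 + 1) + 1 = -s.1 by ring] at h2
        rw [show 1 - (s.1 + 1) = -s.1 by ring, h2]
        ring
    rw [h]
    group

/-- the form of the action -/
theorem xiS_form (w : FL) : ∃ (n : ℤ) (c : ℤ → ℤ), ∀ s : ℤ × ℤ,
    FreeGroup.lift xiS w s = (s.1 + n, s.2 + c s.1) := by
  induction w using FreeGroup.induction_on with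
  | C1 => exact ⟨0, fun _ => 0, fun s => by simp⟩
  | of x =>
    rw [FreeGroup.lift_apply_of]
    cases x with
    | a => exact ⟨0, fun k => Gz (1 - k) - Gz (-k), fun s => by simp⟩
    | h => exact ⟨0, fun k => Gz (-k), fun s => by simp⟩
    | t => exact ⟨1, fun _ => 0, fun s => by simp⟩
  | inv_of x ih =>
    obtain ⟨n, c, h⟩ := ih
    refine ⟨-n, fun k => - c (k - n), fun s => ?_⟩
    rw [map_inv]
    show (FreeGroup.lift xiS (FreeGroup.of x)).symm s = _
    rw [Equiv.symm_apply_eq, h]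
    ext
    · simp
    · simp only [← sub_eq_add_neg]
      ring
  | mul x y hx hy =>
    obtain ⟨n, c, h⟩ := hx
    obtain ⟨n', c', h'⟩ := hy
    refine ⟨n' + n, fun k => c' k + c (k + n'), fun s => ?_⟩
    rw [map_mul, Equiv.Perm.mul_apply, h', h]
    ext
    · simp only
      ring
    · simp only
      ring

theorem theta_sum (Λ : List (FL × Bool)) (h : Wd hq zq Λ ∈ Subgroup.normalClosure RR) :
    (Λ.map (fun p => Finsupp.single (sS p.1) (sg p.2))).sum ∈
      AddSubgroup.closure (Set.range rl) := by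
  obtain ⟨Γ, _, ι, Θ, hι, hrel, hcj, hU, hk⟩ := theta_general xiS xiS_rel (0, 0)
  let S : Subgroup (Multiplicative (ℤ × ℤ →₀ ℤ)) :=
    AddSubgroup.toSubgroup (AddSubgroup.closure (Set.range rl))
  have key : ∀ x ∈ Subgroup.normalClosure RR, Θ x ∈ S.map ι := by
    intro x hx
    unfold Subgroup.normalClosure at hx
    induction hx using Subgroup.closure_induction with
    | mem y hy =>
      obtain ⟨ρ, hρ, hc⟩ := Group.mem_conjugatesOfSet_iff.mp hy
      obtain ⟨g, rfl⟩ := isConj_iff.mp hc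
      have ha : xiS Lq.a (0, 0) = (0, 1) := by simp
      have haa : xiS Lq.a (0, 1) = (0, 2) := by simp
      have hh : xiS Lq.h (0, 0) = (0, 0) := by simp
      have hha : xiS Lq.h (0, 1) = (0, 1) := by simp
      rcases theta_rel ι Θ xiS (0, 0) hrel hcj hU hk g ρ hρ with h1 | ⟨w, h1 | h1 | h1⟩
      · rw [h1]
        exact Subgroup.one_mem _
      · rw [h1]
        refine ⟨_, ?_, rfl⟩
        show _ ∈ AddSubgroup.closure (Set.range rl)
        obtain ⟨n, c, hw⟩ := xiS_form w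
        apply AddSubgroup.subset_closure
        refine ⟨(n, c 0 + 1), ?_⟩
        simp only [map_mul, ea, FreeGroup.lift_apply_of, Equiv.Perm.mul_apply, ha, haa, hw, rl]
        simp only [zero_add]
        rw [show c 0 + 1 + 1 = 2 + c 0 by ring, show c 0 + 1 = 1 + c 0 by ring,
          show 1 + c 0 - 1 = c 0 by ring]
        rfl
      · rw [h1]
        have : (Finsupp.single (FreeGroup.lift xiS (w * eh) (0, 0)) 1 -
            Finsupp.single (FreeGroup.lift xiS w (0, 0)) 1 : ℤ × ℤ →₀ ℤ) = 0 := by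
          simp only [map_mul, eh, FreeGroup.lift_apply_of, Equiv.Perm.mul_apply, hh, sub_self]
        rw [this]
        simp
      · rw [h1]
        have : (Finsupp.single (FreeGroup.lift xiS (w * (eh * ea)) (0, 0)) 1 -
            Finsupp.single (FreeGroup.lift xiS (w * ea) (0, 0)) 1 : ℤ × ℤ →₀ ℤ) = 0 := by
          simp only [map_mul, eh, ea, FreeGroup.lift_apply_of, Equiv.Perm.mul_apply, ha, hha,
            sub_self]
        rw [this]
        simp
    | one => simp
    | mul a b _ _ ha hb =>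
      rw [map_mul]
      exact Subgroup.mul_mem _ ha hb
    | inv a _ ha =>
      rw [map_inv]
      exact Subgroup.inv_mem _ ha
  obtain ⟨m, hm, e⟩ := key _ h
  rw [theta_Wd ι Θ xiS (0, 0) hU] at e
  have := hι e
  rw [this] at hm
  exact hm

end Pool.Agent.TH95.DI
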