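import Pool.Agent.TH95.DI.Fin
import Pool.Agent.TH95.DI.JobI
import Pool.Agent.TH95.DI.JobD
import Pool.Agent.TH95.DI.JobE
import Pool.Agent.TH95.DI.FinRR

/-!
The final assembly.
-/

set_option autoImplicit false

set_option linter.unusedSectionVars false

noncomputable section

namespace Pool.Agent.TH95.DI

/-- functions bounded by polynomials -/
def PB' (f : ℕ → ℕ) : Prop := ∃ A, ∀ n, f n ≤ A * (n + 1) ^ A

theorem PB'.const (c : ℕ) : PB' (fun _ => c) :=
  ⟨c, fun n => by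
    have : 1 ≤ (n + 1) ^ c := Nat.one_le_pow _ _ (by omega)
    nlinarith⟩

theorem pow_mono' {n A B : ℕ} (h : A ≤ B) : (n + 1) ^ A ≤ (n + 1) ^ B :=
  Nat.pow_le_pow_right (by omega) h

theorem PB'.id : PB' (fun n => n) := ⟨1, fun n => by simp⟩

theorem PB'.add {f g : ℕ → ℕ} (hf : PB' f) (hg : PB' g) : PB' (fun n => f n + g n) := by
  obtain ⟨A, hA⟩ := hf
  obtain ⟨B, hB⟩ := hg
  refine ⟨A + B, fun n => ?_⟩
  calc f n + g n ≤ A * (n + 1) ^ A + B * (n + 1) ^ B := Nat.add_le_add (hA n) (hB n)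
    _ ≤ A * (n + 1) ^ (A + B) + B * (n + 1) ^ (A + B) :=
        Nat.add_le_add (Nat.mul_le_mul_left _ (pow_mono' (by omega)))
          (Nat.mul_le_mul_left _ (pow_mono' (by omega)))
    _ = _ := by ring

theorem PB'.mul {f g : ℕ → ℕ} (hf : PB' f) (hg : PB' g) : PB' (fun n => f n * g n) := by
  obtain ⟨A, hA⟩ := hf
  obtain ⟨B, hB⟩ := hg
  refine ⟨A * B + A + B, fun n => ?_⟩
  calc f n * g n ≤ (A * (n + 1) ^ A) * (B * (n + 1) ^ B) := Nat.mul_le_mul (hA n) (hB n)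
    _ = (A * B) * (n + 1) ^ (A + B) := by ring
    _ ≤ (A * B + A + B) * (n + 1) ^ (A * B + A + B) :=
        Nat.mul_le_mul (by omega) (pow_mono' (by omega))

theorem PB'.pow {f : ℕ → ℕ} (hf : PB' f) (k : ℕ) : PB' (fun n => f n ^ k) := by
  induction k with
  | zero => simpa using PB'.const 1
  | succ k ih => simpa only [pow_succ] using ih.mul hf

theorem sS_mul (u v : FL) : sS (u * v) = FreeGroup.lift xiS u (sS v) := by
  unfold sS
  rw [map_mul, Equiv.Perm.mul_apply]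

theorem sS_fb (j : ℤ) : (sS (fb j)).1 = 0 := by
  obtain ⟨n, c, h⟩ := xiS_form (et ^ j)
  set x := sS (et ^ (-j)) with hx
  have h1 : FreeGroup.lift xiS (et ^ j) x = (0, 0) := by
    rw [hx, ← sS_mul, ← zpow_add]
    simp [sS]
  have h2 : sS (fb j) = FreeGroup.lift xiS (et ^ j) (xiS Lq.h x) := by
    unfold fb
    rw [mul_assoc, sS_mul, sS_mul]
    congr 1
  rw [h2, h]
  rw [h] at h1
  have h3 := congrArg Prod.fst h1
  simpa using h3

theorem sS_w (j : ℤ) : sS (eh * fb j) = sS (fb j) := by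
  have h2 : sS (eh * fb j) = xiS Lq.h (sS (fb j)) := by
    rw [sS_mul]
    congr 1
  rw [h2, xiS_h, sS_fb]
  ext
  · simp [sS_fb]
  · simp

/-- the assembly -/
theorem main_of {D : ℕ} (hb : BaseT RR hq iq zq D)
    (h1 : ∃ C : ℕ, ∀ (n : ℕ) (w : FreeGroup LT), Bd w n →
      w ∈ Subgroup.normalClosure RR → ∃ Λ : List (FreeGroup LT × Kq × Bool),
        Λ.length ≤ C * (n + 1) ^ 2 ∧ (∀ p ∈ Λ, Bd p.1 (n + C)) ∧
        w * (vz Λ)⁻¹ ∈ KR RR (C * (n + 1) ^ 3))
    (h2 : ∃ C : ℕ, ∀ (n N : ℕ) (Λ : List (FreeGroup LT × Kq × Bool)), Λ.length ≤ N →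
      (∀ p ∈ Λ, Bd p.1 n) → ∃ Λ' : List (FL × Bool), Λ'.length ≤ N ∧
        (∀ p ∈ Λ', Bd p.1 (C * n)) ∧
        vz Λ * (Wd hq zq Λ')⁻¹ ∈ KR RR (C * (N + 1) * (n + 1)))
    (hfin : RR.Finite)
    (hlow : ∀ m N : ℕ, IsPr RR N (Wd hq zq [(eh * fb (m + 4), true), (fb (m + 4), false)]) →
      2 ^ (2 ^ m) ≤ N) :
    ¬ (∀ (k : ℕ) (R : Finset (FreeGroup (Fin k))),
      ∃ a : ℝ, 1 < a ∧ ∃ C : ℕ, 1 ≤ C ∧
        ∀ n m : ℕ,
          (∀ w : List (Fin k × Bool), w.length ≤ C * n →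
            FreeGroup.mk w ∈ Subgroup.normalClosure (R : Set (FreeGroup (Fin k))) →
            ∃ l : List (List (Fin k × Bool) × FreeGroup (Fin k)),
              (∀ p ∈ l, (p.2 ∈ R ∨ p.2⁻¹ ∈ R) ∧ p.1.length ≤ m) ∧
              FreeGroup.mk w =
                (l.map (fun p => FreeGroup.mk p.1 * p.2 * (FreeGroup.mk p.1)⁻¹)).prod) →
          ∀ w : List (Fin k × Bool), w.length ≤ n →
            FreeGroup.mk w ∈ Subgroup.normalClosure (R : Set (FreeGroup (Fin k))) →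
            ∃ l : List (List (Fin k × Bool) × FreeGroup (Fin k)),
              (∀ p ∈ l, p.2 ∈ R ∨ p.2⁻¹ ∈ R) ∧
              (l.length : ℝ) ≤ (C : ℝ) * a ^ m + (C : ℝ) * (n : ℝ) + (C : ℝ) ∧
              FreeGroup.mk w =
                (l.map (fun p => FreeGroup.mk p.1 * p.2 * (FreeGroup.mk p.1)⁻¹)).prod) := by
  obtain ⟨C1, h1⟩ := h1
  obtain ⟨C2, h2⟩ := h2
  -- the upper bound
  have hpoly : PB' (fun n => C1 * (n + 1) ^ 3 + C2 * (C1 * (n + 1) ^ 2 + 1) * (n + C1 + 1) +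
      rF D (C1 * (n + 1) ^ 2) (C2 * (n + C1))) := by
    unfold rF mL mR
    have i := PB'.id
    have c := PB'.const
    have s := i.add (c 1)
    have t := (c C2).mul (i.add (c C1))
    have e := (((c 2).mul t).add (c 17)).add (c 1)
    exact (((c C1).mul (s.pow 3)).add (((c C2).mul (((c C1).mul (s.pow 2)).add (c 1))).mul
      ((i.add (c C1)).add (c 1)))).add
      (((((c (kp D)).add ((c 16).mul ((c C1).mul (s.pow 2)))).add (c (4 * D))).add (c 13)).mul
        ((((((c 4).mul (e.pow 2)).add ((c 40).mul (e.pow 3))).add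
          ((c 30).mul ((t.add (c 6)).pow 2))).add ((c 10).mul t)).add (c 120)))
  obtain ⟨A, hA⟩ := hpoly
  have hup : ∀ (n : ℕ) (w : FreeGroup LT), Bd w n → w ∈ Subgroup.normalClosure RR →
      w ∈ KR RR (A * (n + 1) ^ A) := by
    intro n w hw hw'
    obtain ⟨Λ, a1, a2, a3⟩ := h1 n w hw hw'
    obtain ⟨Λ', b1, b2, b3⟩ := h2 (n + C1) (C1 * (n + 1) ^ 2) Λ a1 a2
    have c1 : Wd hq zq Λ' ∈ Subgroup.normalClosure RR := by
      have := Subgroup.mul_mem _ (Subgroup.inv_mem _ (Subgroup.mul_mem _ (KR_le a3) (KR_le b3))) hw'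
      have e : (w * (vz Λ)⁻¹ * (vz Λ * (Wd hq zq Λ')⁻¹))⁻¹ * w = Wd hq zq Λ' := by group
      rwa [e] at this
    have c2 := fill_sum hb (C2 * (n + C1)) (C1 * (n + 1) ^ 2) Λ' b1 b2 (theta_sum Λ' c1)
    have e : w = (w * (vz Λ)⁻¹) * (vz Λ * (Wd hq zq Λ')⁻¹) * Wd hq zq Λ' := by group
    rw [e]
    have hA' := hA n
    simp only at hA'
    exact Subgroup.mul_mem _ (Subgroup.mul_mem _ (KR_mono (by omega) a3) (KR_mono (by omega) b3))
      (KR_mono (by omega) c2)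
  refine transfer asym LT RR hfin A 50 ?_ ?_
  · intro n w hw hw'
    obtain ⟨l, hl1, hl2⟩ := KR_list (hup n (FreeGroup.mk w) ⟨w, hw, rfl⟩ hw')
    exact ⟨l, hl1, hl2⟩
  · intro m
    have hb1 : Bd (fb ((m : ℤ) + 4)) (2 * m + 9) := (bd_fb _).mono (by omega)
    have hb2 : ∀ p ∈ [(eh * fb ((m : ℤ) + 4), true), (fb ((m : ℤ) + 4), false)],
        Bd p.1 (2 * m + 10) := by
      intro p hp
      simp only [List.mem_cons, List.not_mem_nil, or_false] at hp
      rcases hp with rfl | rfl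
      · exact (bd_eh.mul hb1).mono (by omega)
      · exact hb1.mono (by omega)
    obtain ⟨L, hL, e⟩ := Wd_len hb.toBaseC hb2
    refine ⟨L, hL.trans ?_, ?_, ?_⟩
    · simp only [List.length_cons, List.length_nil]
      omega
    · rw [e]
      apply KR_le (r := rF D 2 (2 * m + 10))
      refine fill_sum hb (2 * m + 10) 2 _ (by simp) hb2 ?_
      have : (List.map (fun p : FL × Bool => Finsupp.single (sS p.1) (sg p.2))
          [(eh * fb ((m : ℤ) + 4), true), (fb ((m : ℤ) + 4), false)]).sum = 0 := by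
        simp [sS_w]
      rw [this]
      exact AddSubgroup.zero_mem _
    · intro l hl he
      refine hlow m l.length ⟨l.map (fun p => (FreeGroup.mk p.1, p.2)), by simp, ?_, ?_⟩
      · intro p hp
        obtain ⟨q, hq, rfl⟩ := List.mem_map.mp hp
        exact hl q hq
      · rw [← e, he, List.map_map]
        rfl

end Pool.Agent.TH95.DI
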