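import Pool.Agent.TH95.DI.Rel
import Pool.Agent.TH95.DI.JobA

set_option autoImplicit false
set_option linter.unusedSectionVars false
noncomputable section

namespace Pool.Agent.TH95.DI

namespace H1

open Pool.Agent.W387

/-! ### Finiteness of the letters -/

instance : Finite (Bt Lq) := by
  apply Finite.of_surjective (fun o : (Lq × Bool) ⊕ Fin 3 => match o with
    | Sum.inl x => Bt.b x
    | Sum.inr 0 => Bt.e
    | Sum.inr 1 => Bt.f
    | Sum.inr _ => Bt.g)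
  intro β
  cases β with
  | b x => exact ⟨Sum.inl x, rfl⟩
  | e => exact ⟨Sum.inr 0, rfl⟩
  | f => exact ⟨Sum.inr 1, rfl⟩
  | g => exact ⟨Sum.inr 2, rfl⟩

instance : Finite (Ci Lq Kq) := by
  apply Finite.of_surjective (fun o : ((Lq × Bool) × Bt Lq) ⊕ Kq => match o with
    | Sum.inl p => Ci.cj p.1 p.2
    | Sum.inr k => Ci.rel k)
  intro β
  cases β with
  | cj x β => exact ⟨Sum.inl (x, β), rfl⟩
  | rel k => exact ⟨Sum.inr k, rfl⟩

instance : Finite (Vt Lq Kq) := by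
  apply Finite.of_surjective (fun o : Ci Lq Kq ⊕ (Ci Lq Kq × (Lq × Bool)) ⊕ (Ci Lq Kq × Fin 7) =>
    match o with
    | Sum.inl l => Vt.c l
    | Sum.inr (Sum.inl p) => Vt.d p.1 p.2
    | Sum.inr (Sum.inr p) => Vt.w p.1 p.2)
  intro β
  cases β with
  | c l => exact ⟨Sum.inl l, rfl⟩
  | d l x => exact ⟨Sum.inr (Sum.inl (l, x)), rfl⟩
  | w l i => exact ⟨Sum.inr (Sum.inr (l, i)), rfl⟩

/-- the darts -/
abbrev DA : Type := VH.Da (Vt Lq Kq) (HD Lq)

/-- the square system -/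
abbrev SS : SqSys DA := (ripsVH rq_good).sys

/-- the word of a dart -/
def dW : DA → FreeGroup LT
  | Sum.inl (v, s) => if s then lv v else (lv v)⁻¹
  | Sum.inr h => hw h

theorem dW_inv (d : DA) : dW (SS.inv d) = (dW d)⁻¹ := by
  rcases d with ⟨v, _ | _⟩ | h
  · show lv v = ((lv v)⁻¹)⁻¹
    rw [inv_inv]
  · rfl
  · exact hw_inv h

theorem pA_dW (d : DA) : pA rq_good (dW d) = SS.gn d := by
  rcases d with ⟨v, _ | _⟩ | h
  · show pA rq_good (lv v)⁻¹ = _
    rw [map_inv, pA_v]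
    exact (SqSys.gn_inv (S := SS) (Sum.inl (v, true))).symm
  · exact pA_v rq_good v
  · exact pA_hw rq_good h

/-- values of lists of darts -/
def dWl (l : List DA) : FreeGroup LT := (l.map dW).prod

@[simp] theorem dWl_nil : dWl [] = 1 := rfl
@[simp] theorem dWl_cons (d : DA) (l : List DA) : dWl (d :: l) = dW d * dWl l := by simp [dWl]
@[simp] theorem dWl_append (l l' : List DA) : dWl (l ++ l') = dWl l * dWl l' := by simp [dWl]

theorem pA_dWl (l : List DA) : pA rq_good (dWl l) = SqSys.evL (S := SS) l := by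
  induction l with
  | nil => simp
  | cons d l ih => rw [dWl_cons, map_mul, pA_dW, ih, SqSys.evL_cons]

theorem bd_dW (d : DA) : Bd (dW d) 1 := by
  rcases d with ⟨v, _ | _⟩ | ⟨h, _ | _⟩
  · exact (Bd.of _).inv
  · exact Bd.of _
  · exact (Bd.of _).inv
  · exact Bd.of _

theorem bd_dWl (l : List DA) : Bd (dWl l) l.length := by
  induction l with
  | nil => exact Bd.one
  | cons d l ih =>
    rw [dWl_cons, List.length_cons, add_comm]
    exact (bd_dW d).mul ih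

/-! ### Products of conjugates of the letters `z` -/

@[simp] theorem vz_nil : vz [] = 1 := rfl

@[simp] theorem vz_cons (p : FreeGroup LT × Kq × Bool) (Λ : List (FreeGroup LT × Kq × Bool)) :
    vz (p :: Λ) = (if p.2.2 then p.1 * lz p.2.1 * p.1⁻¹ else (p.1 * lz p.2.1 * p.1⁻¹)⁻¹) * vz Λ := by
  simp [vz]

@[simp] theorem vz_append (Λ Λ' : List (FreeGroup LT × Kq × Bool)) :
    vz (Λ ++ Λ') = vz Λ * vz Λ' := by simp [vz]

/-- conjugation of a list -/
def cjl (g : FreeGroup LT) (Λ : List (FreeGroup LT × Kq × Bool)) :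
    List (FreeGroup LT × Kq × Bool) := Λ.map (fun p => (g * p.1, p.2))

theorem vz_cjl (g : FreeGroup LT) (Λ : List (FreeGroup LT × Kq × Bool)) :
    vz (cjl g Λ) = g * vz Λ * g⁻¹ := by
  induction Λ with
  | nil => simp [cjl]
  | cons p Λ ih =>
    have e : cjl g (p :: Λ) = (g * p.1, p.2) :: cjl g Λ := rfl
    rw [e, vz_cons, ih, vz_cons]
    obtain ⟨a, k, s⟩ := p
    cases s
    · simp only [Bool.false_eq_true, ↓reduceIte]; group
    · simp only [↓reduceIte]; group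

theorem vz_inv (Λ : List (FreeGroup LT × Kq × Bool)) : ∃ Λ', vz Λ' = (vz Λ)⁻¹ := by
  induction Λ with
  | nil => exact ⟨[], by simp⟩
  | cons p Λ ih =>
    obtain ⟨Λ', h⟩ := ih
    refine ⟨Λ' ++ [(p.1, p.2.1, !p.2.2)], ?_⟩
    rw [vz_append, h, vz_cons, vz_cons, vz_nil, mul_one, mul_inv_rev]
    obtain ⟨a, k, s⟩ := p
    cases s <;> simp

theorem pA_vz (Λ : List (FreeGroup LT × Kq × Bool)) : pA rq_good (vz Λ) = 1 := by
  induction Λ with
  | nil => simp
  | cons p Λ ih =>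
    rw [vz_cons, map_mul, ih, mul_one]
    split_ifs <;> simp

theorem bd_z (p : FreeGroup LT × Kq × Bool) {m : ℕ} (h : Bd p.1 m) :
    Bd (if p.2.2 then p.1 * lz p.2.1 * p.1⁻¹ else (p.1 * lz p.2.1 * p.1⁻¹)⁻¹) (2 * m + 1) := by
  have h1 : Bd (p.1 * lz p.2.1 * p.1⁻¹) (2 * m + 1) :=
    ((h.mul (Bd.of _)).mul h.inv).mono (by omega)
  split_ifs
  · exact h1
  · exact h1.inv

theorem bd_vz {m : ℕ} (Λ : List (FreeGroup LT × Kq × Bool)) (h : ∀ p ∈ Λ, Bd p.1 m) :
    Bd (vz Λ) (Λ.length * (2 * m + 1)) := by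
  induction Λ with
  | nil => simpa using Bd.one
  | cons p Λ ih =>
    rw [vz_cons]
    have h1 := bd_z p (h p (by simp))
    have h2 := ih (fun q hq => h q (by simp [hq]))
    exact (h1.mul h2).mono (by simp only [List.length_cons]; ring_nf; omega)

/-! ### Elements with a short list -/

/-- `x` is a short product modulo short conjugates of relators -/
def Dg (m R₀ N : ℕ) (x : FreeGroup LT) : Prop :=
  ∃ Λ : List (FreeGroup LT × Kq × Bool), Λ.length ≤ N ∧ (∀ p ∈ Λ, Bd p.1 m) ∧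
    x * (vz Λ)⁻¹ ∈ KR RR (R₀ + N * (2 * m + 1))

variable {m R₀ N N' : ℕ} {x y : FreeGroup LT}

theorem Dg.one : Dg m R₀ N 1 := ⟨[], by simp, by simp, by simp⟩

theorem Dg.mul (hx : Dg m R₀ N x) (hy : Dg m R₀ N' y) : Dg m R₀ (N + N') (x * y) := by
  obtain ⟨Λ, h1, h2, h3⟩ := hx
  obtain ⟨Λ', h1', h2', h3'⟩ := hy
  refine ⟨Λ ++ Λ', by rw [List.length_append]; omega, ?_, ?_⟩
  · intro p hp
    rcases List.mem_append.mp hp with hp | hp
    · exact h2 p hp
    · exact h2' p hp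
  · have h4 : Bd (vz Λ) (N * (2 * m + 1)) := (bd_vz Λ h2).mono (Nat.mul_le_mul_right _ h1)
    have h5 := KR_conj h4 h3'
    have h6 := Subgroup.mul_mem _ (KR_mono (s := R₀ + (N + N') * (2 * m + 1))
      (by ring_nf; omega) h3) (KR_mono (s := R₀ + (N + N') * (2 * m + 1)) (by ring_nf; omega) h5)
    have e : x * y * (vz (Λ ++ Λ'))⁻¹ =
        x * (vz Λ)⁻¹ * (vz Λ * (y * (vz Λ')⁻¹) * (vz Λ)⁻¹) := by
      rw [vz_append]; group
    rw [e]
    exact h6

theorem Dg.mono (hx : Dg m R₀ N x) (h : N ≤ N') : Dg m R₀ N' x := by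
  obtain ⟨Λ, h1, h2, h3⟩ := hx
  refine ⟨Λ, h1.trans h, h2, KR_mono ?_ h3⟩
  have := Nat.mul_le_mul_right (2 * m + 1) h
  omega

/-- derivations -/
theorem dg_der {n C₁ r₀ N₀ : ℕ}
    (hfl : ∀ a b p q : DA, SS.sq a b = some (p, q) → ∃ Λ : List (FreeGroup LT × Kq × Bool),
      Λ.length ≤ N₀ ∧ (∀ p ∈ Λ, Bd p.1 C₁) ∧
        dW a * dW p * (dW b * dW q)⁻¹ * (vz Λ)⁻¹ ∈ KR RR r₀) {k : ℕ} {l l' : List DA}
    (h : Der SS k l l') (hl : l.length ≤ n) (h0 : l' = []) :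
    Dg (n + C₁) (r₀ + n) (N₀ * k) (dWl l) := by
  induction h with
  | refl l => subst h0; exact Dg.one
  | @flip k g l a b p q l' hs _ ih =>
    have h1 := ih (by simpa using hl) h0
    obtain ⟨Λ, h2, h3, h4⟩ := hfl a b p q hs
    have hg : Bd (dWl g) n := (bd_dWl g).mono (by
      rw [List.length_append] at hl; omega)
    have h5 : Dg (n + C₁) (r₀ + n) N₀
        (dWl g * (dW a * dW p * (dW b * dW q)⁻¹) * (dWl g)⁻¹) := by
      refine ⟨cjl (dWl g) Λ, by simpa [cjl] using h2, ?_, ?_⟩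
      · intro s hs'
        unfold cjl at hs'
        rw [List.mem_map] at hs'
        obtain ⟨t, ht, rfl⟩ := hs'
        exact hg.mul (h3 t ht)
      · rw [vz_cjl]
        have h6 := KR_conj hg h4
        have e : dWl g * (dW a * dW p * (dW b * dW q)⁻¹) * (dWl g)⁻¹ *
            (dWl g * vz Λ * (dWl g)⁻¹)⁻¹ =
            dWl g * (dW a * dW p * (dW b * dW q)⁻¹ * (vz Λ)⁻¹) * (dWl g)⁻¹ := by group
        rw [e]
        exact KR_mono (by omega) h6
    have h7 := h5.mul h1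
    have e : dWl (g ++ a :: p :: l) = dWl g * (dW a * dW p * (dW b * dW q)⁻¹) * (dWl g)⁻¹ *
        dWl (g ++ b :: q :: l) := by
      simp only [dWl_append, dWl_cons]; group
    rw [e]
    exact h7.mono (by ring_nf; omega)
  | @back k g l a l' _ ih =>
    have h1 := ih (by simp at hl ⊢; omega) h0
    have e : dWl (g ++ a :: SS.inv a :: l) = dWl (g ++ l) := by
      simp only [dWl_append, dWl_cons, dW_inv]; group
    rw [e]
    exact h1

/-! ### Flips -/

theorem Kz_list (p : PP rq Uq) (hp : p ∈ Kz rq Uq) :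
    ∃ Λ : List (FreeGroup LT × Kq × Bool), p = mkP rq Uq (vz Λ) := by
  unfold Kz Subgroup.normalClosure at hp
  induction hp using Subgroup.closure_induction with
  | mem x hx =>
    obtain ⟨y, ⟨k, rfl⟩, hc⟩ := Group.mem_conjugatesOfSet_iff.mp hx
    obtain ⟨c, hc⟩ := isConj_iff.mp hc
    obtain ⟨g, rfl⟩ := mkP_surjective Uq c
    refine ⟨[(g, k, true)], ?_⟩
    rw [← hc]
    simp
  | one => exact ⟨[], by simp⟩
  | mul a b _ _ ha hb =>
    obtain ⟨Λ, rfl⟩ := ha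
    obtain ⟨Λ', rfl⟩ := hb
    exact ⟨Λ ++ Λ', by simp⟩
  | inv a _ ha =>
    obtain ⟨Λ, rfl⟩ := ha
    obtain ⟨Λ', h⟩ := vz_inv Λ
    exact ⟨Λ', by rw [h, map_inv]⟩

theorem exists_bound {α : Type} [Finite α] (P : α → ℕ → Prop)
    (hm : ∀ a n m, n ≤ m → P a n → P a m) (h : ∀ a, ∃ n, P a n) : ∃ n, ∀ a, P a n := by
  classical
  have := Fintype.ofFinite α
  choose f hf using h
  exact ⟨Finset.univ.sup f, fun a => hm a _ _ (Finset.le_sup (Finset.mem_univ a)) (hf a)⟩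

theorem list_bd (Λ : List (FreeGroup LT × Kq × Bool)) : ∃ C, ∀ p ∈ Λ, Bd p.1 C := by
  induction Λ with
  | nil => exact ⟨0, by simp⟩
  | cons p Λ ih =>
    obtain ⟨C, hC⟩ := ih
    obtain ⟨n, hn⟩ := exists_bd p.1
    refine ⟨C + n, ?_⟩
    intro q hq
    rcases List.mem_cons.mp hq with rfl | hq
    · exact hn.mono (by omega)
    · exact (hC q hq).mono (by omega)

theorem flips : ∃ C : ℕ, ∀ a b p q : DA, SS.sq a b = some (p, q) →
    ∃ Λ : List (FreeGroup LT × Kq × Bool), Λ.length ≤ C ∧ (∀ p ∈ Λ, Bd p.1 C) ∧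
        dW a * dW p * (dW b * dW q)⁻¹ * (vz Λ)⁻¹ ∈ KR RR C := by
  have key : ∃ C : ℕ, ∀ t : DA × DA × DA × DA, SS.sq t.1 t.2.1 = some (t.2.2.1, t.2.2.2) →
    ∃ Λ : List (FreeGroup LT × Kq × Bool), Λ.length ≤ C ∧ (∀ p ∈ Λ, Bd p.1 C) ∧
        dW t.1 * dW t.2.2.1 * (dW t.2.1 * dW t.2.2.2)⁻¹ * (vz Λ)⁻¹ ∈ KR RR C := by
    apply exists_bound (P := fun (t : DA × DA × DA × DA) (C : ℕ) =>
      SS.sq t.1 t.2.1 = some (t.2.2.1, t.2.2.2) →
      ∃ Λ : List (FreeGroup LT × Kq × Bool), Λ.length ≤ C ∧ (∀ p ∈ Λ, Bd p.1 C) ∧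
        dW t.1 * dW t.2.2.1 * (dW t.2.1 * dW t.2.2.2)⁻¹ * (vz Λ)⁻¹ ∈ KR RR C)
    · intro t n m hnm h hs
      obtain ⟨Λ, h1, h2, h3⟩ := h hs
      exact ⟨Λ, h1.trans hnm, fun p hp => (h2 p hp).mono hnm, KR_mono hnm h3⟩
    · rintro ⟨a, b, p, q⟩
      by_cases hs : SS.sq a b = some (p, q)
      · have h1 : pA rq_good (dW a * dW p * (dW b * dW q)⁻¹) = 1 := by
          rw [map_mul, map_inv, map_mul, map_mul, pA_dW, pA_dW, pA_dW, pA_dW,
            SqSys.gn_sq (S := SS) hs, mul_inv_cancel]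
        obtain ⟨Λ, h2⟩ := Kz_list _ (ker_al Uq rq_good _ h1)
        have h3 : dW a * dW p * (dW b * dW q)⁻¹ * (vz Λ)⁻¹ ∈
            Subgroup.normalClosure (allRel rq Uq) := by
          apply (QuotientGroup.eq_one_iff _).mp
          show mkP rq Uq _ = 1
          rw [map_mul, map_inv, ← h2, mul_inv_cancel]
        obtain ⟨r₀, h4⟩ := exists_KR h3
        obtain ⟨C₁, h5⟩ := list_bd Λ
        refine ⟨Λ.length + C₁ + r₀, fun _ => ⟨Λ, by omega, fun p hp => (h5 p hp).mono (by omega),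
          KR_mono (by omega) h4⟩⟩
      · exact ⟨0, fun h => absurd h hs⟩
  obtain ⟨C, hC⟩ := key
  exact ⟨C, fun a b p q hs => hC (a, b, p, q) hs⟩

/-! ### Words -/

theorem word_split (L : List (LT × Bool)) : ∃ (Λ : List (FreeGroup LT × Kq × Bool)) (l : List DA),
    Λ.length ≤ L.length ∧ l.length ≤ L.length ∧ (∀ p ∈ Λ, Bd p.1 L.length) ∧
      FreeGroup.mk L = vz Λ * dWl l := by
  induction L with
  | nil => exact ⟨[], [], by simp, by simp, by simp, by simp [FreeGroup.one_eq_mk]⟩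
  | cons a L ih =>
    obtain ⟨Λ, l, h1, h2, h3, h4⟩ := ih
    have dart : ∀ d : DA, FreeGroup.mk [a] = dW d →
        ∃ (Λ : List (FreeGroup LT × Kq × Bool)) (l : List DA),
        Λ.length ≤ (a :: L).length ∧ l.length ≤ (a :: L).length ∧
        (∀ p ∈ Λ, Bd p.1 (a :: L).length) ∧ FreeGroup.mk (a :: L) = vz Λ * dWl l := by
      intro d hd
      refine ⟨cjl (dW d) Λ, d :: l, by simp [cjl]; omega, by simpa using h2, ?_, ?_⟩
      · intro p hp
        unfold cjl at hp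
        rw [List.mem_map] at hp
        obtain ⟨t, ht, rfl⟩ := hp
        exact ((bd_dW d).mul (h3 t ht)).mono (by simp; omega)
      · rw [mk_cons, hd, h4, vz_cjl, dWl_cons]; group
    obtain ⟨v | h | k, s⟩ := a
    · apply dart (Sum.inl (v, s))
      cases s
      · simp [dW, lv, FreeGroup.of, FreeGroup.invRev]
      · simp [dW, lv, FreeGroup.of]
    · apply dart (Sum.inr (h, s))
      cases s
      · simp [dW, hw, lh, FreeGroup.of, FreeGroup.invRev]
      · simp [dW, hw, lh, FreeGroup.of]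
    · refine ⟨(1, k, s) :: Λ, l, by simpa using h1, by simp; omega, ?_, ?_⟩
      · intro p hp
        rcases List.mem_cons.mp hp with rfl | hp
        · exact Bd.one.mono (by simp)
        · exact (h3 p hp).mono (by simp)
      · rw [mk_cons, h4, vz_cons]
        cases s
        · simp [lz, FreeGroup.of, FreeGroup.invRev, mul_assoc]
        · simp [lz, FreeGroup.of, mul_assoc]

end H1

open H1 in
theorem fill1 : ∃ C : ℕ, ∀ (n : ℕ) (w : FreeGroup LT), Bd w n →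
    w ∈ Subgroup.normalClosure RR → ∃ Λ : List (FreeGroup LT × Kq × Bool),
      Λ.length ≤ C * (n + 1) ^ 2 ∧ (∀ p ∈ Λ, Bd p.1 (n + C)) ∧
      w * (vz Λ)⁻¹ ∈ KR RR (C * (n + 1) ^ 3) := by
  obtain ⟨C, hC⟩ := flips
  refine ⟨(1 + C) * (3 + 2 * C) + C + 1, ?_⟩
  intro n w hw hwR
  obtain ⟨L, hL, rfl⟩ := hw
  obtain ⟨Λ, l, h1, h2, h3, h4⟩ := word_split L
  have hpA : pA rq_good (FreeGroup.mk L) = 1 := by
    have h5 : mkP rq Uq (FreeGroup.mk L) = 1 := (QuotientGroup.eq_one_iff _).mpr hwR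
    rw [← alP_mk Uq rq_good, h5, map_one]
  rw [h4, map_mul, pA_vz, one_mul, pA_dWl] at hpA
  obtain ⟨k, hk, hd⟩ := der_of_evL SS l hpA
  have hl : l.length ≤ n := h2.trans hL
  have hk' : k ≤ n ^ 2 := hk.trans (Nat.pow_le_pow_left hl 2)
  have h5 := dg_der hC hd hl rfl
  have h6 : Dg (n + C) (C + n) n (vz Λ) := by
    refine ⟨Λ, h1.trans hL, fun p hp => (h3 p hp).mono (by omega), ?_⟩
    rw [mul_inv_cancel]
    exact Subgroup.one_mem _
  have h7 := h6.mul h5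
  rw [← h4] at h7
  obtain ⟨Λ', g1, g2, g3⟩ := h7
  have hN : n + C * k ≤ (1 + C) * (n + 1) ^ 2 := by nlinarith [Nat.mul_le_mul_left C hk']
  refine ⟨Λ', ?_, ?_, KR_mono ?_ g3⟩
  · refine g1.trans (hN.trans ?_)
    apply Nat.mul_le_mul_right
    nlinarith
  · intro p hp
    exact (g2 p hp).mono (by nlinarith)
  · have h8 : 2 * (n + C) + 1 ≤ (3 + 2 * C) * (n + 1) := by nlinarith
    have h9 := Nat.mul_le_mul hN h8
    have h10 : C + n ≤ (C + 1) * (n + 1) ^ 3 := by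
      have : (n + 1) ≤ (n + 1) ^ 3 := Nat.le_self_pow (by norm_num) _
      nlinarith
    calc C + n + (n + C * k) * (2 * (n + C) + 1)
        ≤ (C + 1) * (n + 1) ^ 3 + (1 + C) * (n + 1) ^ 2 * ((3 + 2 * C) * (n + 1)) :=
          Nat.add_le_add h10 h9
      _ = ((1 + C) * (3 + 2 * C) + C + 1) * (n + 1) ^ 3 := by ring

end Pool.Agent.TH95.DI
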