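import Pool.Agent.TH95.DI.Rel

/-!
Conversion of conjugates of the letters z.
-/

set_option autoImplicit false
set_option linter.unusedSectionVars false
noncomputable section

namespace Pool.Agent.TH95.DI

namespace H2

theorem bd_hX {X : Type} (h : HD X) : Bd (hX h) 1 := by
  obtain ⟨x | β, s⟩ := h
  · cases s
    · exact (Bd.of x).inv
    · exact Bd.of x
  · exact Bd.one.mono (Nat.zero_le 1)

theorem bd_preN (l : Ci Lq Kq) (n : ℕ) : Bd (preN rq l n) n := by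
  induction n with
  | zero => exact Bd.one
  | succ n ih =>
    refine ih.mul ?_
    split_ifs with h
    · exact bd_hX _
    · exact Bd.one.mono (Nat.zero_le 1)

theorem bd_pF {g : FreeGroup LT} {n : ℕ} (hg : Bd g n) : Bd (pF rq g) (n * 8) := by
  unfold pF
  apply hg.lift
  intro a
  rcases a with v | (x | β) | k
  · cases v with
    | c l => exact Bd.one.mono (Nat.zero_le 8)
    | d l x => exact Bd.one.mono (Nat.zero_le 8)
    | w l i => exact (bd_preN l (i.val + 1)).mono (by have := i.2; omega)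
  · exact (Bd.of x).mono (by norm_num)
  · exact Bd.one.mono (Nat.zero_le 8)
  · exact ⟨rq k, (rq_len k).trans (by norm_num), rfl⟩

/-- the constant -/
def cc (D : ℕ) : ℕ := (2 * D + 4) * 9 + 9

variable {D : ℕ}

theorem conv_list (hb : BaseT RR hq iq zq D)
    (hm : ∀ a : LT × Bool, ∃ W : FreeGroup NB, Bd W D ∧
      (hq (pF rq (FreeGroup.mk [a])))⁻¹ * FreeGroup.mk [a] * (iq W)⁻¹ ∈ KR RR D)
    (L : List (LT × Bool)) :
    FreeGroup.mk L * zq * (FreeGroup.mk L)⁻¹ * (U hq zq (pF rq (FreeGroup.mk L)))⁻¹ ∈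
      KR RR (cc D * (L.length + 1)) := by
  induction L with
  | nil =>
    have h1 : FreeGroup.mk ([] : List (LT × Bool)) = 1 := FreeGroup.one_eq_mk.symm
    rw [h1, map_one, U_one]
    simp
  | cons a L ih =>
    rw [mk_cons, map_mul, U_mul]
    obtain ⟨W, hW, h1⟩ := hm a
    have hA : Bd (FreeGroup.mk [a]) 1 := bd_mk [a]
    have hu : Bd (pF rq (FreeGroup.mk L)) (L.length * 8) := bd_pF (bd_mk L)
    have hpA : Bd (hq (pF rq (FreeGroup.mk [a]))) 8 := by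
      have h2 := bd_pF hA
      exact hb.hat_len _ _ (h2.mono (by norm_num))
    have h2 := cm_cong hb.toBaseC h1 hW hu
    have h3 := KR_conj (R := RR) hpA h2
    have h4 := KR_conj (R := RR) hA ih
    have h5 := Subgroup.mul_mem _
      (KR_mono (s := cc D * ((a :: L).length + 1)) (by
        simp only [List.length_cons, cc]; nlinarith) h4)
      (KR_mono (s := cc D * ((a :: L).length + 1)) (by
        simp only [List.length_cons, cc]; nlinarith) h3)
    have e : FreeGroup.mk [a] * (FreeGroup.mk L * zq * (FreeGroup.mk L)⁻¹ *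
        (U hq zq (pF rq (FreeGroup.mk L)))⁻¹) * (FreeGroup.mk [a])⁻¹ *
        (hq (pF rq (FreeGroup.mk [a])) * ((hq (pF rq (FreeGroup.mk [a])))⁻¹ * FreeGroup.mk [a] *
          U hq zq (pF rq (FreeGroup.mk L)) *
          ((hq (pF rq (FreeGroup.mk [a])))⁻¹ * FreeGroup.mk [a])⁻¹ *
          (U hq zq (pF rq (FreeGroup.mk L)))⁻¹) * (hq (pF rq (FreeGroup.mk [a])))⁻¹) =
        FreeGroup.mk [a] * FreeGroup.mk L * zq * (FreeGroup.mk [a] * FreeGroup.mk L)⁻¹ *
          (hq (pF rq (FreeGroup.mk [a])) * U hq zq (pF rq (FreeGroup.mk L)) *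
            (hq (pF rq (FreeGroup.mk [a])))⁻¹)⁻¹ := by
      group
    rw [e] at h5
    exact h5

theorem conv (hb : BaseT RR hq iq zq D)
    (hm : ∀ a : LT × Bool, ∃ W : FreeGroup NB, Bd W D ∧
      (hq (pF rq (FreeGroup.mk [a])))⁻¹ * FreeGroup.mk [a] * (iq W)⁻¹ ∈ KR RR D)
    {g : FreeGroup LT} {n : ℕ} (hg : Bd g n) :
    g * zq * g⁻¹ * (U hq zq (pF rq g))⁻¹ ∈ KR RR (cc D * (n + 1)) := by
  obtain ⟨L, hL, rfl⟩ := hg
  exact KR_mono (Nat.mul_le_mul_left _ (by omega)) (conv_list hb hm L)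

theorem lz_mem {k : Kq} (hk : k ≠ Kq.k0) : (lz k : FreeGroup LT) ∈ RR := by
  have key : ∀ k : Kq, zhat (FreeGroup.of ((1 : FL), k)) = (lz k : FreeGroup LT) := by
    intro k
    unfold zhat
    rw [zP_of]
    simp
  cases k with
  | k0 => exact absurd rfl hk
  | k1 => exact Or.inr ⟨_, Uq.k1, key _⟩
  | k2 => exact Or.inr ⟨_, Uq.k2, key _⟩

/-- the radius -/
def rr (D n : ℕ) : ℕ := cc D * (n + 1) + (2 * (8 * n) + 1)

theorem one_factor (hb : BaseT RR hq iq zq D)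
    (hm : ∀ a : LT × Bool, ∃ W : FreeGroup NB, Bd W D ∧
      (hq (pF rq (FreeGroup.mk [a])))⁻¹ * FreeGroup.mk [a] * (iq W)⁻¹ ∈ KR RR D)
    (p : FreeGroup LT × Kq × Bool) {n : ℕ} (hg : Bd p.1 n) :
    (if p.2.2 then p.1 * lz p.2.1 * p.1⁻¹ else (p.1 * lz p.2.1 * p.1⁻¹)⁻¹) ∈ KR RR (rr D n) ∨
      Bd (pF rq p.1) (8 * n) ∧
      (if p.2.2 then p.1 * lz p.2.1 * p.1⁻¹ else (p.1 * lz p.2.1 * p.1⁻¹)⁻¹) *
        (Us hq zq (pF rq p.1, p.2.2))⁻¹ ∈ KR RR (rr D n) := by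
  obtain ⟨g, k, ε⟩ := p
  by_cases hk : k = Kq.k0
  · right
    subst hk
    have hu : Bd (pF rq g) (8 * n) := (bd_pF hg).mono (by omega)
    refine ⟨hu, ?_⟩
    have h1 := conv hb hm hg
    have h2 := U_len hb.toBaseC hu
    cases ε
    · have h3 := KR_conj' (R := RR) h2 (Subgroup.inv_mem _ h1)
      have e : (U hq zq (pF rq g))⁻¹ * (g * zq * g⁻¹ * (U hq zq (pF rq g))⁻¹)⁻¹ *
          U hq zq (pF rq g) = (g * zq * g⁻¹)⁻¹ * (Us hq zq (pF rq g, false))⁻¹ := by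
        have e' : Us hq zq (pF rq g, false) = (U hq zq (pF rq g))⁻¹ := by simp [Us]
        rw [e']
        group
      rw [e] at h3
      exact KR_mono (by unfold rr; omega) h3
    · exact KR_mono (by unfold rr; omega) h1
  · left
    have h1 : g * lz k * g⁻¹ ∈ KR RR n := KR_gen hg (lz_mem hk)
    have h2 : n ≤ rr D n := by unfold rr cc; nlinarith
    cases ε
    · exact KR_mono h2 (Subgroup.inv_mem _ h1)
    · exact KR_mono h2 h1

theorem Us_len (hb : BaseT RR hq iq zq D) {u : FL} {m : ℕ} (hu : Bd u m) (ε : Bool) :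
    Bd (Us hq zq (u, ε)) (2 * m + 1) := by
  have h := U_len hb.toBaseC hu
  cases ε
  · exact h.inv
  · exact h

theorem all_factors (hb : BaseT RR hq iq zq D)
    (hm : ∀ a : LT × Bool, ∃ W : FreeGroup NB, Bd W D ∧
      (hq (pF rq (FreeGroup.mk [a])))⁻¹ * FreeGroup.mk [a] * (iq W)⁻¹ ∈ KR RR D)
    (n : ℕ) (Λ : List (FreeGroup LT × Kq × Bool)) (hΛ : ∀ p ∈ Λ, Bd p.1 n) :
    ∃ Λ' : List (FL × Bool), Λ'.length ≤ Λ.length ∧ (∀ p ∈ Λ', Bd p.1 (8 * n)) ∧
      vz Λ * (Wd hq zq Λ')⁻¹ ∈ KR RR (rr D n + Λ.length * (2 * (8 * n) + 1)) := by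
  induction Λ with
  | nil => exact ⟨[], le_rfl, by simp, by simp [vz]⟩
  | cons p Λ ih =>
    obtain ⟨Λ', h1, h2, h3⟩ := ih fun q hq => hΛ q (List.mem_cons_of_mem _ hq)
    have e0 : vz (p :: Λ) = (if p.2.2 then p.1 * lz p.2.1 * p.1⁻¹ else
        (p.1 * lz p.2.1 * p.1⁻¹)⁻¹) * vz Λ := by
      simp only [vz, List.map_cons, List.prod_cons]
    rcases one_factor hb hm p (hΛ p List.mem_cons_self) with h | ⟨hu, h⟩
    · refine ⟨Λ', h1.trans (by simp), h2, ?_⟩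
      rw [e0]
      have h4 := Subgroup.mul_mem _
        (KR_mono (s := rr D n + (p :: Λ).length * (2 * (8 * n) + 1)) (by omega) h)
        (KR_mono (s := rr D n + (p :: Λ).length * (2 * (8 * n) + 1)) (by
          simp only [List.length_cons]; nlinarith) h3)
      have e (v : FreeGroup LT) : v * (vz Λ * (Wd hq zq Λ')⁻¹) = v * vz Λ * (Wd hq zq Λ')⁻¹ :=
        (mul_assoc _ _ _).symm
      rw [e] at h4
      exact h4
    · refine ⟨(pF rq p.1, p.2.2) :: Λ', by simpa using h1, ?_, ?_⟩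
      · intro q hq
        rcases List.mem_cons.1 hq with rfl | hq
        · exact hu
        · exact h2 q hq
      · rw [e0, Wd_cons]
        have h4 := KR_conj (R := RR) (Us_len hb hu p.2.2) h3
        have h5 := Subgroup.mul_mem _
          (KR_mono (s := rr D n + (p :: Λ).length * (2 * (8 * n) + 1)) (by omega) h)
          (KR_mono (s := rr D n + (p :: Λ).length * (2 * (8 * n) + 1)) (by
            simp only [List.length_cons]; nlinarith) h4)
        obtain ⟨v, hv⟩ : ∃ v, v = (if p.2.2 then p.1 * lz p.2.1 * p.1⁻¹ else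
          (p.1 * lz p.2.1 * p.1⁻¹)⁻¹) := ⟨_, rfl⟩
        rw [← hv] at h5 ⊢
        have e : v * (Us hq zq (pF rq p.1, p.2.2))⁻¹ * (Us hq zq (pF rq p.1, p.2.2) *
            (vz Λ * (Wd hq zq Λ')⁻¹) * (Us hq zq (pF rq p.1, p.2.2))⁻¹) =
            v * vz Λ * (Us hq zq (pF rq p.1, p.2.2) * Wd hq zq Λ')⁻¹ := by
          group
        rw [e] at h5
        exact h5

end H2

theorem fill2 {D : ℕ} (hb : BaseT RR hq iq zq D)
    (hm : ∀ a : LT × Bool, ∃ W : FreeGroup NB, Bd W D ∧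
      (hq (pF rq (FreeGroup.mk [a])))⁻¹ * FreeGroup.mk [a] * (iq W)⁻¹ ∈ KR RR D) :
    ∃ C : ℕ, ∀ (n N : ℕ) (Λ : List (FreeGroup LT × Kq × Bool)), Λ.length ≤ N →
      (∀ p ∈ Λ, Bd p.1 n) → ∃ Λ' : List (FL × Bool), Λ'.length ≤ N ∧
        (∀ p ∈ Λ', Bd p.1 (C * n)) ∧
        vz Λ * (Wd hq zq Λ')⁻¹ ∈ KR RR (C * (N + 1) * (n + 1)) := by
  refine ⟨H2.cc D + 17, fun n N Λ hN hΛ => ?_⟩
  obtain ⟨Λ', h1, h2, h3⟩ := H2.all_factors hb hm n Λ hΛ
  refine ⟨Λ', h1.trans hN, fun p hp => (h2 p hp).mono ?_, KR_mono ?_ h3⟩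
  · exact Nat.mul_le_mul_right n (by omega)
  · have h4 : Λ.length * (2 * (8 * n) + 1) ≤ N * (2 * (8 * n) + 1) := Nat.mul_le_mul_right _ hN
    unfold H2.rr
    have h5 : H2.cc D * (n + 1) ≤ H2.cc D * ((N + 1) * (n + 1)) :=
      Nat.mul_le_mul_left _ (Nat.le_mul_of_pos_left _ (by omega))
    have h6 : 2 * (8 * n) + 1 + N * (2 * (8 * n) + 1) ≤ 17 * ((N + 1) * (n + 1)) := by
      nlinarith
    calc H2.cc D * (n + 1) + (2 * (8 * n) + 1) + Λ.length * (2 * (8 * n) + 1)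
        ≤ H2.cc D * ((N + 1) * (n + 1)) + 17 * ((N + 1) * (n + 1)) := by omega
      _ = (H2.cc D + 17) * (N + 1) * (n + 1) := by ring

end Pool.Agent.TH95.DI
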