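import Mathlib

set_option autoImplicit false

namespace Pool.Agent.TH95.DI

namespace Low

abbrev F2 := FreeGroup (Fin 2)

def lh : F2 := FreeGroup.of 0
def la : F2 := FreeGroup.of 1

def phiF : F2 →* F2 := FreeGroup.lift ![lh * la, lh * la * la]
def phiI : F2 →* F2 := FreeGroup.lift ![lh * la⁻¹ * lh, lh⁻¹ * la]

theorem phiF_h : phiF lh = lh * la := by simp [phiF, lh]
theorem phiF_a : phiF la = lh * la * la := by simp [phiF, la]
theorem phiI_h : phiI lh = lh * la⁻¹ * lh := by simp [phiI, lh]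
theorem phiI_a : phiI la = lh⁻¹ * la := by simp [phiI, la]

theorem phi_left : phiI.comp phiF = MonoidHom.id F2 := by
  ext i
  fin_cases i
  · change phiI (phiF lh) = lh
    rw [phiF_h, map_mul, phiI_h, phiI_a]; group
  · change phiI (phiF la) = la
    rw [phiF_a, map_mul, map_mul, phiI_h, phiI_a]; group

theorem phi_right : phiF.comp phiI = MonoidHom.id F2 := by
  ext i
  fin_cases i
  · change phiF (phiI lh) = lh
    rw [phiI_h, map_mul, map_mul, map_inv, phiF_h, phiF_a]; group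
  · change phiF (phiI la) = la
    rw [phiI_a, map_mul, map_inv, phiF_h, phiF_a]; group

def phi : MulAut F2 := MonoidHom.toMulEquiv phiF phiI phi_left phi_right

theorem phi_apply (x : F2) : phi x = phiF x := rfl

abbrev Om := ℤ × F2

/-- left multiplication by the twisted letter -/
def LM (c : F2) : Equiv.Perm Om where
  toFun x := (x.1, (phi ^ (-x.1)) c * x.2)
  invFun x := (x.1, ((phi ^ (-x.1)) c)⁻¹ * x.2)
  left_inv x := by simp
  right_inv x := by simp

def TT : Equiv.Perm Om where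
  toFun x := (x.1 + 1, x.2)
  invFun x := (x.1 - 1, x.2)
  left_inv x := by simp
  right_inv x := by simp

theorem LM_apply (c : F2) (x : Om) : LM c x = (x.1, (phi ^ (-x.1)) c * x.2) := rfl
theorem TT_apply (x : Om) : TT x = (x.1 + 1, x.2) := rfl
theorem TT_inv_apply (x : Om) : TT⁻¹ x = (x.1 - 1, x.2) := rfl

theorem TT_pow_apply (n : ℕ) (x : Om) : (TT ^ n) x = (x.1 + n, x.2) := by
  induction n with
  | zero => simp
  | succ n ih =>
    rw [pow_succ', Equiv.Perm.mul_apply, ih, TT_apply]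
    simp [add_assoc]

theorem TT_pow_inv_apply (n : ℕ) (x : Om) : (TT ^ n)⁻¹ x = (x.1 - n, x.2) := by
  rw [Equiv.Perm.inv_eq_iff_eq, TT_pow_apply]
  simp

theorem conj (c : F2) : TT * LM c * TT⁻¹ = LM (phi c) := by
  ext x : 1
  simp only [Equiv.Perm.mul_apply, TT_inv_apply, LM_apply, TT_apply]
  refine Prod.ext (by simp) ?_
  simp only
  congr 1
  rw [← MulAut.mul_apply, ← zpow_add_one]
  congr 2
  ring

theorem LM_mul (c d : F2) : LM c * LM d = LM (c * d) := by
  ext x : 1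
  simp only [Equiv.Perm.mul_apply, LM_apply]
  simp [mul_assoc]

theorem comm_right (e : Equiv.Perm Om) (he : e ∈ Subgroup.closure ({LM la, LM lh, TT} : Set (Equiv.Perm Om))) :
    ∀ (x : Om) (g : F2), e (x.1, x.2 * g) = ((e x).1, (e x).2 * g) := by
  induction he using Subgroup.closure_induction with
  | mem y hy =>
    intro x g
    simp only [Set.mem_insert_iff, Set.mem_singleton_iff] at hy
    rcases hy with rfl | rfl | rfl
    · simp [LM_apply, mul_assoc]
    · simp [LM_apply, mul_assoc]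
    · simp [TT_apply]
  | one => intro x g; simp
  | mul a b _ _ iha ihb =>
    intro x g
    rw [Equiv.Perm.mul_apply, ihb, Equiv.Perm.mul_apply]
    exact iha (b x) g
  | inv a _ iha =>
    intro x g
    rw [Equiv.Perm.inv_eq_iff_eq, iha (a⁻¹ x) g]
    simp

/-! ### the affine action -/

def A0 : Equiv.Perm (ℤ × ℤ) where
  toFun x := (x.2, 3 * x.2 - x.1)
  invFun x := (3 * x.1 - x.2, x.1)
  left_inv x := by ext <;> simp
  right_inv x := by ext <;> simp

theorem A0_apply (x : ℤ × ℤ) : A0 x = (x.2, 3 * x.2 - x.1) := rfl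

theorem A0_sub (x y : ℤ × ℤ) : A0 (x - y) = A0 x - A0 y := by
  simp only [A0_apply]
  ext
  · simp
  · simp; ring

def shift : Equiv.Perm (ℤ × ℤ) where
  toFun x := (x.1 + 1, x.2)
  invFun x := (x.1 - 1, x.2)
  left_inv x := by simp
  right_inv x := by simp

def psi : F2 →* Equiv.Perm (ℤ × ℤ) := FreeGroup.lift ![shift⁻¹, A0⁻¹]

theorem psi_h : psi lh = shift⁻¹ := by simp [psi, lh]
theorem psi_a : psi la = A0⁻¹ := by simp [psi, la]

def vv (f : F2) : ℤ × ℤ := (psi f)⁻¹ (0, 0)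

theorem vv_h (f : F2) : vv (f * lh) = ((vv f).1 + 1, (vv f).2) := by
  simp only [vv, map_mul, psi_h, mul_inv_rev, inv_inv, Equiv.Perm.mul_apply]
  rfl

theorem vv_a (f : F2) : vv (f * la) = ((vv f).2, 3 * (vv f).2 - (vv f).1) := by
  simp only [vv, map_mul, psi_a, mul_inv_rev, inv_inv, Equiv.Perm.mul_apply]
  rfl

def ee : F2 →* Multiplicative ℤ := FreeGroup.lift ![1, Multiplicative.ofAdd 1]

theorem ee_h : (ee lh).toAdd = 0 := by simp [ee, lh]
theorem ee_a : (ee la).toAdd = 1 := by simp [ee, la]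

theorem diff (g : F2) : ∀ x y : ℤ × ℤ,
    (psi g)⁻¹ x - (psi g)⁻¹ y = (A0 ^ (ee g).toAdd) (x - y) := by
  have key : ∀ g : F2, (∀ x y : ℤ × ℤ, (psi g)⁻¹ x - (psi g)⁻¹ y = (A0 ^ (ee g).toAdd) (x - y)) →
      (∀ x y : ℤ × ℤ, (psi g⁻¹)⁻¹ x - (psi g⁻¹)⁻¹ y = (A0 ^ (ee g⁻¹).toAdd) (x - y)) := by
    intro g hg x y
    have := hg (psi g x) (psi g y)
    rw [← Equiv.Perm.mul_apply, ← Equiv.Perm.mul_apply, inv_mul_cancel, Equiv.Perm.one_apply,
      Equiv.Perm.one_apply] at this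
    rw [map_inv, map_inv, inv_inv, toAdd_inv, zpow_neg, this, ← Equiv.Perm.mul_apply]
    simp
  induction g using FreeGroup.induction_on with
  | C1 => intro x y; simp
  | of i =>
    intro x y
    fin_cases i
    · change (psi lh)⁻¹ x - (psi lh)⁻¹ y = (A0 ^ (ee lh).toAdd) (x - y)
      rw [psi_h, ee_h]
      simp only [inv_inv, zpow_zero, Equiv.Perm.one_apply]
      ext <;> simp [shift]
    · change (psi la)⁻¹ x - (psi la)⁻¹ y = (A0 ^ (ee la).toAdd) (x - y)
      rw [psi_a, ee_a]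
      simp only [inv_inv, zpow_one]
      exact (A0_sub x y).symm
  | inv_of i ih => exact key _ ih
  | mul a b iha ihb =>
    intro x y
    rw [map_mul, map_mul, mul_inv_rev, Equiv.Perm.mul_apply, Equiv.Perm.mul_apply, ihb, iha,
      toAdd_mul, add_comm, zpow_add, Equiv.Perm.mul_apply]

def G : ℕ → ℤ
  | 0 => 0
  | 1 => 1
  | (n + 2) => 3 * G (n + 1) - G n

theorem G_step (n : ℕ) : 0 ≤ G n ∧ 2 * G n ≤ G (n + 1) := by
  induction n with
  | zero => simp [G]
  | succ n ih =>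
    have : G (n + 2) = 3 * G (n + 1) - G n := rfl
    rw [show n + 1 + 1 = n + 2 from rfl, this]
    constructor <;> linarith [ih.1, ih.2]

theorem G_lower (n : ℕ) : (2 : ℤ) ^ n ≤ G (n + 1) := by
  induction n with
  | zero => simp [G]
  | succ n ih =>
    have := (G_step (n + 1)).2
    rw [pow_succ]
    linarith

theorem A0_pow (n : ℕ) : (A0 ^ (n + 1)) (1, 0) = (-G n, -G (n + 1)) := by
  induction n with
  | zero => simp [A0_apply, G]
  | succ n ih =>
    rw [pow_succ', Equiv.Perm.mul_apply, ih, A0_apply]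
    have : G (n + 2) = 3 * G (n + 1) - G n := rfl
    ext
    · rfl
    · simp only [show n + 1 + 1 = n + 2 from rfl, this]; ring

theorem ee_phi (j : ℕ) : (ee ((phi ^ j) lh)).toAdd = G j ∧
    (ee ((phi ^ j) la)).toAdd = G (j + 1) - G j := by
  induction j with
  | zero => simp [ee_h, ee_a, G]
  | succ j ih =>
    have h1 : (phi ^ (j + 1)) lh = (phi ^ j) lh * (phi ^ j) la := by
      rw [pow_succ, MulAut.mul_apply, phi_apply, phiF_h, map_mul]
    have h2 : (phi ^ (j + 1)) la = (phi ^ j) lh * (phi ^ j) la * (phi ^ j) la := by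
      rw [pow_succ, MulAut.mul_apply, phi_apply, phiF_a, map_mul, map_mul]
    have : G (j + 2) = 3 * G (j + 1) - G j := rfl
    rw [h1, h2]
    simp only [map_mul, toAdd_mul, ih.1, ih.2, show j + 1 + 1 = j + 2 from rfl, this]
    constructor <;> ring

theorem growth (j : ℕ) (hj : 1 ≤ j) : ∃ n : ℕ, (n : ℤ) + 1 = G j ∧
    (vv (lh * (phi ^ j) lh)).1 - (vv ((phi ^ j) lh)).1 = - G n := by
  obtain ⟨i, rfl⟩ := Nat.exists_eq_add_of_le' hj
  have hpos : 1 ≤ G (i + 1) := le_trans (one_le_pow₀ (by norm_num)) (G_lower i)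
  refine ⟨(G (i + 1) - 1).toNat, ?_, ?_⟩
  · rw [Int.toNat_of_nonneg (by linarith)]; ring
  · set n := (G (i + 1) - 1).toNat with hn
    have hn' : (n : ℤ) + 1 = G (i + 1) := by
      rw [hn, Int.toNat_of_nonneg (by linarith)]; ring
    have h := diff ((phi ^ (i + 1)) lh) (1, 0) (0, 0)
    have e1 : vv (lh * (phi ^ (i + 1)) lh) = (psi ((phi ^ (i + 1)) lh))⁻¹ (1, 0) := by
      simp only [vv, map_mul, psi_h, mul_inv_rev, inv_inv, Equiv.Perm.mul_apply]
      congr 1
    rw [e1]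
    unfold vv
    rw [(ee_phi (i + 1)).1, ← hn'] at h
    have h2 : (A0 ^ ((n : ℤ) + 1)) ((1, 0) - (0, 0)) = (-G n, -G (n + 1)) := by
      rw [← A0_pow n]
      simp only [← zpow_natCast]
      congr 1
    rw [h2] at h
    have := congrArg Prod.fst h
    simpa using this

def LL (x : Om) : ℤ := if x.1 = 0 then (vv x.2).1 else 0

noncomputable def Lam : (Om →₀ ℤ) →+ ℤ := Finsupp.liftAddHom (fun x => AddMonoidHom.mulRight (LL x))

theorem Lam_single (x : Om) (n : ℤ) : Lam (Finsupp.single x n) = n * LL x := by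
  simp [Lam]

theorem LL_h (k : ℤ) (f : F2) : |LL (k, f * lh) - LL (k, f)| ≤ 1 := by
  unfold LL
  by_cases hk : k = 0
  · simp [hk, vv_h]
  · simp [hk]

theorem LL_ha (k : ℤ) (f : F2) : |LL (k, f * (lh * la)) - LL (k, f * la)| ≤ 1 := by
  unfold LL
  by_cases hk : k = 0
  · rw [← mul_assoc]
    simp [hk, vv_h, vv_a]
  · simp [hk]

theorem LL_a (k : ℤ) (f : F2) : LL (k, f * (la * la)) - 3 * LL (k, f * la) + LL (k, f) = 0 := by
  unfold LL
  by_cases hk : k = 0
  · rw [← mul_assoc]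
    simp [hk, vv_a]
  · simp [hk]

end Low

open Low in
theorem exists_low : ∃ (Ω : Type) (_ : Countable Ω) (A H T : Equiv.Perm Ω) (ω : Ω)
    (Λ : (Ω →₀ ℤ) →+ ℤ),
    T * H * T⁻¹ = H * A ∧ T * A * T⁻¹ = H * A * A ∧
    (∀ e ∈ Subgroup.closure ({A, H, T} : Set (Equiv.Perm Ω)),
      Λ (Finsupp.mapDomain e (Finsupp.single (A (A ω)) 1 - Finsupp.single (A ω) 3 +
        Finsupp.single ω 1)) = 0) ∧
    (∀ e ∈ Subgroup.closure ({A, H, T} : Set (Equiv.Perm Ω)),
      |Λ (Finsupp.mapDomain e (Finsupp.single (H ω) 1 - Finsupp.single ω 1))| ≤ 1) ∧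
    (∀ e ∈ Subgroup.closure ({A, H, T} : Set (Equiv.Perm Ω)),
      |Λ (Finsupp.mapDomain e (Finsupp.single (H (A ω)) 1 - Finsupp.single (A ω) 1))| ≤ 1) ∧
    ∀ m : ℕ, 2 ^ (2 ^ m) ≤
      |Λ (Finsupp.single (H ((T ^ (m + 4) * H * (T ^ (m + 4))⁻¹) ω)) 1 -
        Finsupp.single ((T ^ (m + 4) * H * (T ^ (m + 4))⁻¹) ω) 1)| := by
  have eA : ∀ e ∈ Subgroup.closure ({LM la, LM lh, TT} : Set (Equiv.Perm Om)), ∀ g : F2,
      e ((0 : ℤ), g) = ((e ((0 : ℤ), (1 : F2))).1, (e ((0 : ℤ), (1 : F2))).2 * g) := by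
    intro e he g
    have := comm_right e he ((0 : ℤ), (1 : F2)) g
    simpa using this
  have w1 : LM la ((0 : ℤ), (1 : F2)) = (0, la) := by simp [LM_apply]
  have w2 : LM la ((0 : ℤ), la) = (0, la * la) := by simp [LM_apply]
  have w3 : LM lh ((0 : ℤ), (1 : F2)) = (0, lh) := by simp [LM_apply]
  have w4 : LM lh ((0 : ℤ), la) = (0, lh * la) := by simp [LM_apply]
  refine ⟨Om, inferInstance, LM la, LM lh, TT, ((0 : ℤ), (1 : F2)), Lam, ?_, ?_, ?_, ?_, ?_, ?_⟩
  · rw [conj, phi_apply, phiF_h, LM_mul]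
  · rw [conj, phi_apply, phiF_a, LM_mul, LM_mul]
  · intro e he
    rw [w1, w2, Finsupp.mapDomain_add, Finsupp.mapDomain_sub, Finsupp.mapDomain_single,
      Finsupp.mapDomain_single, Finsupp.mapDomain_single, eA e he la, eA e he (la * la), map_add,
      map_sub, Lam_single, Lam_single, Lam_single]
    have := LL_a (e ((0 : ℤ), (1 : F2))).1 (e ((0 : ℤ), (1 : F2))).2
    rw [one_mul, one_mul]
    exact this
  · intro e he
    rw [w3, Finsupp.mapDomain_sub, Finsupp.mapDomain_single,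
      Finsupp.mapDomain_single, eA e he lh,
      map_sub, Lam_single, Lam_single]
    have := LL_h (e ((0 : ℤ), (1 : F2))).1 (e ((0 : ℤ), (1 : F2))).2
    rw [one_mul, one_mul]
    exact this
  · intro e he
    rw [w1, w4, Finsupp.mapDomain_sub, Finsupp.mapDomain_single,
      Finsupp.mapDomain_single, eA e he la, eA e he (lh * la),
      map_sub, Lam_single, Lam_single]
    have := LL_ha (e ((0 : ℤ), (1 : F2))).1 (e ((0 : ℤ), (1 : F2))).2
    rw [one_mul, one_mul]
    exact this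
  · intro m
    have h1 : (TT ^ (m + 4) * LM lh * (TT ^ (m + 4))⁻¹) ((0 : ℤ), (1 : F2)) =
        (0, (phi ^ (m + 4)) lh) := by
      rw [Equiv.Perm.mul_apply, Equiv.Perm.mul_apply, TT_pow_inv_apply, LM_apply, TT_pow_apply]
      refine Prod.ext (by simp) ?_
      simp only [mul_one, zero_sub, neg_neg, zpow_natCast]
    have h2 : LM lh ((0 : ℤ), (phi ^ (m + 4)) lh) = (0, lh * (phi ^ (m + 4)) lh) := by
      simp [LM_apply]
    rw [h1, h2, map_sub, Lam_single, Lam_single]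
    obtain ⟨n, hn, hn2⟩ := growth (m + 4) (by omega)
    have h3 : LL ((0 : ℤ), lh * (phi ^ (m + 4)) lh) = (vv (lh * (phi ^ (m + 4)) lh)).1 := by
      simp [LL]
    have h4 : LL ((0 : ℤ), (phi ^ (m + 4)) lh) = (vv ((phi ^ (m + 4)) lh)).1 := by
      simp [LL]
    rw [one_mul, one_mul, h3, h4, hn2, abs_neg]
    have hb : (2 : ℤ) ^ (m + 3) ≤ n + 1 := by rw [hn]; exact G_lower (m + 3)
    have hb' : 2 ^ (m + 3) ≤ n + 1 := by exact_mod_cast hb
    have hm : 1 ≤ 2 ^ m := Nat.one_le_two_pow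
    have hn3 : 2 ^ m + 1 ≤ n := by
      have : 2 ^ (m + 3) = 8 * 2 ^ m := by rw [pow_add]; ring
      omega
    obtain ⟨i, rfl⟩ : ∃ i, n = i + 1 := ⟨n - 1, by omega⟩
    have hi : 2 ^ m ≤ i := by omega
    calc (2 : ℤ) ^ (2 ^ m) ≤ 2 ^ i := pow_le_pow_right₀ (by norm_num) hi
      _ ≤ G (i + 1) := G_lower i
      _ ≤ |G (i + 1)| := le_abs_self _

end Pool.Agent.TH95.DI
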