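import Pool.Agent.TH95.DI.Rel
import Pool.Agent.TH95.DI.JobB

set_option autoImplicit false
set_option linter.unusedSectionVars false
noncomputable section

namespace Pool.Agent.TH95.DI

namespace JJ

section gen

variable {X K Ω : Type}

/-- the push-forward of a formal product -/
def psh (ξ : X → Equiv.Perm Ω) (m0 : K → (Ω →₀ ℤ)) : Seq X K →* Multiplicative (Ω →₀ ℤ) :=
  FreeGroup.lift (fun p => Multiplicative.ofAdd
    (Finsupp.mapDomain (FreeGroup.lift ξ p.1) (m0 p.2)))

theorem psh_of (ξ : X → Equiv.Perm Ω) (m0 : K → (Ω →₀ ℤ)) (p : FreeGroup X × K) :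
    psh ξ m0 (FreeGroup.of p) = Multiplicative.ofAdd
      (Finsupp.mapDomain (FreeGroup.lift ξ p.1) (m0 p.2)) := by
  simp [psh]

theorem psh_cj (ξ : X → Equiv.Perm Ω) (m0 : K → (Ω →₀ ℤ)) (w : FreeGroup X) (u : Seq X K) :
    Multiplicative.toAdd (psh ξ m0 (cj w u)) =
      Finsupp.mapDomain (FreeGroup.lift ξ w) (Multiplicative.toAdd (psh ξ m0 u)) := by
  induction u using FreeGroup.induction_on with
  | C1 => simp
  | of p =>
    have : cj w (FreeGroup.of p) = FreeGroup.of (w * p.1, p.2) := by simp [cj]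
    rw [this, psh_of, psh_of, toAdd_ofAdd, toAdd_ofAdd, map_mul, ← Finsupp.mapDomain_comp]
    rfl
  | inv_of p ih =>
    rw [map_inv, map_inv, toAdd_inv, ih, map_inv, toAdd_inv]
    exact ((Finsupp.mapDomain.addMonoidHom (M := ℤ) (FreeGroup.lift ξ w)).map_neg _).symm
  | mul x y hx hy =>
    rw [map_mul, map_mul, toAdd_mul, hx, hy, map_mul, toAdd_mul, Finsupp.mapDomain_add]

/-- a lower bound for the number of relators -/
theorem lower_gen [Finite X] [Finite K] [Countable Ω]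
    (r : K → List (X × Bool)) (hlen : ∀ k, (r k).length ≤ 6)
    (ξ : X → Equiv.Perm Ω) (hξ : ∀ k, FreeGroup.lift ξ (FreeGroup.mk (r k)) = 1)
    (m0 : K → (Ω →₀ ℤ)) (Fn : (Ω →₀ ℤ) →+ ℤ) (𝒰 : Set (Seq X K))
    (hb : ∀ u ∈ 𝒰, ∀ w : FreeGroup X, |Fn (Multiplicative.toAdd (psh ξ m0 (cj w u)))| ≤ 1)
    (u : Seq X K) (N : ℕ) (hN : IsPr (allRel r 𝒰) N (zhat u)) :
    |Fn (Multiplicative.toAdd (psh ξ m0 u))| ≤ N := by
  classical
  obtain ⟨Γ, _, ι, Θ, κ, hι, hrel, hz, hκx, _, hconj⟩ :=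
    exists_theta r hlen ξ hξ m0
  have hκ : ∀ w : FreeGroup X, κ (hat w) = FreeGroup.lift ξ w := by
    intro w
    have : κ.comp hat = FreeGroup.lift ξ := by
      ext1 x
      simp only [hat, MonoidHom.comp_apply, FreeGroup.map.of, FreeGroup.lift_apply_of]
      exact hκx x
    exact DFunLike.congr_fun this w
  have hval : ∀ v : Seq X K, Θ (zhat v) = ι (psh ξ m0 v) := by
    intro v
    have : Θ.comp zhat = ι.comp (psh ξ m0) := by
      ext1 p
      simp only [MonoidHom.comp_apply, zhat, zP_of, map_mul, map_inv, hz, hconj, hκ, psh_of]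
    exact DFunLike.congr_fun this v
  have hU0 : ∀ u ∈ (∅ : Set (Seq X K)), rho (rW r) u = 1 := fun _ h => absurd h (Set.notMem_empty _)
  have hΘ : ∀ w w' : FreeGroup (Lt X K), mkP r ∅ w = mkP r ∅ w' → Θ w = Θ w' := by
    intro w w' h
    have h1 : w * w'⁻¹ ∈ Subgroup.normalClosure (allRel r (∅ : Set (Seq X K))) := by
      apply PresentedGroup.mk_eq_one_iff.mp
      show mkP r ∅ (w * w'⁻¹) = 1
      rw [map_mul, map_inv, h, mul_inv_cancel]
    have h2 : Θ (w * w'⁻¹) = 1 := by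
      apply nc_one Θ _ _ _ h1
      rintro s (hs | ⟨u, hu, _⟩)
      · exact hrel s hs
      · exact absurd hu (Set.notMem_empty _)
    rw [map_mul, map_inv, mul_inv_eq_one] at h2
    exact h2
  have hcj : ∀ (g : FreeGroup (Lt X K)) (v : Seq X K),
      Θ (g * zhat v * g⁻¹) = ι (psh ξ m0 (cj (pF r g) v)) := by
    intro g v
    rw [← hval]
    apply hΘ
    have h1 := zP_conj (r := r) (∅ : Set (Seq X K)) hlen hU0 (mkP r ∅ g) v
    rw [phiP_mk] at h1
    have h2 : ∀ v : Seq X K, mkP r ∅ (zhat v) =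
        zP (hatP r ∅) (fun k => mkP r ∅ (lz k)) v := by
      intro v
      unfold zhat
      rw [zP_map]
      rfl
    rw [map_mul, map_mul, map_inv, h2, h2]
    exact h1
  have hone : ∀ (g R : FreeGroup (Lt X K)), R ∈ allRel r 𝒰 ∨ R⁻¹ ∈ allRel r 𝒰 →
      ∃ m : Multiplicative (Ω →₀ ℤ), Θ (g * R * g⁻¹) = ι m ∧
        |Fn (Multiplicative.toAdd m)| ≤ 1 := by
    have hpos : ∀ (g R : FreeGroup (Lt X K)), R ∈ allRel r 𝒰 →
        ∃ m : Multiplicative (Ω →₀ ℤ), Θ (g * R * g⁻¹) = ι m ∧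
          |Fn (Multiplicative.toAdd m)| ≤ 1 := by
      rintro g R (hR | ⟨v, hv, rfl⟩)
      · refine ⟨1, ?_, by simp⟩
        rw [map_mul, map_mul, hrel R hR, mul_one, ← map_mul, mul_inv_cancel, map_one, map_one]
      · exact ⟨psh ξ m0 (cj (pF r g) v), hcj g v, hb v hv _⟩
    rintro g R (hR | hR)
    · exact hpos g R hR
    · obtain ⟨m, h1, h2⟩ := hpos g _ hR
      refine ⟨m⁻¹, ?_, ?_⟩
      · rw [map_inv, ← h1, ← map_inv]
        congr 1
        group
      · rw [toAdd_inv, map_neg, abs_neg]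
        exact h2
  have hprod : ∀ l : List (FreeGroup (Lt X K) × FreeGroup (Lt X K)),
      (∀ p ∈ l, p.2 ∈ allRel r 𝒰 ∨ p.2⁻¹ ∈ allRel r 𝒰) →
      ∃ m : Multiplicative (Ω →₀ ℤ), Θ ((l.map (fun p => p.1 * p.2 * p.1⁻¹)).prod) = ι m ∧
        |Fn (Multiplicative.toAdd m)| ≤ l.length := by
    intro l
    induction l with
    | nil => intro _; exact ⟨1, by simp, by simp⟩
    | cons a l ih =>
      intro hl
      obtain ⟨m1, h1, h2⟩ := hone a.1 a.2 (hl a (by simp))
      obtain ⟨m2, h3, h4⟩ := ih (fun p hp => hl p (by simp [hp]))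
      refine ⟨m1 * m2, ?_, ?_⟩
      · rw [List.map_cons, List.prod_cons, map_mul, h1, h3, map_mul]
      · rw [toAdd_mul, map_add, List.length_cons]
        push_cast
        calc _ ≤ |Fn (Multiplicative.toAdd m1)| + |Fn (Multiplicative.toAdd m2)| := abs_add_le _ _
          _ ≤ 1 + (l.length : ℤ) := add_le_add h2 h4
          _ = _ := by ring
  obtain ⟨l, h1, h2, h3⟩ := hN
  obtain ⟨m, h4, h5⟩ := hprod l h2
  rw [← h3, hval] at h4
  rw [hι h4]
  exact h5.trans (by exact_mod_cast h1)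

end gen

/-- the base values -/
def mm {Ω : Type} (ω : Ω) : Kq → (Ω →₀ ℤ)
  | Kq.k0 => Finsupp.single ω 1
  | Kq.k1 => 0
  | Kq.k2 => 0

/-- the action -/
def xx {Ω : Type} (A H T : Equiv.Perm Ω) : Lq → Equiv.Perm Ω
  | Lq.a => A
  | Lq.h => H
  | Lq.t => T

section act

variable {Ω : Type} (A H T : Equiv.Perm Ω)

theorem xx_mem (w : FL) : FreeGroup.lift (xx A H T) w ∈
    Subgroup.closure ({A, H, T} : Set (Equiv.Perm Ω)) := by
  induction w using FreeGroup.induction_on with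
  | C1 => rw [map_one]; exact Subgroup.one_mem _
  | of z =>
    rw [FreeGroup.lift_apply_of]
    apply Subgroup.subset_closure
    cases z <;> simp [xx]
  | inv_of z ih => rw [map_inv]; exact Subgroup.inv_mem _ ih
  | mul y z ha hb => rw [map_mul]; exact Subgroup.mul_mem _ ha hb

theorem xx_rel (h1 : T * H * T⁻¹ = H * A) (h2 : T * A * T⁻¹ = H * A * A) (k : Kq) :
    FreeGroup.lift (xx A H T) (FreeGroup.mk (rq k)) = 1 := by
  cases k
  · simp [rq]
  · have : FreeGroup.lift (xx A H T) (FreeGroup.mk (rq Kq.k1)) = T * H * T⁻¹ * A⁻¹ * H⁻¹ := by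
      simp [rq, xx, mul_assoc]
    rw [this, h1]; group
  · have : FreeGroup.lift (xx A H T) (FreeGroup.mk (rq Kq.k2)) = T * A * T⁻¹ * A⁻¹ * A⁻¹ * H⁻¹ := by
      simp [rq, xx, mul_assoc]
    rw [this, h2]; group

theorem zs_val (ω : Ω) (u : FL) : Multiplicative.toAdd (psh (xx A H T) (mm ω) (zs u)) =
    Finsupp.single (FreeGroup.lift (xx A H T) u ω) 1 := by
  unfold zs
  rw [psh_of, toAdd_ofAdd]
  simp [mm, Finsupp.mapDomain_single]

@[simp] theorem lift_ea : FreeGroup.lift (xx A H T) ea = A := by simp [ea, xx]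
@[simp] theorem lift_eh : FreeGroup.lift (xx A H T) eh = H := by simp [eh, xx]
@[simp] theorem lift_et : FreeGroup.lift (xx A H T) et = T := by simp [et, xx]

end act

end JJ

open JJ in
theorem low_area (m N : ℕ)
    (h : IsPr RR N (Wd hq zq [(eh * fb (m + 4), true), (fb (m + 4), false)])) :
    2 ^ (2 ^ m) ≤ N := by
  obtain ⟨Ω, _, A, H, T, ω, Λ, r1, r2, b1, b2, b3, hgr⟩ := exists_low
  set v : Seq Lq Kq := zs (eh * fb (m + 4)) * (zs (fb (m + 4)))⁻¹ with hv
  have e1 : Wd hq zq [(eh * fb (m + 4), true), (fb (m + 4), false)] = zhat v := by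
    rw [hv, map_mul, map_inv]
    simp only [Wd, Us, List.map_cons, List.map_nil, List.prod_cons, List.prod_nil, mul_one, zhat,
      zs, zP_of, U, zq, if_true]
    rfl
  rw [e1] at h
  have hbd : ∀ u ∈ Uq, ∀ w : FL,
      |Λ (Multiplicative.toAdd (psh (xx A H T) (mm ω) (cj w u)))| ≤ 1 := by
    intro u hu w
    rw [psh_cj]
    have hw := xx_mem A H T w
    cases hu with
    | s1 =>
      have := b1 _ hw
      have e : Multiplicative.toAdd (psh (xx A H T) (mm ω)
          (zs (ea * ea) * (zs ea)⁻¹ * (zs ea)⁻¹ * (zs ea)⁻¹ * zs 1)) =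
          Finsupp.single (A (A ω)) 1 - Finsupp.single (A ω) 3 + Finsupp.single ω 1 := by
        simp only [map_mul, map_inv, toAdd_mul, toAdd_inv, zs_val, lift_ea, map_one]
        have : Finsupp.single (A ω) (3:ℤ) = Finsupp.single (A ω) 1 + Finsupp.single (A ω) 1 +
          Finsupp.single (A ω) 1 := by
          rw [← Finsupp.single_add, ← Finsupp.single_add]
          norm_num
        rw [this]
        simp only [Equiv.Perm.mul_apply, Equiv.Perm.one_apply]
        abel
      rw [e, this]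
      simp
    | s2 =>
      have e : Multiplicative.toAdd (psh (xx A H T) (mm ω) (zs eh * (zs 1)⁻¹)) =
          Finsupp.single (H ω) 1 - Finsupp.single ω 1 := by
        simp only [map_mul, map_inv, toAdd_mul, toAdd_inv, zs_val, lift_eh, map_one]
        simp only [Equiv.Perm.one_apply]
        abel
      rw [e]
      exact b2 _ hw
    | s3 =>
      have e : Multiplicative.toAdd (psh (xx A H T) (mm ω) (zs (eh * ea) * (zs ea)⁻¹)) =
          Finsupp.single (H (A ω)) 1 - Finsupp.single (A ω) 1 := by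
        simp only [map_mul, map_inv, toAdd_mul, toAdd_inv, zs_val, lift_eh, lift_ea]
        simp only [Equiv.Perm.mul_apply]
        abel
      rw [e]
      exact b3 _ hw
    | k1 => rw [psh_of]; simp [mm]
    | k2 => rw [psh_of]; simp [mm]
  have key := lower_gen rq rq_len (xx A H T) (xx_rel A H T r1 r2) (mm ω) Λ Uq hbd v N h
  have e2 : Multiplicative.toAdd (psh (xx A H T) (mm ω) v) =
      Finsupp.single (H ((T ^ (m + 4) * H * (T ^ (m + 4))⁻¹) ω)) 1 -
        Finsupp.single ((T ^ (m + 4) * H * (T ^ (m + 4))⁻¹) ω) 1 := by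
    have e3 : FreeGroup.lift (xx A H T) (fb (m + 4)) = T ^ (m + 4) * H * (T ^ (m + 4))⁻¹ := by
      unfold fb
      rw [map_mul, map_mul, map_zpow, map_zpow, lift_et, lift_eh, zpow_neg]
      norm_cast
    rw [hv]
    simp only [map_mul, map_inv, toAdd_mul, toAdd_inv, zs_val, lift_eh, e3]
    rw [← sub_eq_add_neg]
    rfl
  rw [e2] at key
  have := (hgr m).trans key
  exact_mod_cast this

end Pool.Agent.TH95.DI
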