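import Pool.Agent.TH95.DI.Rad

/-!
Products of conjugates of the central element with vanishing formal sum.
-/

set_option autoImplicit false

set_option linter.unusedSectionVars false

noncomputable section

namespace Pool.Agent.TH95.DI

variable {α : Type} {R : Set (FreeGroup α)} {r s n m : ℕ} {X B : Type}

/-- a signed conjugate of the central element -/
def Us (hat : FreeGroup X →* FreeGroup α) (z : FreeGroup α) (p : FreeGroup X × Bool) :
    FreeGroup α := if p.2 then U hat z p.1 else (U hat z p.1)⁻¹

/-- products of signed conjugates of the central element -/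
def Wd (hat : FreeGroup X →* FreeGroup α) (z : FreeGroup α) (Λ : List (FreeGroup X × Bool)) :
    FreeGroup α := (Λ.map (Us hat z)).prod

/-- the sign -/
def sg (b : Bool) : ℤ := if b then 1 else -1

/-- the formal sum -/
def Sm (Λ : List (FreeGroup X × Bool)) : FreeGroup X →₀ ℤ :=
  (Λ.map (fun p => Finsupp.single p.1 (sg p.2))).sum

/-- the formal inverse -/
def iv (Λ : List (FreeGroup X × Bool)) : List (FreeGroup X × Bool) :=
  (Λ.map (fun p => (p.1, !p.2))).reverse

@[simp] theorem sg_not (b : Bool) : sg (!b) = - sg b := by cases b <;> simp [sg]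

@[simp] theorem Sm_nil : Sm ([] : List (FreeGroup X × Bool)) = 0 := rfl
@[simp] theorem Sm_cons (p : FreeGroup X × Bool) (Λ : List (FreeGroup X × Bool)) :
    Sm (p :: Λ) = Finsupp.single p.1 (sg p.2) + Sm Λ := by simp [Sm]
@[simp] theorem Sm_append (Λ Λ' : List (FreeGroup X × Bool)) : Sm (Λ ++ Λ') = Sm Λ + Sm Λ' := by
  simp [Sm]

theorem Sm_iv (Λ : List (FreeGroup X × Bool)) : Sm (iv Λ) = - Sm Λ := by
  induction Λ with
  | nil => simp [iv]
  | cons p Λ ih =>
    have : iv (p :: Λ) = iv Λ ++ [(p.1, !p.2)] := by simp [iv]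
    rw [this, Sm_append, ih, Sm_cons, Sm_cons, Sm_nil, sg_not, Finsupp.single_neg]
    abel

@[simp] theorem iv_length (Λ : List (FreeGroup X × Bool)) : (iv Λ).length = Λ.length := by
  simp [iv]

theorem mem_iv {Λ : List (FreeGroup X × Bool)} {p : FreeGroup X × Bool} (h : p ∈ iv Λ) :
    (p.1, !p.2) ∈ Λ := by
  unfold iv at h
  rw [List.mem_reverse, List.mem_map] at h
  obtain ⟨q, hq, rfl⟩ := h
  simpa using hq

section

variable (hat : FreeGroup X →* FreeGroup α) (z : FreeGroup α)

@[simp] theorem Wd_nil : Wd hat z [] = 1 := rfl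
@[simp] theorem Wd_cons (p : FreeGroup X × Bool) (Λ : List (FreeGroup X × Bool)) :
    Wd hat z (p :: Λ) = Us hat z p * Wd hat z Λ := by simp [Wd]
@[simp] theorem Wd_append (Λ Λ' : List (FreeGroup X × Bool)) :
    Wd hat z (Λ ++ Λ') = Wd hat z Λ * Wd hat z Λ' := by simp [Wd]

theorem Us_not (p : FreeGroup X × Bool) : Us hat z (p.1, !p.2) = (Us hat z p)⁻¹ := by
  obtain ⟨u, b⟩ := p
  cases b <;> simp [Us]

theorem Wd_iv (Λ : List (FreeGroup X × Bool)) : Wd hat z (iv Λ) = (Wd hat z Λ)⁻¹ := by
  induction Λ with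
  | nil => simp [iv]
  | cons p Λ ih =>
    have : iv (p :: Λ) = iv Λ ++ [(p.1, !p.2)] := by simp [iv]
    rw [this, Wd_append, ih, Wd_cons, Wd_cons, Wd_nil, Us_not, mul_one, mul_inv_rev]

end

/-- in a list with vanishing sum the first term cancels with a later one -/
theorem exists_cancel {c : FreeGroup X} {ε : Bool} {Λ : List (FreeGroup X × Bool)}
    (h : Sm ((c, ε) :: Λ) = 0) : (c, !ε) ∈ Λ := by
  classical
  by_contra hn
  have key : ∀ Λ : List (FreeGroup X × Bool), (c, !ε) ∉ Λ → 0 ≤ sg ε * Sm Λ c := by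
    intro Λ
    induction Λ with
    | nil => simp
    | cons p Λ ih =>
      intro hn
      rw [List.mem_cons, not_or] at hn
      have h1 := ih hn.2
      rw [Sm_cons, Finsupp.add_apply, mul_add]
      have h2 : 0 ≤ sg ε * (Finsupp.single p.1 (sg p.2)) c := by
        by_cases hc : p.1 = c
        · have hp : p.2 = ε := by
            by_contra hp
            apply hn.1
            have : p.2 = !ε := by
              cases h3 : p.2 <;> cases ε <;> simp_all
            rw [← hc, ← this]
          rw [hc, Finsupp.single_eq_same, hp]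
          cases ε <;> simp [sg]
        · rw [Finsupp.single_eq_of_ne (Ne.symm hc)]
          simp
      linarith
  have h1 := key Λ hn
  have h2 := congrArg (fun f : FreeGroup X →₀ ℤ => f c) h
  simp only [Sm_cons, Finsupp.add_apply, Finsupp.single_eq_same, Finsupp.coe_zero,
    Pi.zero_apply] at h2
  have h3 : sg ε * sg ε = 1 := by cases ε <;> simp [sg]
  have h4 : sg ε * (sg ε + Sm Λ c) = 0 := by rw [h2, mul_zero]
  rw [mul_add, h3] at h4
  linarith

section base

variable {hat : FreeGroup X →* FreeGroup α} {ι : FreeGroup B →* FreeGroup α} {z : FreeGroup α}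
  {D : ℕ} (hb : BaseC R hat ι z D)

include hb

theorem Us_len {p : FreeGroup X × Bool} (hu : Bd p.1 n) : Bd (Us hat z p) (2 * n + 1) := by
  unfold Us
  split_ifs
  · exact U_len hb hu
  · exact (U_len hb hu).inv

theorem Wd_len {Λ : List (FreeGroup X × Bool)} (hΛ : ∀ p ∈ Λ, Bd p.1 n) :
    Bd (Wd hat z Λ) (Λ.length * (2 * n + 1)) := by
  induction Λ with
  | nil => simpa using Bd.one
  | cons p Λ ih =>
    rw [Wd_cons]
    refine ((Us_len hb (hΛ p (by simp))).mul (ih (fun q hq => hΛ q (by simp [hq])))).mono ?_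
    simp only [List.length_cons]
    ring_nf
    omega

theorem cm_Us {p q : FreeGroup X × Bool} (hp : Bd p.1 n) (hq : Bd q.1 n) :
    Cm R ((4 * D + 13) * (n + 1)) (Us hat z p) (Us hat z q) := by
  have h1 := cm_U hb hp hq
  have l1 := U_len hb hp
  have l2 := U_len hb hq
  unfold Us
  split_ifs
  · exact h1.mono (by nlinarith)
  · exact (h1.inv_right l2).mono (by nlinarith)
  · exact (h1.inv_left l1).mono (by nlinarith)
  · exact ((h1.inv_left l1).inv_right l2).mono (by nlinarith)

theorem cm_Wd {q : FreeGroup X × Bool} (hq : Bd q.1 n) {Λ : List (FreeGroup X × Bool)}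
    (hΛ : ∀ p ∈ Λ, Bd p.1 n) :
    Cm R ((4 * D + 13) * (n + 1) + (2 * n + 1) * Λ.length) (Wd hat z Λ) (Us hat z q) := by
  induction Λ with
  | nil => exact Cm.one_left
  | cons p Λ ih =>
    have h1 := ih (fun q hq => hΛ q (by simp [hq]))
    have h2 := cm_Us hb (hΛ p (by simp)) hq
    rw [Wd_cons]
    refine ((h2.mono (Nat.le_add_right _ _)).mul_left h1 (Us_len hb (hΛ p (by simp)))).mono ?_
    simp only [List.length_cons]
    ring_nf
    omega

/-- the radius -/
def rd (D N n : ℕ) : ℕ := (2 * N + 4 * D + 13) * (n + 1)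

/-- products with vanishing formal sum -/
theorem ab : ∀ (N : ℕ) (Λ : List (FreeGroup X × Bool)), Λ.length ≤ N → (∀ p ∈ Λ, Bd p.1 n) →
    Sm Λ = 0 → Wd hat z Λ ∈ KR R (rd D N n) := by
  intro N
  induction N using Nat.strong_induction_on with
  | _ N IH =>
  intro Λ hN hΛ h0
  cases Λ with
  | nil => simp
  | cons p Λ =>
    obtain ⟨c, ε⟩ := p
    obtain ⟨Λ1, Λ2, rfl⟩ := List.append_of_mem (exists_cancel h0)
    simp only [List.length_cons, List.length_append] at hN
    have h1 : Sm (Λ1 ++ Λ2) = 0 := by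
      rw [Sm_cons, Sm_append, Sm_cons] at h0
      simp only [sg_not, Finsupp.single_neg] at h0
      rw [Sm_append, ← h0]
      abel
    have h2 : Wd hat z (Λ1 ++ Λ2) ∈ KR R (rd D (N - 2) n) := by
      apply IH (N - 2) (by omega) _ _ _ h1
      · simp only [List.length_append]
        omega
      · intro p hp
        apply hΛ
        simp only [List.mem_cons, List.mem_append] at hp ⊢
        tauto
    have h3 : Cm R ((4 * D + 13) * (n + 1) + (2 * n + 1) * Λ1.length) (Wd hat z Λ1)
        (Us hat z (c, ε)) := by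
      apply cm_Wd hb (hΛ _ (by simp))
      intro p hp
      apply hΛ
      simp [hp]
    have h4 := h3.symm
    have e : Wd hat z ((c, ε) :: (Λ1 ++ (c, !ε) :: Λ2)) =
        (Us hat z (c, ε) * Wd hat z Λ1 * (Us hat z (c, ε))⁻¹ * (Wd hat z Λ1)⁻¹) *
          Wd hat z (Λ1 ++ Λ2) := by
      have := Us_not hat z (c, ε)
      simp only at this
      rw [Wd_cons, Wd_append, Wd_cons, this, Wd_append]
      group
    rw [e]
    apply Subgroup.mul_mem _ (KR_mono _ h4) (KR_mono _ h2)
    · unfold rd
      have : Λ1.length ≤ N := by omega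
      nlinarith
    · unfold rd
      have : N - 2 ≤ N := by omega
      nlinarith

/-- congruences follow from identities between formal sums -/
theorem comb {N : ℕ} (hr : rd D N n ≤ r) (Λ : List (FreeGroup X × Bool))
    (parts : List (List (FreeGroup X × Bool)))
    (hp : ∀ P ∈ parts, Wd hat z P ∈ KR R r)
    (hs : Sm Λ = (parts.map Sm).sum)
    (hN : Λ.length + (parts.map List.length).sum ≤ N)
    (hΛ : ∀ p ∈ Λ, Bd p.1 n) (hP : ∀ P ∈ parts, ∀ p ∈ P, Bd p.1 n) : Wd hat z Λ ∈ KR R r := by
  have h1 : Wd hat z (Λ ++ iv parts.flatten) ∈ KR R r := by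
    refine KR_mono hr (ab hb N _ ?_ ?_ ?_)
    · simp only [List.length_append, iv_length, List.length_flatten]
      exact hN
    · intro p hp'
      rcases List.mem_append.mp hp' with h | h
      · exact hΛ p h
      · obtain ⟨P, hP1, hP2⟩ := List.mem_flatten.mp (mem_iv h)
        exact hP P hP1 (p.1, !p.2) hP2
    · rw [Sm_append, Sm_iv, hs]
      have : Sm parts.flatten = (parts.map Sm).sum := by
        clear hs hp hN hP
        induction parts with
        | nil => simp
        | cons P parts ih => simp [ih]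
      rw [this]
      abel
  have h2 : Wd hat z parts.flatten ∈ KR R r := by
    clear h1 hs hN hP
    induction parts with
    | nil => simp
    | cons P parts ih =>
      rw [List.flatten_cons, Wd_append]
      exact Subgroup.mul_mem _ (hp P (by simp)) (ih (fun Q hQ => hp Q (by simp [hQ])))
  rw [Wd_append, Wd_iv] at h1
  have := Subgroup.mul_mem _ h1 h2
  simpa using this

end base

end Pool.Agent.TH95.DI
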