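import Pool.Agent.TH95.DI.Ab

/-!
The letters, the relators and the numbers.
-/

set_option autoImplicit false

set_option linter.unusedSectionVars false

noncomputable section

namespace Pool.Agent.TH95.DI

/-- the letters of the quotient -/
inductive Lq
  | a
  | h
  | t
  deriving DecidableEq

instance : Fintype Lq := ⟨{Lq.a, Lq.h, Lq.t}, by intro x; cases x <;> simp⟩

/-- the indices of the relators -/
inductive Kq
  | k0
  | k1
  | k2
  deriving DecidableEq

instance : Fintype Kq := ⟨{Kq.k0, Kq.k1, Kq.k2}, by intro x; cases x <;> simp⟩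

/-- the relators: the empty word, `t h t⁻¹ = h a` and `t a t⁻¹ = h a a` -/
def rq : Kq → List (Lq × Bool)
  | Kq.k0 => []
  | Kq.k1 => [(Lq.t, true), (Lq.h, true), (Lq.t, false), (Lq.a, false), (Lq.h, false)]
  | Kq.k2 => [(Lq.t, true), (Lq.a, true), (Lq.t, false), (Lq.a, false), (Lq.a, false), (Lq.h, false)]

/-- the free group -/
abbrev FL : Type := FreeGroup Lq

/-- the letter `a` -/
def ea : FL := FreeGroup.of Lq.a
/-- the letter `h` -/
def eh : FL := FreeGroup.of Lq.h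
/-- the letter `t` -/
def et : FL := FreeGroup.of Lq.t

/-- the step of the recursion -/
def Tg : Equiv.Perm (ℤ × ℤ) where
  toFun p := (p.2, 3 * p.2 - p.1)
  invFun p := (3 * p.1 - p.2, p.1)
  left_inv p := by simp
  right_inv p := by simp

/-- the Fibonacci numbers with even index -/
def Gz (j : ℤ) : ℤ := ((Tg ^ j) (0, 1)).1

theorem Tg_pow (j : ℤ) : (Tg ^ j) (0, 1) = (Gz j, Gz (j + 1)) := by
  have h : (Tg ^ (j + 1)) (0, 1) = Tg ((Tg ^ j) (0, 1)) := by
    rw [add_comm, zpow_add, zpow_one]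
    rfl
  have : Gz (j + 1) = ((Tg ^ j) (0, 1)).2 := by
    unfold Gz
    rw [h]
    rfl
  rw [this]
  rfl

@[simp] theorem Gz_zero : Gz 0 = 0 := by simp [Gz]
@[simp] theorem Gz_one : Gz 1 = 1 := by simp [Gz, Tg]

theorem Gz_rec (j : ℤ) : Gz (j + 2) = 3 * Gz (j + 1) - Gz j := by
  have h1 := Tg_pow (j + 1)
  have h : (Tg ^ (j + 1)) (0, 1) = Tg ((Tg ^ j) (0, 1)) := by
    rw [add_comm, zpow_add, zpow_one]
    rfl
  rw [h, Tg_pow] at h1
  have h2 := congrArg Prod.snd h1
  simp only [Tg, Equiv.coe_fn_mk] at h2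
  rw [h2]
  congr 1
  ring

theorem Gz_nat (n : ℕ) : 0 ≤ Gz n ∧ Gz n + 1 ≤ Gz (n + 1) ∧ 2 * Gz n ≤ Gz (n + 1) ∧
    Gz (n + 1) ≤ 3 * Gz n + 1 := by
  induction n with
  | zero => simp
  | succ n ih =>
    have h := Gz_rec n
    have e1 : ((n + 1 : ℕ) : ℤ) = (n : ℤ) + 1 := by push_cast; ring
    have e2 : ((n : ℤ) + 1) + 1 = (n : ℤ) + 2 := by ring
    rw [e1, e2, h]
    omega

end Pool.Agent.TH95.DI
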