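import Pool.Agent.TH95.DI.NF2

/-!
Filling of products with trivial sum.
-/

set_option autoImplicit false

set_option linter.unusedSectionVars false

noncomputable section

namespace Pool.Agent.TH95.DI

variable {α : Type} {R : Set (FreeGroup α)} {B : Type}

theorem l1_add {ι : Type} (s t : ι →₀ ℤ) :
    (s + t).sum (fun _ n => |n|) ≤ s.sum (fun _ n => |n|) + t.sum (fun _ n => |n|) := by
  classical
  have h0 : ∀ i ∈ s.support ∪ t.support, |(0 : ℤ)| = 0 := by simp
  rw [Finsupp.sum_of_support_subset (s + t) Finsupp.support_add _ h0,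
    Finsupp.sum_of_support_subset s Finset.subset_union_left _ h0,
    Finsupp.sum_of_support_subset t Finset.subset_union_right _ h0, ← Finset.sum_add_distrib]
  apply Finset.sum_le_sum
  intro i _
  exact abs_add_le _ _

theorem l1_sum {ι : Type} (f : FL × Bool → ι) (Λ : List (FL × Bool)) :
    ((Λ.map (fun p => Finsupp.single (f p) (sg p.2))).sum).sum (fun _ n => |n|) ≤ Λ.length := by
  induction Λ with
  | nil => simp
  | cons p Λ ih =>
    rw [List.map_cons, List.sum_cons]
    refine (l1_add _ _).trans ?_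
    rw [Finsupp.sum_single_index (by simp)]
    have : |sg p.2| = 1 := by cases p.2 <;> simp [sg]
    rw [this]
    simp only [List.length_cons]
    push_cast
    linarith

theorem mem_support_sum {ι : Type} (f : FL × Bool → ι) (Λ : List (FL × Bool)) (i : ι)
    (h : i ∈ ((Λ.map (fun p => Finsupp.single (f p) (sg p.2))).sum).support) :
    ∃ p ∈ Λ, f p = i := by
  classical
  induction Λ with
  | nil => simp at h
  | cons p Λ ih =>
    rw [List.map_cons, List.sum_cons] at h
    rcases Finset.mem_union.mp (Finsupp.support_add h) with h1 | h1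
    · have := Finsupp.support_single_subset h1
      exact ⟨p, by simp, (Finset.mem_singleton.mp this).symm⟩
    · obtain ⟨q, hq, rfl⟩ := ih h1
      exact ⟨q, by simp [hq], rfl⟩

theorem map_rl (μ : ℤ → FL) (s : ℤ × ℤ) :
    Finsupp.mapDomain.addMonoidHom (nf μ) (rl s) = Sm (rN μ s) := by
  unfold rl
  rw [map_add, map_sub]
  simp only [Finsupp.mapDomain.addMonoidHom_apply, Finsupp.mapDomain_single, rN, Sm_cons, Sm_nil,
    sg_true, sg_false, Finsupp.single_neg]
  have : (Finsupp.single (nf μ s) 3 : FL →₀ ℤ) =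
      Finsupp.single (nf μ s) 1 + Finsupp.single (nf μ s) 1 + Finsupp.single (nf μ s) 1 := by
    rw [← Finsupp.single_add, ← Finsupp.single_add]
    norm_num
  rw [this]
  abel

/-- the comparison of a term with its normal form -/
def cp (μ : ℤ → FL) (p : FL × Bool) : List (FL × Bool) :=
  if p.2 then [(p.1, true), (nf μ (sS p.1), false)] else [(nf μ (sS p.1), true), (p.1, false)]

theorem Sm_cp (μ : ℤ → FL) (p : FL × Bool) : Finsupp.single p.1 (sg p.2) =
    Sm (cp μ p) + Finsupp.single (nf μ (sS p.1)) (sg p.2) := by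
  unfold cp
  cases p.2 <;> simp [sg]

section base

variable {hat : FL →* FreeGroup α} {ι : FreeGroup B →* FreeGroup α} {z : FreeGroup α} {D : ℕ}
  (hb : BaseT R hat ι z D)

include hb

/-- the radius of the fillings -/
def rF (D N n : ℕ) : ℕ :=
  (kp D + 16 * N + 4 * D + 13) * (mL (2 * n + 17) + mR (2 * n + 17) + 30 * (n + 6) ^ 2 + 10 * n + 120)

theorem fill_sum (n N : ℕ) (Λ : List (FL × Bool)) (hN : Λ.length ≤ N) (hn : ∀ p ∈ Λ, Bd p.1 n)
    (h : (Λ.map (fun p => Finsupp.single (sS p.1) (sg p.2))).sum ∈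
      AddSubgroup.closure (Set.range rl)) : Wd hat z Λ ∈ KR R (rF D N n) := by
  obtain ⟨μ, hμ⟩ := exists_num hb (2 * n + 17)
  have hH : (4 : ℤ) ^ (n + 8) ≤ Gz ((2 * n + 17 : ℕ) : ℤ) := by
    have := two_pow_le_Gz (2 * n + 16)
    have e : (4 : ℤ) ^ (n + 8) = 2 ^ (2 * n + 16) := by
      rw [show (4 : ℤ) = 2 ^ 2 by norm_num, ← pow_mul]
      congr 1
    rw [e]
    push_cast at this ⊢
    rw [show (2 : ℤ) * n + 16 + 1 = 2 * n + 17 by ring] at this
    exact this
  set H := Gz ((2 * n + 17 : ℕ) : ℤ)
  set M1 := mL (2 * n + 17)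
  set M2 := mR (2 * n + 17)
  obtain ⟨Q, q1, q2, q3⟩ := exists_quot _ h
  have hQ : Q.length ≤ N := by
    have h1 := l1_sum (fun p : FL × Bool => sS p.1) Λ
    have h2 := q1.trans h1
    omega
  have hpos : ∀ p ∈ Λ, (sS p.1).1.natAbs ≤ n ∧ |(sS p.1).2| ≤ 4 ^ (n + 1) := by
    intro p hp
    obtain ⟨L, hL, e⟩ := hn p hp
    rw [← e]
    obtain ⟨h1, h2⟩ := sS_bd L
    exact ⟨by omega, h2.trans (pow_le_pow_right₀ (by norm_num) (by omega))⟩
  have h4 : (4 : ℤ) ^ (n + 1) < 4 ^ (n + 8) := by
    apply pow_lt_pow_right₀ (by norm_num)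
    omega
  have hqpos : ∀ q ∈ Q, q.1.1.natAbs ≤ n ∧ |q.1.2| < H := by
    intro q hq
    obtain ⟨e1, e2, h1, h2, h5, h6⟩ := q2 q hq
    obtain ⟨p1, hp1, f1⟩ := mem_support_sum _ _ _ h1
    obtain ⟨p2, hp2, f2⟩ := mem_support_sum _ _ _ h2
    have g1 := hpos p1 hp1
    have g2 := hpos p2 hp2
    rw [f1] at g1
    rw [f2] at g2
    simp only at g1 g2
    have g1' := abs_le.mp g1.2
    have g2' := abs_le.mp g2.2
    exact ⟨g1.1, abs_lt.mpr ⟨by linarith, by linarith⟩⟩
  have hnf : ∀ p ∈ Λ, E R hat z (rF D N n) p.1 (nf μ (sS p.1)) := by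
    intro p hp
    obtain ⟨L, hL, e⟩ := hn p hp
    rw [← e]
    refine (nf_word hb hμ le_rfl n hH L hL).1.mono ?_
    unfold rF
    apply Nat.mul_le_mul
    · omega
    · omega
  have hrN : ∀ q ∈ Q, Wd hat z (rN μ q.1) ∈ KR R (rF D N n) := by
    intro q hq
    obtain ⟨g1, g2⟩ := hqpos q hq
    refine rN_mem hb hμ q.1 n g1 g2 ?_
    unfold rF
    apply Nat.mul_le_mul
    · omega
    · omega
  have bnf : ∀ p ∈ Λ, Bd (nf μ (sS p.1)) (n + (M1 + 2 * (2 * n + 17) + 1)) := by
    intro p hp
    obtain ⟨g1, g2⟩ := hpos p hp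
    exact nf_bd hμ _ n g1 (by linarith)
  refine comb hb.toBaseC (N := 8 * N) (n := n + (M1 + 2 * (2 * n + 17) + 1)) ?_ _
    (Λ.map (cp μ) ++ Q.map (fun q => if q.2 then rN μ q.1 else iv (rN μ q.1))) ?_ ?_ ?_ ?_ ?_
  · unfold rd rF
    apply Nat.mul_le_mul
    · omega
    · omega
  · intro P hP
    rcases List.mem_append.mp hP with hP | hP
    · obtain ⟨p, hp, rfl⟩ := List.mem_map.mp hP
      unfold cp
      split_ifs
      · exact hnf p hp
      · exact (hnf p hp).symm
    · obtain ⟨q, hq, rfl⟩ := List.mem_map.mp hP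
      split_ifs
      · exact hrN q hq
      · exact KR_iv hb (hrN q hq)
  · have e1 : Sm Λ = ((Λ.map (cp μ)).map Sm).sum +
        Finsupp.mapDomain.addMonoidHom (nf μ)
          ((Λ.map (fun p => Finsupp.single (sS p.1) (sg p.2))).sum) := by
      clear h q1 q2 q3 hqpos hrN hnf bnf hn hN hpos
      induction Λ with
      | nil => simp
      | cons p Λ ih =>
        rw [Sm_cons, ih, Sm_cp μ p]
        simp only [List.map_cons, List.sum_cons, map_add, Finsupp.mapDomain.addMonoidHom_apply,
          Finsupp.mapDomain_single]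
        abel
    rw [e1, q3, List.map_append, List.sum_append]
    congr 1
    clear e1 h q1 q2 q3 hqpos hrN hQ
    induction Q with
    | nil => simp
    | cons q Q ih =>
      simp only [List.map_cons, List.sum_cons, map_add]
      rw [ih]
      congr 1
      split_ifs
      · exact map_rl μ q.1
      · rw [map_neg, map_rl, Sm_iv]
  · have e1 : ((Λ.map (cp μ)).map List.length).sum = 2 * Λ.length := by
      clear h q1 q2 q3 hqpos hrN hnf bnf hn hN hpos
      induction Λ with
      | nil => simp
      | cons p Λ ih =>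
        simp only [List.map_cons, List.sum_cons, List.length_cons]
        rw [ih]
        unfold cp
        split_ifs <;> simp <;> ring
    have e2 : ((Q.map (fun q => if q.2 then rN μ q.1 else iv (rN μ q.1))).map List.length).sum =
        5 * Q.length := by
      clear h q1 q2 q3 hqpos hrN hQ
      induction Q with
      | nil => simp
      | cons q Q ih =>
        simp only [List.map_cons, List.sum_cons, List.length_cons]
        rw [ih]
        split_ifs <;> simp [rN] <;> ring
    rw [List.map_append, List.sum_append, e1, e2]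
    omega
  · intro p hp
    exact (hn p hp).mono (by omega)
  · intro P hP
    rcases List.mem_append.mp hP with hP | hP
    · obtain ⟨p, hp, rfl⟩ := List.mem_map.mp hP
      have b1 := (hn p hp).mono (show n ≤ n + (M1 + 2 * (2 * n + 17) + 1) by omega)
      have b2 := bnf p hp
      unfold cp
      intro q hq
      split_ifs at hq
      all_goals
        simp only [List.mem_cons, List.not_mem_nil, or_false] at hq
        rcases hq with rfl | rfl
        all_goals assumption
    · obtain ⟨q, hq, rfl⟩ := List.mem_map.mp hP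
      obtain ⟨g1, g2⟩ := hqpos q hq
      have g3 := abs_lt.mp g2
      have b0 := nf_bd hμ q.1 n g1 g2.le
      have b1 := nf_bd hμ (q.1.1, q.1.2 + 1) n g1
        (abs_le.mpr ⟨by simp only; omega, by simp only; omega⟩)
      have b2 := nf_bd hμ (q.1.1, q.1.2 - 1) n g1
        (abs_le.mpr ⟨by simp only; omega, by simp only; omega⟩)
      have b3 : ∀ p ∈ rN μ q.1, Bd p.1 (n + (M1 + 2 * (2 * n + 17) + 1)) := by
        intro p hp
        simp only [rN, List.mem_cons, List.not_mem_nil, or_false] at hp
        rcases hp with rfl | rfl | rfl | rfl | rfl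
        all_goals assumption
      intro p hp
      split_ifs at hp
      · exact b3 p hp
      · exact b3 (p.1, !p.2) (mem_iv hp)

end base

end Pool.Agent.TH95.DI
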