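import Mathlib

set_option autoImplicit false

namespace Pool.Agent.TH95.DI

/-- the relation at a point -/
noncomputable def rl (p : ℤ × ℤ) : ℤ × ℤ →₀ ℤ :=
  Finsupp.single (p.1, p.2 + 1) 1 - Finsupp.single p 3 + Finsupp.single (p.1, p.2 - 1) 1

namespace JobC

theorem comb_apply (q : ℤ × ℤ →₀ ℤ) (k e : ℤ) :
    (q.sum fun p n => n • rl p) (k, e) = q (k, e - 1) - 3 * q (k, e) + q (k, e + 1) := by
  induction q using Finsupp.induction_linear with
  | zero => simp
  | add f g hf hg =>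
    rw [Finsupp.sum_add_index' (by simp) (by intros; rw [add_smul]), Finsupp.add_apply, hf, hg]
    simp only [Finsupp.add_apply]
    ring
  | single p n =>
    obtain ⟨a, b⟩ := p
    rw [Finsupp.sum_single_index (by simp)]
    simp only [rl, Finsupp.smul_apply, Finsupp.add_apply, Finsupp.sub_apply, smul_eq_mul,
      Finsupp.single_apply, Prod.mk.injEq]
    have h1 : (a = k ∧ b + 1 = e) ↔ (a = k ∧ b = e - 1) := by constructor <;> rintro ⟨h, h'⟩ <;> exact ⟨h, by omega⟩
    have h2 : (a = k ∧ b - 1 = e) ↔ (a = k ∧ b = e + 1) := by constructor <;> rintro ⟨h, h'⟩ <;> exact ⟨h, by omega⟩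
    simp only [h1, h2]
    split_ifs <;> ring

theorem sum_shift_le (q : ℤ × ℤ →₀ ℤ) (T : Finset (ℤ × ℤ)) (φ : ℤ × ℤ → ℤ × ℤ)
    (hφ : Function.Injective φ) :
    ∑ x ∈ T, |q (φ x)| ≤ ∑ x ∈ q.support, |q x| := by
  classical
  have h1 : ∑ x ∈ T, |q (φ x)| = ∑ y ∈ T.image φ, |q y| := by
    rw [Finset.sum_image (fun a _ b _ h => hφ h)]
  rw [h1]
  have h2 : ∑ y ∈ T.image φ, |q y| = ∑ y ∈ (T.image φ).filter (fun y => y ∈ q.support), |q y| := by
    symm
    apply Finset.sum_subset (Finset.filter_subset _ _)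
    intro x hx hx'
    have : x ∉ q.support := fun h => hx' (Finset.mem_filter.2 ⟨hx, h⟩)
    rw [Finsupp.notMem_support_iff.1 this, abs_zero]
  rw [h2]
  apply Finset.sum_le_sum_of_subset_of_nonneg
  · intro x hx
    exact (Finset.mem_filter.1 hx).2
  · intro i _ _
    exact abs_nonneg _

theorem l1_bound (q s : ℤ × ℤ →₀ ℤ)
    (h : ∀ k e, s (k, e) = q (k, e - 1) - 3 * q (k, e) + q (k, e + 1)) :
    ∑ x ∈ q.support, |q x| ≤ ∑ x ∈ s.support, |s x| := by
  have h1 : ∀ x ∈ q.support, 3 * |q x| ≤ |q (x.1, x.2 - 1)| + |q (x.1, x.2 + 1)| + |s x| := by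
    rintro ⟨k, e⟩ _
    have := h k e
    have h3 : 3 * |q (k, e)| = |3 * q (k, e)| := by rw [abs_mul]; simp
    have h4 : 3 * q (k, e) = q (k, e - 1) + q (k, e + 1) + -s (k, e) := by rw [this]; ring
    rw [h3, h4]
    refine (abs_add_le _ _).trans ?_
    rw [abs_neg]
    have := abs_add_le (q (k, e - 1)) (q (k, e + 1))
    simp only
    linarith
  have h2 := Finset.sum_le_sum h1
  rw [← Finset.mul_sum, Finset.sum_add_distrib, Finset.sum_add_distrib] at h2
  have h3 := sum_shift_le q q.support (fun x => (x.1, x.2 - 1)) (by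
    rintro ⟨a, b⟩ ⟨c, d⟩ h; simp only [Prod.mk.injEq] at h ⊢; omega)
  have h4 := sum_shift_le q q.support (fun x => (x.1, x.2 + 1)) (by
    rintro ⟨a, b⟩ ⟨c, d⟩ h; simp only [Prod.mk.injEq] at h ⊢; omega)
  have h5 := sum_shift_le s q.support id Function.injective_id
  simp only [id] at h5
  linarith

theorem exists_top (q s : ℤ × ℤ →₀ ℤ)
    (h : ∀ k e, s (k, e) = q (k, e - 1) - 3 * q (k, e) + q (k, e + 1)) {k e : ℤ}
    (hq : q (k, e) ≠ 0) : ∃ e2 : ℤ, (k, e2) ∈ s.support ∧ e < e2 := by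
  classical
  set A : Finset ℤ := (q.support.filter (fun p => p.1 = k)).image Prod.snd with hA
  have memA : ∀ x, x ∈ A ↔ q (k, x) ≠ 0 := by
    intro x
    rw [hA, Finset.mem_image]
    constructor
    · rintro ⟨⟨a, b⟩, hab, rfl⟩
      obtain ⟨h1, h2⟩ := Finset.mem_filter.1 hab
      simp only at h2
      subst h2
      exact Finsupp.mem_support_iff.1 h1
    · intro hx
      exact ⟨(k, x), Finset.mem_filter.2 ⟨Finsupp.mem_support_iff.2 hx, rfl⟩, rfl⟩
  have hne : A.Nonempty := ⟨e, (memA e).2 hq⟩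
  have hmax := A.max'_mem hne
  set m := A.max' hne with hm
  have hle : e ≤ m := A.le_max' e ((memA e).2 hq)
  have hz : ∀ x, m < x → q (k, x) = 0 := by
    intro x hx
    by_contra hc
    exact absurd (A.le_max' x ((memA x).2 hc)) (by omega)
  refine ⟨m + 1, Finsupp.mem_support_iff.2 ?_, by omega⟩
  rw [h, hz (m + 1) (by omega), hz (m + 1 + 1) (by omega)]
  have : m + 1 - 1 = m := by ring
  rw [this]
  simpa using (memA m).1 hmax

theorem exists_bot (q s : ℤ × ℤ →₀ ℤ)
    (h : ∀ k e, s (k, e) = q (k, e - 1) - 3 * q (k, e) + q (k, e + 1)) {k e : ℤ}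
    (hq : q (k, e) ≠ 0) : ∃ e1 : ℤ, (k, e1) ∈ s.support ∧ e1 < e := by
  classical
  set A : Finset ℤ := (q.support.filter (fun p => p.1 = k)).image Prod.snd with hA
  have memA : ∀ x, x ∈ A ↔ q (k, x) ≠ 0 := by
    intro x
    rw [hA, Finset.mem_image]
    constructor
    · rintro ⟨⟨a, b⟩, hab, rfl⟩
      obtain ⟨h1, h2⟩ := Finset.mem_filter.1 hab
      simp only at h2
      subst h2
      exact Finsupp.mem_support_iff.1 h1
    · intro hx
      exact ⟨(k, x), Finset.mem_filter.2 ⟨Finsupp.mem_support_iff.2 hx, rfl⟩, rfl⟩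
  have hne : A.Nonempty := ⟨e, (memA e).2 hq⟩
  have hmin := A.min'_mem hne
  set m := A.min' hne with hm
  have hle : m ≤ e := A.min'_le e ((memA e).2 hq)
  have hz : ∀ x, x < m → q (k, x) = 0 := by
    intro x hx
    by_contra hc
    exact absurd (A.min'_le x ((memA x).2 hc)) (by omega)
  refine ⟨m - 1, Finsupp.mem_support_iff.2 ?_, by omega⟩
  rw [h, hz (m - 1) (by omega), hz (m - 1 - 1) (by omega)]
  have : m - 1 + 1 = m := by ring
  rw [this]
  simpa using (memA m).1 hmin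

theorem exists_comb (s : ℤ × ℤ →₀ ℤ) (hs : s ∈ AddSubgroup.closure (Set.range rl)) :
    ∃ q : ℤ × ℤ →₀ ℤ, s = q.sum fun p n => n • rl p := by
  induction hs using AddSubgroup.closure_induction with
  | mem x hx =>
    obtain ⟨p, rfl⟩ := hx
    exact ⟨Finsupp.single p 1, by rw [Finsupp.sum_single_index (by simp)]; simp⟩
  | zero => exact ⟨0, by simp⟩
  | add x y _ _ hx hy =>
    obtain ⟨q, rfl⟩ := hx
    obtain ⟨q', rfl⟩ := hy
    exact ⟨q + q', by rw [Finsupp.sum_add_index' (by simp) (by intros; rw [add_smul])]⟩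
  | neg x _ hx =>
    obtain ⟨q, rfl⟩ := hx
    refine ⟨-q, ?_⟩
    rw [Finsupp.sum_neg_index (by simp)]
    simp only [neg_smul, Finsupp.sum_neg]

/-- the list of terms -/
noncomputable def lst (q : ℤ × ℤ →₀ ℤ) : List ((ℤ × ℤ) × Bool) :=
  q.support.toList.flatMap fun p => List.replicate (q p).natAbs (p, decide (0 ≤ q p))

theorem lst_length (q : ℤ × ℤ →₀ ℤ) : ((lst q).length : ℤ) = ∑ x ∈ q.support, |q x| := by
  rw [lst, List.length_flatMap]
  have : (List.map (fun p => (List.replicate (q p).natAbs (p, decide (0 ≤ q p))).length)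
      q.support.toList).sum = ∑ x ∈ q.support, (q x).natAbs := by
    simp only [List.length_replicate]
    rw [Finset.sum_map_toList]
  rw [this]
  push_cast
  simp

theorem lst_mem (q : ℤ × ℤ →₀ ℤ) {p : (ℤ × ℤ) × Bool} (hp : p ∈ lst q) : q p.1 ≠ 0 := by
  rw [lst, List.mem_flatMap] at hp
  obtain ⟨x, hx, hp⟩ := hp
  rw [List.mem_replicate] at hp
  rw [hp.2]
  exact Finsupp.mem_support_iff.1 (Finset.mem_toList.1 hx)

theorem sum_flatMap {α M : Type*} [AddMonoid M] (l : List α) (f : α → List M) :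
    (l.flatMap f).sum = (l.map fun a => (f a).sum).sum := by
  induction l with
  | nil => simp
  | cons a l ih => rw [List.flatMap_cons, List.sum_append, ih]; simp

theorem lst_sum (q : ℤ × ℤ →₀ ℤ) :
    ((lst q).map (fun p => if p.2 then rl p.1 else - rl p.1)).sum = q.sum fun p n => n • rl p := by
  rw [lst, List.map_flatMap, sum_flatMap]
  rw [Finset.sum_map_toList]
  rw [Finsupp.sum]
  apply Finset.sum_congr rfl
  intro x _
  rw [List.map_replicate, List.sum_replicate]
  by_cases h : 0 ≤ q x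
  · simp only [h, decide_true, if_true]
    rw [← natCast_zsmul]
    congr 1
    omega
  · simp only [h, decide_false]
    rw [← natCast_zsmul]
    simp only [Bool.false_eq_true, if_false, smul_neg]
    rw [← neg_smul]
    congr 1
    omega

end JobC

open JobC in
theorem exists_quot (s : ℤ × ℤ →₀ ℤ) (hs : s ∈ AddSubgroup.closure (Set.range rl)) :
    ∃ Q : List ((ℤ × ℤ) × Bool),
      (Q.length : ℤ) ≤ s.sum (fun _ n => |n|) ∧
      (∀ p ∈ Q, ∃ e1 e2 : ℤ, (p.1.1, e1) ∈ s.support ∧ (p.1.1, e2) ∈ s.support ∧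
        e1 < p.1.2 ∧ p.1.2 < e2) ∧
      s = (Q.map (fun p => if p.2 then rl p.1 else - rl p.1)).sum := by
  obtain ⟨q, hq⟩ := exists_comb s hs
  have h : ∀ k e, s (k, e) = q (k, e - 1) - 3 * q (k, e) + q (k, e + 1) := by
    intro k e
    rw [hq]
    exact comb_apply q k e
  refine ⟨lst q, ?_, ?_, ?_⟩
  · rw [lst_length]
    exact l1_bound q s h
  · intro p hp
    have hne := lst_mem q hp
    obtain ⟨e2, h2, h3⟩ := exists_top q s h (k := p.1.1) (e := p.1.2) hne
    obtain ⟨e1, h4, h5⟩ := exists_bot q s h (k := p.1.1) (e := p.1.2) hne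
    exact ⟨e1, e2, h4, h2, h5, h3⟩
  · rw [lst_sum, ← hq]

end Pool.Agent.TH95.DI
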