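import Pool.Agent.TH95.DI.Rel

/-!
The base facts of the presentation with bounded radius.
-/

set_option autoImplicit false
set_option linter.unusedSectionVars false
noncomputable section

namespace Pool.Agent.TH95.DI

namespace JobF

theorem finBt : Finite (Bt Lq) := by
  have : Function.Surjective (fun z : (Lq × Bool) ⊕ Fin 3 => match z with
    | Sum.inl x => (Bt.b x : Bt Lq)
    | Sum.inr i => if i = 0 then Bt.e else if i = 1 then Bt.f else Bt.g) := by
    rintro (x | _ | _ | _)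
    · exact ⟨Sum.inl x, rfl⟩
    · exact ⟨Sum.inr 0, rfl⟩
    · exact ⟨Sum.inr 1, rfl⟩
    · exact ⟨Sum.inr 2, rfl⟩
  exact Finite.of_surjective _ this

theorem finCi : Finite (Ci Lq Kq) := by
  have := finBt
  have : Function.Surjective (fun z : ((Lq × Bool) × Bt Lq) ⊕ Kq => match z with
    | Sum.inl x => (Ci.cj x.1 x.2 : Ci Lq Kq)
    | Sum.inr k => Ci.rel k) := by
    rintro (⟨x, β⟩ | k)
    · exact ⟨Sum.inl (x, β), rfl⟩
    · exact ⟨Sum.inr k, rfl⟩
  exact Finite.of_surjective _ this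

theorem finVt : Finite (Vt Lq Kq) := by
  have := finCi
  have : Function.Surjective (fun z : Ci Lq Kq ⊕ (Ci Lq Kq × (Lq × Bool)) ⊕ (Ci Lq Kq × Fin 7) =>
    match z with
    | Sum.inl l => (Vt.c l : Vt Lq Kq)
    | Sum.inr (Sum.inl p) => Vt.d p.1 p.2
    | Sum.inr (Sum.inr p) => Vt.w p.1 p.2) := by
    rintro (l | ⟨l, x⟩ | ⟨l, i⟩)
    · exact ⟨Sum.inl l, rfl⟩
    · exact ⟨Sum.inr (Sum.inl (l, x)), rfl⟩
    · exact ⟨Sum.inr (Sum.inr (l, i)), rfl⟩
  exact Finite.of_surjective _ this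

theorem unif {ι : Type} [Finite ι] (p : ι → ℕ → Prop) (hm : ∀ i m n, m ≤ n → p i m → p i n)
    (h : ∀ i, ∃ n, p i n) : ∃ n, ∀ i, p i n := by
  have := Fintype.ofFinite ι
  choose f hf using h
  refine ⟨∑ i, f i, fun i => hm i _ _ ?_ (hf i)⟩
  exact Finset.single_le_sum (fun _ _ => Nat.zero_le _) (Finset.mem_univ i)

theorem KR_of_one {x : FreeGroup LT} (h : mkP rq Uq x = 1) : ∃ r, x ∈ KR RR r :=
  exists_KR ((QuotientGroup.eq_one_iff x).mp h)

theorem exists_W {p : PP rq Uq} (hp : p ∈ NN rq Uq) :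
    ∃ W : FreeGroup NB, p = mkP rq Uq (iq W) := by
  unfold NN at hp
  induction hp using Subgroup.closure_induction with
  | mem y hy =>
    rcases hy with ⟨β, rfl⟩ | ⟨l, rfl⟩
    · exact ⟨FreeGroup.of (Sum.inl β), by rw [iq_inl]⟩
    · exact ⟨FreeGroup.of (Sum.inr l), by rw [iq_inr]⟩
  | one => exact ⟨1, by simp⟩
  | mul a b _ _ ha hb =>
    obtain ⟨u, rfl⟩ := ha
    obtain ⟨v, rfl⟩ := hb
    exact ⟨u * v, by simp⟩
  | inv a _ ha =>
    obtain ⟨u, rfl⟩ := ha
    exact ⟨u⁻¹, by simp⟩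

/-- the words congruent to elements of `N`, with a bound -/
def MN (x : FreeGroup LT) (D : ℕ) : Prop :=
  ∃ W : FreeGroup NB, Bd W D ∧ x * (iq W)⁻¹ ∈ KR RR D

theorem MN.mono {x : FreeGroup LT} {m n : ℕ} (hmn : m ≤ n) (h : MN x m) : MN x n := by
  obtain ⟨W, h1, h2⟩ := h
  exact ⟨W, h1.mono hmn, KR_mono hmn h2⟩

theorem mod_N {x : FreeGroup LT} (hx : mkP rq Uq x ∈ NN rq Uq) : ∃ D, MN x D := by
  obtain ⟨W, hW⟩ := exists_W hx
  obtain ⟨n, hn⟩ := exists_bd W
  have h1 : mkP rq Uq (x * (iq W)⁻¹) = 1 := by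
    rw [map_mul, map_inv, ← hW, mul_inv_cancel]
  obtain ⟨r, hr⟩ := KR_of_one h1
  exact ⟨n + r, W, hn.mono (by omega), KR_mono (by omega) hr⟩

theorem mem_rel {ρ : FreeGroup LT} (h : RelT rq ρ) : ρ ∈ KR RR 0 := KR_rel (Or.inl h)

theorem mem_U {u : Seq Lq Kq} (h : Uq u) : zhat u ∈ KR RR 0 := KR_rel (Or.inr ⟨u, h, rfl⟩)

theorem zhat_zs (u : FL) : zhat (zs u) = U hq zq u := by
  unfold zhat zs U zq
  rw [zP_of]

theorem iota_mem (β : NB) : mkP rq Uq (iq (FreeGroup.of β)) ∈ NN rq Uq := by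
  rcases β with β | l
  · rw [iq_inl]
    exact NN_b Uq β
  · rw [iq_inr]
    exact NN_c Uq l

theorem comm0 (β : NB) : Cm RR 0 zq (iq (FreeGroup.of β)) := by
  unfold Cm
  rcases β with β | l
  · rw [iq_inl]
    have := mem_rel (RelT.zb (r := rq) Kq.k0 β)
    convert this using 1
    unfold zq
    group
  · rw [iq_inr]
    have := mem_rel (RelT.zc (r := rq) Kq.k0 l)
    convert this using 1
    unfold zq
    group

theorem conj0 (p : (Lq × Bool) × NB) : ∃ D, MN ((hq (FreeGroup.mk [p.1]))⁻¹ *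
    iq (FreeGroup.of p.2) * hq (FreeGroup.mk [p.1])) D := by
  apply mod_N
  have hN := NN_normal (r := rq) Uq
  have := hN.conj_mem _ (iota_mem p.2) (mkP rq Uq (hq (FreeGroup.mk [p.1])))⁻¹
  simpa [mul_assoc] using this

theorem rW0 : rW rq Kq.k0 = 1 := FreeGroup.one_eq_mk.symm

theorem zN0 : ∃ D, MN zq D := by
  apply mod_N
  have h := mod_of (r := rq) Uq rq_len (Sum.inr (Sum.inr Kq.k0))
  have h1 : pF rq (FreeGroup.of (Sum.inr (Sum.inr Kq.k0))) = 1 := by
    have := pF_z (K := Kq) rq Kq.k0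
    rw [rW0] at this
    exact this
  rw [h1, map_one, inv_one, one_mul] at h
  exact h

theorem rW_mem (k : Kq) (hk : Uq (FreeGroup.of (1, k))) :
    mkP rq Uq (hq (rW rq k)) ∈ NN rq Uq := by
  have h := mod_of (r := rq) Uq rq_len (Sum.inr (Sum.inr k))
  have h1 : pF rq (FreeGroup.of (Sum.inr (Sum.inr k))) = rW rq k := pF_z (K := Kq) rq k
  have h2 : mkP rq Uq (FreeGroup.of (Sum.inr (Sum.inr k))) = 1 := by
    have h3 := mkP_U (r := rq) Uq hk
    have h4 : zhat (FreeGroup.of ((1 : FreeGroup Lq), k)) =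
        (FreeGroup.of (Sum.inr (Sum.inr k)) : FreeGroup LT) := by
      unfold zhat
      rw [zP_of]
      simp [lz]
    rw [h4] at h3
    exact h3
  rw [h1, h2, mul_one] at h
  have := Subgroup.inv_mem _ h
  rw [inv_inv] at this
  exact this

theorem rW1 : rW rq Kq.k1 = et * eh * et⁻¹ * (eh * ea)⁻¹ := by
  simp [rW, rq, et, eh, ea, FreeGroup.of, FreeGroup.invRev]

theorem rW2 : rW rq Kq.k2 = et * ea * et⁻¹ * (eh * ea * ea)⁻¹ := by
  simp [rW, rq, et, eh, ea, FreeGroup.of, FreeGroup.invRev]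

theorem mod0 (a : LT × Bool) : ∃ D, MN ((hq (pF rq (FreeGroup.mk [a])))⁻¹ * FreeGroup.mk [a]) D := by
  apply mod_N
  have h := mod_all (r := rq) Uq rq_len (FreeGroup.mk [a])
  rw [map_mul, map_inv]
  exact h

end JobF

open JobF

theorem exists_baseT : ∃ D : ℕ, BaseT RR hq iq zq D := by
  have := finBt
  have := finCi
  obtain ⟨D1, h1⟩ := unif (ι := (Lq × Bool) × NB) _
    (fun i m n hmn h => MN.mono (x := (hq (FreeGroup.mk [i.1]))⁻¹ *
      iq (FreeGroup.of i.2) * hq (FreeGroup.mk [i.1])) hmn h) conj0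
  obtain ⟨D2, h2⟩ := zN0
  obtain ⟨D3, h3⟩ := mod_N (rW_mem Kq.k1 Uq.k1)
  obtain ⟨D4, h4⟩ := mod_N (rW_mem Kq.k2 Uq.k2)
  rw [rW1] at h3
  rw [rW2] at h4
  refine ⟨D1 + D2 + D3 + D4, ?_⟩
  exact
    { hat_len := fun u n hu => hu.map _
      ι_len := fun u n hu => hu.map _
      z_len := Bd.of _
      comm := fun β => (comm0 β).mono (Nat.zero_le _)
      conj := fun x β => (h1 (x, β)).mono (by omega)
      zN := h2.mono (by omega)
      R1 := by
        have := mem_U Uq.s1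
        simpa [zhat_zs, Us, mul_assoc] using this
      R2 := by
        have := mem_U Uq.s2
        simpa [zhat_zs, Us, mul_assoc] using this
      R3 := by
        have := mem_U Uq.s3
        simpa [zhat_zs, Us, mul_assoc] using this
      Q1 := h3.mono (by omega)
      Q2 := h4.mono (by omega) }

theorem exists_mod : ∃ D : ℕ, ∀ a : LT × Bool, ∃ W : FreeGroup NB, Bd W D ∧
    (hq (pF rq (FreeGroup.mk [a])))⁻¹ * FreeGroup.mk [a] * (iq W)⁻¹ ∈ KR RR D := by
  have := finBt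
  have := finVt
  exact unif (ι := LT × Bool) _
    (fun a m n hmn h => MN.mono (x := (hq (pF rq (FreeGroup.mk [a])))⁻¹ * FreeGroup.mk [a])
      hmn h) mod0

end Pool.Agent.TH95.DI
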