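import Pool.Agent.TH95.DI.Rel

/-!
Normal forms of positions.
-/

set_option autoImplicit false

set_option linter.unusedSectionVars false

noncomputable section

namespace Pool.Agent.TH95.DI

variable {α : Type} {R : Set (FreeGroup α)} {B : Type}

/-- families of short words with given number -/
def Num (R : Set (FreeGroup α)) (hat : FL →* FreeGroup α) (z : FreeGroup α) (D : ℕ) (H : ℤ)
    (m k : ℕ) (μ : ℤ → FL) : Prop :=
  μ 0 = 1 ∧ (∀ e, -H ≤ e → e ≤ H → Bd (μ e) m) ∧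
  ∀ e, -H ≤ e → e < H → ∀ (c : FL) (n : ℕ), Bd c n →
    VE R hat z (kp D * (n + k)) (c * μ (e + 1)) (c * μ e * ea)

theorem Gz_neg (n : ℕ) : Gz (-n) = - Gz n ∧ Gz (-(n + 1)) = - Gz (n + 1) := by
  induction n with
  | zero =>
    have h := Gz_rec (-1)
    norm_num at h
    simp
    linarith
  | succ n ih =>
    have h1 := Gz_rec n
    have h2 := Gz_rec (-((n : ℤ) + 2))
    rw [show -((n : ℤ) + 2) + 2 = -n by ring, show -((n : ℤ) + 2) + 1 = -(n + 1) by ring] at h2
    push_cast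
    refine ⟨ih.2, ?_⟩
    rw [show (n : ℤ) + 1 + 1 = n + 2 by ring]
    rw [ih.1, ih.2] at h2
    linarith

theorem abs_Gz (j : ℤ) (w : ℕ) (h : j.natAbs ≤ w) : |Gz j| ≤ 4 ^ w := by
  have up : ∀ n : ℕ, 0 ≤ Gz n ∧ Gz n ≤ 4 ^ n := by
    intro n
    refine ⟨(Gz_nat n).1, ?_⟩
    induction n with
    | zero => simp
    | succ n ih =>
      have h1 := (Gz_nat n).2.2.2
      have h5 : (4 : ℤ) ^ (n + 1) = 4 * 4 ^ n := by ring
      have h6 : (1 : ℤ) ≤ 4 ^ n := one_le_pow₀ (by norm_num)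
      push_cast
      rw [h5]
      linarith
  have h7 : ∀ n : ℕ, n ≤ w → (4 : ℤ) ^ n ≤ 4 ^ w := fun n hn =>
    pow_le_pow_right₀ (by norm_num) hn
  obtain ⟨n, rfl | rfl⟩ := j.eq_nat_or_neg
  · rw [abs_of_nonneg (up n).1]
    exact (up n).2.trans (h7 n (by simpa using h))
  · rw [(Gz_neg n).1, abs_neg, abs_of_nonneg (up n).1]
    exact (up n).2.trans (h7 n (by simpa using h))

theorem two_pow_le_Gz (n : ℕ) : 2 ^ n ≤ Gz (n + 1) := by
  induction n with
  | zero => simp
  | succ n ih =>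
    have := (Gz_nat (n + 1)).2.2.1
    push_cast at this ⊢
    rw [pow_succ]
    linarith

section base

variable {hat : FL →* FreeGroup α} {ι : FreeGroup B →* FreeGroup α} {z : FreeGroup α} {D : ℕ}
  (hb : BaseT R hat ι z D)

include hb

theorem exists_num (L : ℕ) : ∃ μ, Num R hat z D (Gz L) (mL L + 2 * L + 1) (mR L + 2 * L + 1) μ := by
  obtain ⟨ν, a1, a2, a3, a4⟩ := exists_pth hb L
  have hf : Bd (fb (L : ℤ)) (2 * L + 1) := (bd_fb _).mono (by omega)
  have hG := (Gz_nat L).1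
  set G := Gz L
  set F := fb (L : ℤ)
  let μ : ℤ → FL := fun e => if e < 0 then F⁻¹ * ν (e + G) else ν e
  have m1 : ∀ e, e < 0 → μ e = F⁻¹ * ν (e + G) := fun e h => if_pos h
  have m2 : ∀ e, 0 ≤ e → μ e = ν e := fun e h => if_neg (by omega)
  refine ⟨μ, ?_, ?_, ?_⟩
  · rw [m2 0 le_rfl, a1]
  · intro e h1 h2
    rcases lt_or_ge e 0 with h | h
    · rw [m1 e h]
      exact (hf.inv.mul (a2 _ (by omega) (by omega))).mono (by omega)
    · rw [m2 e h]
      exact (a2 e h h2).mono (by omega)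
  · intro e h1 h2 c n hc
    have hc' := hc.mul hf.inv
    rcases lt_or_ge e 0 with h | h
    · rw [m1 e h]
      have h3 := a3 (e + G) (by omega) (by omega) (c * F⁻¹) _ hc'
      rcases lt_or_ge (e + 1) 0 with h4 | h4
      · rw [m1 _ h4]
        rw [show e + G + 1 = e + 1 + G by ring] at h3
        simp only [mul_assoc] at h3 ⊢
        exact mono_kp hb h3 (by omega)
      · have h5 : e + 1 = 0 := by omega
        rw [h5, m2 0 le_rfl, a1, mul_one]
        rw [show e + G + 1 = G by omega] at h3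
        have h6 := a4 (c * F⁻¹) _ hc'
        rw [inv_mul_cancel_right] at h6
        have h7 := h6.symm.trans h3
        simp only [mul_assoc] at h7 ⊢
        exact mono_kp hb h7 (by omega)
    · rw [m2 e h, m2 _ (by omega)]
      exact mono_kp hb (a3 e h h2 c n hc) (by omega)

end base

section num

variable {hat : FL →* FreeGroup α} {ι : FreeGroup B →* FreeGroup α} {z : FreeGroup α} {D : ℕ}
  (hb : BaseT R hat ι z D) {H : ℤ} {m k : ℕ} {μ : ℤ → FL} (hμ : Num R hat z D H m k μ)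

include hb hμ

theorem num_a (e : ℤ) (h1 : -H ≤ e) (h2 : e < H) :
    VE R hat z (kp D * (m + k + 6)) (ea * μ e) (μ (e + 1)) := by
  obtain ⟨a1, a2, a3⟩ := hμ
  refine rigid hb (n := m + 1) (P := fun e => ea * μ e) (P' := fun e => μ (e + 1)) (lo := -H)
    (hi := H - 1) ?_ ?_ ?_ ?_ (Nat.mul_le_mul_left _ (by omega)) (e0 := 0) (by omega) (by omega) ?_
    e h1 (by omega)
  · intro e h3 h4
    exact (bd_ea.mul (a2 e h3 (by omega))).mono (by omega)
  · intro e h3 h4
    exact (a2 (e + 1) (by omega) (by omega)).mono (by omega)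
  · intro e h3 h4
    exact mono_kp hb (a3 e h3 (by omega) ea 1 bd_ea) (by omega)
  · intro e h3 h4
    have := a3 (e + 1) (by omega) (by omega) 1 0 Bd.one
    rw [one_mul, one_mul] at this
    exact mono_kp hb this (by omega)
  · have := a3 0 (by omega) (by omega) 1 0 Bd.one
    rw [one_mul, one_mul, a1, one_mul] at this
    simp only [a1, mul_one]
    exact mono_kp hb this.symm (by omega)

theorem num_h (e : ℤ) (h1 : -H ≤ e) (h2 : e ≤ H) :
    VE R hat z (kp D * (m + k + 6)) (eh * μ e) (μ e) := by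
  obtain ⟨a1, a2, a3⟩ := hμ
  refine rigid hb (n := m + 1) (P := fun e => eh * μ e) (P' := fun e => μ e) (lo := -H)
    (hi := H) ?_ ?_ ?_ ?_ (Nat.mul_le_mul_left _ (by omega)) (e0 := 0) (by omega) (by omega) ?_
    e h1 (by omega)
  · intro e h3 h4
    exact (bd_eh.mul (a2 e h3 (by omega))).mono (by omega)
  · intro e h3 h4
    exact (a2 e (by omega) (by omega)).mono (by omega)
  · intro e h3 h4
    exact mono_kp hb (a3 e h3 (by omega) eh 1 bd_eh) (by omega)
  · intro e h3 h4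
    have := a3 e (by omega) (by omega) 1 0 Bd.one
    rw [one_mul, one_mul] at this
    exact mono_kp hb this (by omega)
  · simp only [a1, mul_one]
    have := VE.h hb (c := 1) Bd.one
    rw [one_mul] at this
    exact this.mono (by omega)

/-- the statement about the blocks -/
def PB (R : Set (FreeGroup α)) (hat : FL →* FreeGroup α) (z : FreeGroup α) (D : ℕ) (H : ℤ)
    (K : ℕ) (μ : ℤ → FL) (j : ℤ) (w : ℕ) : Prop :=
  ∀ e, |e| + 2 * 4 ^ w ≤ H → VE R hat z (kp D * (K + 30 * (w + 1) ^ 2)) (fb j * μ e) (μ (e + Gz j))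

omit hμ in
theorem PB.mono {K : ℕ} {j : ℤ} {w w' : ℕ} (h : PB R hat z D H K μ j w) (hw : w ≤ w') :
    PB R hat z D H K μ j w' := by
  intro e he
  have h7 : (4 : ℤ) ^ w ≤ 4 ^ w' := pow_le_pow_right₀ (by norm_num) hw
  refine mono_kp hb (h e (by linarith)) ?_
  have : 30 * (w + 1) ^ 2 ≤ 30 * (w' + 1) ^ 2 :=
    Nat.mul_le_mul_left _ (Nat.pow_le_pow_left (by omega) 2)
  omega

/-- the action of the inverse of a block -/
theorem PB.inv {K : ℕ} {j : ℤ} {w : ℕ} (hj : j.natAbs ≤ w) (h : PB R hat z D H K μ j w) (e : ℤ)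
    (he : |e| + 3 * 4 ^ w ≤ H) :
    VE R hat z (kp D * (K + 30 * (w + 1) ^ 2) + (2 * w + 1)) ((fb j)⁻¹ * μ e) (μ (e - Gz j)) := by
  have h1 := abs_Gz j w hj
  have h2 : |e - Gz j| ≤ |e| + |Gz j| := abs_sub _ _
  have h3 := h (e - Gz j) (by linarith)
  rw [sub_add_cancel] at h3
  have h4 := VE.left hb h3 ((bd_fb j).inv.mono (show 2 * j.natAbs + 1 ≤ 2 * w + 1 by omega))
  rw [inv_mul_cancel_left] at h4
  exact h4.symm

theorem PB.up {K : ℕ} (hK : m + 40 ≤ K) {j : ℤ} {w : ℕ} (hj0 : j.natAbs ≤ w)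
    (hj1 : (j + 1).natAbs ≤ w) (h0 : PB R hat z D H K μ j w) (h1 : PB R hat z D H K μ (j + 1) w) :
    PB R hat z D H K μ (j + 2) (w + 1) := by
  intro e he
  have p4 : (0 : ℤ) < 4 ^ w := by positivity
  have p5 : (4 : ℤ) ^ (w + 1) = 4 * 4 ^ w := by ring
  rw [p5] at he
  have g0 := abs_Gz j w hj0
  have g1 := abs_Gz (j + 1) w hj1
  have g0' := abs_le.mp g0
  have g1' := abs_le.mp g1
  have ge := abs_le.mp (le_refl |e|)
  have b0 : Bd (fb j) (2 * w + 1) := (bd_fb j).mono (by omega)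
  have b1 : Bd (fb (j + 1)) (2 * w + 1) := (bd_fb (j + 1)).mono (by omega)
  have hB : Bd (μ e) m := hμ.2.1 e (by linarith [ge.1]) (by linarith [ge.2])
  have s0 := (qe_fb hb j).ve Bd.one hB
  rw [one_mul, one_mul] at s0
  set F0 := fb j
  set F1 := fb (j + 1)
  have hr : 30 * (w + 1) ^ 2 + 6 * w + 50 ≤ 30 * (w + 1 + 1) ^ 2 := by nlinarith
  have hkp : ∀ n : ℕ, n ≤ kp D * n := le_kp hb
  have mono : ∀ {r : ℕ} {c c' : FL}, VE R hat z r c c' →
      r ≤ kp D * (K + 30 * (w + 1) ^ 2) + (6 * w + 9) →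
      VE R hat z (kp D * (K + 30 * (w + 1 + 1) ^ 2)) c c' := by
    intro r c c' h h'
    refine h.mono (h'.trans ?_)
    have h8 := hkp (6 * w + 9)
    calc kp D * (K + 30 * (w + 1) ^ 2) + (6 * w + 9)
        ≤ kp D * (K + 30 * (w + 1) ^ 2) + kp D * (6 * w + 9) := by omega
      _ = kp D * (K + 30 * (w + 1) ^ 2 + (6 * w + 9)) := by ring
      _ ≤ _ := Nat.mul_le_mul_left _ (by omega)
  have s1 := h1 e (by linarith)
  have a1 : |e + Gz (j + 1)| ≤ |e| + 4 ^ w := (abs_add_le _ _).trans (by linarith)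
  have s2 := PB.inv hb hμ hj0 h0 (e + Gz (j + 1)) (by linarith)
  have a2 : |e + Gz (j + 1) - Gz j| ≤ |e| + 2 * 4 ^ w := (abs_sub _ _).trans (by linarith)
  have s3 := h1 (e + Gz (j + 1) - Gz j) (by linarith)
  have a3 : |e + Gz (j + 1) - Gz j + Gz (j + 1)| ≤ |e| + 3 * 4 ^ w :=
    (abs_add_le _ _).trans (by linarith)
  have s4 := h1 (e + Gz (j + 1) - Gz j + Gz (j + 1)) (by linarith)
  have t1 := VE.left hb s1 ((b1.mul b1).mul b0.inv)
  have t2 := VE.left hb s2 (b1.mul b1)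
  have t3 := VE.left hb s3 b1
  have e1 : e + Gz (j + 1) - Gz j + Gz (j + 1) + Gz (j + 1) = e + Gz (j + 2) := by
    rw [Gz_rec]
    ring
  rw [e1] at s4
  simp only [mul_assoc] at s0 t1 t2 t3 s4
  exact (((mono_kp hb s0 (by omega)).trans (mono t1 (by omega))).trans (mono t2 (by omega))).trans
    ((mono t3 (by omega)).trans (mono s4 (by omega)))

omit hμ in
theorem QE.inv {n p q r : ℕ} {s s' : FL} (h : QE R hat z D n s s') (hs : Bd s p) (hs' : Bd s' q)
    (hr : n + p + q ≤ r) : QE R hat z D r s⁻¹ s'⁻¹ := by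
  have := h.ctx (n := r) hs.inv hs'.inv (by omega)
  rw [inv_mul_cancel, one_mul, mul_inv_cancel_right] at this
  exact this.symm

theorem PB.down {K : ℕ} (hK : m + 40 ≤ K) {j : ℤ} {w : ℕ} (hj0 : j.natAbs ≤ w)
    (hj1 : (j + 1).natAbs ≤ w) (hj2 : (j + 2).natAbs ≤ w)
    (h1 : PB R hat z D H K μ (j + 1) w) (h2 : PB R hat z D H K μ (j + 2) w) :
    PB R hat z D H K μ j (w + 1) := by
  intro e he
  have p4 : (0 : ℤ) < 4 ^ w := by positivity
  have p5 : (4 : ℤ) ^ (w + 1) = 4 * 4 ^ w := by ring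
  rw [p5] at he
  have g2 := abs_Gz (j + 2) w hj2
  have g1 := abs_Gz (j + 1) w hj1
  have g2' := abs_le.mp g2
  have g1' := abs_le.mp g1
  have ge := abs_le.mp (le_refl |e|)
  have b0 : Bd (fb j) (2 * w + 1) := (bd_fb j).mono (by omega)
  have b1 : Bd (fb (j + 1)) (2 * w + 1) := (bd_fb (j + 1)).mono (by omega)
  have b2 : Bd (fb (j + 2)) (2 * w + 1) := (bd_fb (j + 2)).mono (by omega)
  have hB : Bd (μ e) m := hμ.2.1 e (by linarith [ge.1]) (by linarith [ge.2])
  have q0 := QE.inv hb (qe_fb hb j) b2 (((b1.mul b1).mul b0.inv).mul b1)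
    (show _ ≤ 12 * w + 30 by omega)
  have q1 := q0.ctx (n := 18 * w + 40) b1 (b1.mul b1) (by omega)
  have s0 := q1.ve Bd.one hB
  have e0 : (1 : FL) * (fb (j + 1) * (fb (j + 1) * fb (j + 1) * (fb j)⁻¹ * fb (j + 1))⁻¹ *
      (fb (j + 1) * fb (j + 1))) * μ e = fb j * μ e := by group
  rw [e0, one_mul] at s0
  set F0 := fb j
  set F1 := fb (j + 1)
  set F2 := fb (j + 2)
  have hr : 30 * (w + 1) ^ 2 + 18 * w + 42 ≤ 30 * (w + 1 + 1) ^ 2 := by nlinarith
  have hkp : ∀ n : ℕ, n ≤ kp D * n := le_kp hb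
  have mono : ∀ {r : ℕ} {c c' : FL}, VE R hat z r c c' →
      r ≤ kp D * (K + 30 * (w + 1) ^ 2) + (6 * w + 9) →
      VE R hat z (kp D * (K + 30 * (w + 1 + 1) ^ 2)) c c' := by
    intro r c c' h h'
    refine h.mono (h'.trans ?_)
    have h8 := hkp (6 * w + 9)
    calc kp D * (K + 30 * (w + 1) ^ 2) + (6 * w + 9)
        ≤ kp D * (K + 30 * (w + 1) ^ 2) + kp D * (6 * w + 9) := by omega
      _ = kp D * (K + 30 * (w + 1) ^ 2 + (6 * w + 9)) := by ring
      _ ≤ _ := Nat.mul_le_mul_left _ (by omega)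
  have s1 := h1 e (by linarith)
  have a1 : |e + Gz (j + 1)| ≤ |e| + 4 ^ w := (abs_add_le _ _).trans (by linarith)
  have s2 := h1 (e + Gz (j + 1)) (by linarith)
  have a2 : |e + Gz (j + 1) + Gz (j + 1)| ≤ |e| + 2 * 4 ^ w :=
    (abs_add_le _ _).trans (by linarith)
  have s3 := PB.inv hb hμ hj2 h2 (e + Gz (j + 1) + Gz (j + 1)) (by linarith)
  have a3 : |e + Gz (j + 1) + Gz (j + 1) - Gz (j + 2)| ≤ |e| + 3 * 4 ^ w :=
    (abs_sub _ _).trans (by linarith)
  have s4 := h1 (e + Gz (j + 1) + Gz (j + 1) - Gz (j + 2)) (by linarith)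
  have t1 := VE.left hb s1 ((b1.mul b2.inv).mul b1)
  have t2 := VE.left hb s2 (b1.mul b2.inv)
  have t3 := VE.left hb s3 b1
  have e1 : e + Gz (j + 1) + Gz (j + 1) - Gz (j + 2) + Gz (j + 1) = e + Gz j := by
    rw [Gz_rec]
    ring
  rw [e1] at s4
  simp only [mul_assoc] at s0 t1 t2 t3 s4
  exact (((mono_kp hb s0.symm (by omega)).trans (mono t1 (by omega))).trans
    (mono t2 (by omega))).trans ((mono t3 (by omega)).trans (mono s4 (by omega)))

theorem PB.all {K : ℕ} (hK : m + k + 40 ≤ K) (j : ℤ) (w : ℕ) (hw : j.natAbs + 2 ≤ w) :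
    PB R hat z D H K μ j w := by
  have base0 : PB R hat z D H K μ 0 0 := by
    intro e he
    rw [fb_zero, Gz_zero, add_zero]
    have ge := abs_le.mp (le_refl |e|)
    exact mono_kp hb (num_h hb hμ e (by linarith [ge.1]) (by linarith [ge.2])) (by omega)
  have base1 : PB R hat z D H K μ 1 0 := by
    intro e he
    have ge := abs_le.mp (le_refl |e|)
    rw [pow_zero] at he
    have hB : Bd (μ e) m := hμ.2.1 e (by linarith [ge.1]) (by linarith [ge.2])
    have h1 := (qe_fb1 hb).ve Bd.one hB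
    rw [one_mul, one_mul] at h1
    have h2 := num_a hb hμ e (by linarith [ge.1]) (by linarith [ge.2])
    have h3 := num_h hb hμ (e + 1) (by linarith [ge.1]) (by linarith [ge.2])
    have h4 := VE.left hb h2 bd_eh
    rw [← mul_assoc] at h4
    rw [Gz_one]
    refine (mono_kp hb h1 (by omega)).trans ((h4.mono ?_).trans (mono_kp hb h3 (by omega)))
    calc kp D * (m + k + 6) + 1 ≤ kp D * (m + k + 6) + kp D * 1 :=
          Nat.add_le_add_left (le_kp hb 1) _
      _ = kp D * (m + k + 7) := by ring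
      _ ≤ _ := Nat.mul_le_mul_left _ (by omega)
  have up : ∀ n : ℕ, PB R hat z D H K μ n (n + 2) ∧ PB R hat z D H K μ (n + 1) (n + 2) := by
    intro n
    induction n with
    | zero => exact ⟨by simpa using base0.mono hb (by omega), by simpa using base1.mono hb (by omega)⟩
    | succ n ih =>
      refine ⟨by push_cast; exact ih.2.mono hb (by omega), ?_⟩
      have := PB.up hb hμ (by omega) (by omega) (by omega) ih.1 ih.2
      push_cast
      rw [show (n : ℤ) + 1 + 1 = n + 2 by ring]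
      exact this.mono hb (by omega)
  have dn : ∀ n : ℕ, PB R hat z D H K μ (-n) (n + 2) ∧ PB R hat z D H K μ (-n + 1) (n + 2) := by
    intro n
    induction n with
    | zero => exact ⟨by simpa using base0.mono hb (by omega), by simpa using base1.mono hb (by omega)⟩
    | succ n ih =>
      have e1 : -((n + 1 : ℕ) : ℤ) + 1 = -n := by push_cast; ring
      have e2 : -((n + 1 : ℕ) : ℤ) + 2 = -n + 1 := by push_cast; ring
      have := PB.down hb hμ (K := K) (j := -((n + 1 : ℕ) : ℤ)) (w := n + 2) (by omega) (by omega)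
        (by omega) (by omega) (by rw [e1]; exact ih.1) (by rw [e2]; exact ih.2)
      refine ⟨this.mono hb (by omega), ?_⟩
      rw [e1]
      exact ih.1.mono hb (by omega)
  obtain ⟨n, rfl | rfl⟩ := j.eq_nat_or_neg
  · exact (up n).1.mono hb (by simpa using hw)
  · exact (dn n).1.mono hb (by simpa using hw)

end num

end Pool.Agent.TH95.DI
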