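import Pool.Agent.TH95.DI.NF

/-!
Normal forms of words.
-/

set_option autoImplicit false

set_option linter.unusedSectionVars false

noncomputable section

namespace Pool.Agent.TH95.DI

variable {α : Type} {R : Set (FreeGroup α)} {B : Type}

/-- the normal form of a position -/
def nf (μ : ℤ → FL) (s : ℤ × ℤ) : FL := et ^ s.1 * μ s.2

@[simp] theorem xiS_h (s : ℤ × ℤ) : xiS Lq.h s = (s.1, s.2 + Gz (-s.1)) := rfl
@[simp] theorem xiS_a (s : ℤ × ℤ) : xiS Lq.a s = (s.1, s.2 + (Gz (1 - s.1) - Gz (-s.1))) := rfl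
@[simp] theorem xiS_t (s : ℤ × ℤ) : xiS Lq.t s = (s.1 + 1, s.2) := rfl

/-- one step changes the position by a bounded amount -/
theorem xiS_bd (x : Lq) (s : ℤ × ℤ) (n : ℕ) (hs : s.1.natAbs ≤ n) :
    (xiS x s).1.natAbs ≤ n + 1 ∧ |(xiS x s).2| ≤ |s.2| + 2 * 4 ^ (n + 1) := by
  have p : (0 : ℤ) < 4 ^ (n + 1) := by positivity
  cases x with
  | a =>
    simp only [xiS_a]
    refine ⟨by omega, ?_⟩
    have h1 := abs_Gz (1 - s.1) (n + 1) (by omega)
    have h2 := abs_Gz (-s.1) (n + 1) (by omega)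
    have h3 := abs_sub (Gz (1 - s.1)) (Gz (-s.1))
    have h4 := abs_add_le s.2 (Gz (1 - s.1) - Gz (-s.1))
    linarith
  | h =>
    simp only [xiS_h]
    refine ⟨by omega, ?_⟩
    have h2 := abs_Gz (-s.1) (n + 1) (by omega)
    have h4 := abs_add_le s.2 (Gz (-s.1))
    linarith
  | t =>
    simp only [xiS_t]
    exact ⟨by omega, by linarith⟩

theorem xiS_inv_bd (x : Lq) (s : ℤ × ℤ) (n : ℕ) (hs : s.1.natAbs ≤ n) :
    ((xiS x)⁻¹ s).1.natAbs ≤ n + 1 ∧ |((xiS x)⁻¹ s).2| ≤ |s.2| + 2 * 4 ^ (n + 1) := by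
  have p : (0 : ℤ) < 4 ^ (n + 1) := by positivity
  cases x with
  | a =>
    have e : (xiS Lq.a)⁻¹ s = (s.1, s.2 - (Gz (1 - s.1) - Gz (-s.1))) := rfl
    simp only [e]
    refine ⟨by omega, ?_⟩
    have h1 := abs_Gz (1 - s.1) (n + 1) (by omega)
    have h2 := abs_Gz (-s.1) (n + 1) (by omega)
    have h3 := abs_sub (Gz (1 - s.1)) (Gz (-s.1))
    have h4 := abs_sub s.2 (Gz (1 - s.1) - Gz (-s.1))
    linarith
  | h =>
    have e : (xiS Lq.h)⁻¹ s = (s.1, s.2 - Gz (-s.1)) := rfl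
    simp only [e]
    refine ⟨by omega, ?_⟩
    have h2 := abs_Gz (-s.1) (n + 1) (by omega)
    have h4 := abs_sub s.2 (Gz (-s.1))
    linarith
  | t =>
    have e : (xiS Lq.t)⁻¹ s = (s.1 - 1, s.2) := rfl
    simp only [e]
    exact ⟨by omega, by linarith⟩

section num

variable {hat : FL →* FreeGroup α} {ι : FreeGroup B →* FreeGroup α} {z : FreeGroup α} {D : ℕ}
  (hb : BaseT R hat ι z D) {H : ℤ} {m k : ℕ} {μ : ℤ → FL} (hμ : Num R hat z D H m k μ)

include hb hμ

/-- the effect of a letter -/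
theorem nf_step {K : ℕ} (hK : m + k + 40 ≤ K) (x : Lq) (s : ℤ × ℤ) (n : ℕ)
    (hs : s.1.natAbs ≤ n) (he : |s.2| + 5 * 4 ^ (n + 3) ≤ H) :
    VE R hat z (kp D * (K + 30 * (n + 5) ^ 2)) (FreeGroup.of x * nf μ s) (nf μ (xiS x s)) := by
  obtain ⟨κ, e⟩ := s
  simp only at hs he
  have p4 : (0 : ℤ) < 4 ^ (n + 3) := by positivity
  have ge := abs_le.mp (le_refl |e|)
  have hB : Bd (μ e) m := hμ.2.1 e (by linarith [ge.1]) (by linarith [ge.2])
  have bκ : Bd (et ^ κ) n := (bd_zpow bd_et κ).mono hs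
  have b0 : Bd (fb (-κ)) (2 * n + 1) := (bd_fb (-κ)).mono (by omega)
  have g0 := abs_Gz (-κ) (n + 3) (by omega)
  have g1 := abs_Gz (1 - κ) (n + 3) (by omega)
  have P0 := PB.all hb hμ hK (-κ) (n + 3) (by omega)
  have P1 := PB.all hb hμ hK (1 - κ) (n + 3) (by omega)
  have hkp : ∀ n : ℕ, n ≤ kp D * n := le_kp hb
  have hr : 30 * (n + 4) ^ 2 + 10 * n + 20 ≤ 30 * (n + 5) ^ 2 := by nlinarith
  have mono : ∀ {r : ℕ} {c c' : FL}, VE R hat z r c c' →
      r ≤ kp D * (K + 30 * (n + 4) ^ 2) + (10 * n + 20) →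
      VE R hat z (kp D * (K + 30 * (n + 5) ^ 2)) c c' := by
    intro r c c' h h'
    refine h.mono (h'.trans ?_)
    have h8 := hkp (10 * n + 20)
    calc kp D * (K + 30 * (n + 4) ^ 2) + (10 * n + 20)
        ≤ kp D * (K + 30 * (n + 4) ^ 2) + kp D * (10 * n + 20) := by omega
      _ = kp D * (K + 30 * (n + 4) ^ 2 + (10 * n + 20)) := by ring
      _ ≤ _ := Nat.mul_le_mul_left _ (by omega)
  have ef : fb (-κ) = et ^ (-κ) * eh * et ^ κ := by
    unfold fb
    rw [neg_neg]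
  cases x with
  | h =>
    have h1 := VE.left hb (P0 e (by linarith)) bκ
    simp only [show n + 3 + 1 = n + 4 from rfl] at h1
    have e1 : et ^ κ * (fb (-κ) * μ e) = eh * (et ^ κ * μ e) := by
      rw [ef, zpow_neg]
      group
    rw [e1] at h1
    exact mono h1 (by omega)
  | a =>
    have h1 := (qe1 hb).ve bd_eh.inv (bκ.mul hB)
    have e1 : eh⁻¹ * (eh * ea) * (et ^ κ * μ e) = ea * (et ^ κ * μ e) := by group
    have e2 : eh⁻¹ * (et * eh * et⁻¹) * (et ^ κ * μ e) =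
        et ^ κ * (fb (-κ))⁻¹ * (fb (1 - κ) * μ e) := by
      have : fb (1 - κ) = et ^ (-κ) * (et * eh * et⁻¹) * et ^ κ := by
        unfold fb
        rw [show -(1 - κ) = -1 + κ by ring, show 1 - κ = -κ + 1 by ring, zpow_add, zpow_add]
        group
      rw [this, ef, zpow_neg]
      group
    rw [e1, e2] at h1
    have h2 := VE.left hb (P1 e (by linarith)) (bκ.mul b0.inv)
    have a1 : |e + Gz (1 - κ)| ≤ |e| + 4 ^ (n + 3) := (abs_add_le _ _).trans (by linarith)
    have h3 := VE.left hb (PB.inv hb hμ (by omega) P0 (e + Gz (1 - κ)) (by linarith)) bκ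
    have e3 : e + Gz (1 - κ) - Gz (-κ) = e + (Gz (1 - κ) - Gz (-κ)) := by ring
    rw [e3] at h3
    simp only [show n + 3 + 1 = n + 4 from rfl] at h2 h3
    have h4 := (mono h2 (by omega)).trans (by
      rw [← mul_assoc] at h3
      exact mono h3 (by omega))
    exact (mono_kp hb h1.symm (by omega)).trans h4
  | t =>
    have e1 : FreeGroup.of Lq.t * nf μ (κ, e) = nf μ (κ + 1, e) := by
      unfold nf
      simp only
      rw [add_comm κ 1, zpow_add, zpow_one, mul_assoc]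
      rfl
    rw [e1]
    exact VE.refl _

/-- the effect of an inverse letter -/
theorem nf_step' {K : ℕ} (hK : m + k + 40 ≤ K) (x : Lq) (s : ℤ × ℤ) (n : ℕ)
    (hs : s.1.natAbs ≤ n) (he : |s.2| + 6 * 4 ^ (n + 4) ≤ H) :
    VE R hat z (kp D * (K + 30 * (n + 6) ^ 2) + 1) ((FreeGroup.of x)⁻¹ * nf μ s)
      (nf μ ((xiS x)⁻¹ s)) := by
  obtain ⟨h1, h2⟩ := xiS_inv_bd x s n hs
  have p4 : (0 : ℤ) < 4 ^ (n + 1) := by positivity
  have p5 : (4 : ℤ) ^ (n + 4) = 64 * 4 ^ (n + 1) := by ring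
  rw [p5] at he
  have h3 := nf_step hb hμ hK x ((xiS x)⁻¹ s) (n + 1) h1 (by
    rw [show n + 1 + 3 = n + 4 by ring, p5]
    linarith)
  rw [show xiS x ((xiS x)⁻¹ s) = s from (xiS x).apply_symm_apply s] at h3
  have h4 := VE.left hb h3 (Bd.of x).inv
  rw [inv_mul_cancel_left] at h4
  exact h4.symm

omit hb hμ in
theorem sS_cons (a : Lq × Bool) (L : List (Lq × Bool)) :
    sS (FreeGroup.mk (a :: L)) = (if a.2 then xiS a.1 else (xiS a.1)⁻¹) (sS (FreeGroup.mk L)) := by
  unfold sS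
  rw [mk_cons, map_mul, Equiv.Perm.mul_apply]
  congr 1
  obtain ⟨x, b⟩ := a
  cases b
  · have : (FreeGroup.mk [(x, false)] : FL) = (FreeGroup.of x)⁻¹ := by
      simp [FreeGroup.of, FreeGroup.invRev]
    rw [this, map_inv, FreeGroup.lift_apply_of]
    rfl
  · have : (FreeGroup.mk [(x, true)] : FL) = FreeGroup.of x := rfl
    rw [this, FreeGroup.lift_apply_of]
    rfl

omit hb hμ in
theorem sS_bd (L : List (Lq × Bool)) : (sS (FreeGroup.mk L)).1.natAbs ≤ L.length ∧
    |(sS (FreeGroup.mk L)).2| ≤ 4 ^ (L.length + 1) := by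
  induction L with
  | nil =>
    have : FreeGroup.mk ([] : List (Lq × Bool)) = 1 := FreeGroup.one_eq_mk.symm
    rw [this]
    simp [sS]
  | cons a L ih =>
    have p : (4 : ℤ) ^ (L.length + 1 + 1) = 4 * 4 ^ (L.length + 1) := by ring
    have p' : (0 : ℤ) < 4 ^ (L.length + 1) := by positivity
    rw [sS_cons, List.length_cons, p]
    split_ifs
    · obtain ⟨h1, h2⟩ := xiS_bd a.1 _ _ ih.1
      exact ⟨h1, by linarith [ih.2]⟩
    · obtain ⟨h1, h2⟩ := xiS_inv_bd a.1 _ _ ih.1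
      exact ⟨h1, by linarith [ih.2]⟩

/-- every word is congruent to the normal form of its position -/
theorem nf_word {K : ℕ} (hK : m + k + 40 ≤ K) (n : ℕ) (hn : 4 ^ (n + 8) ≤ H)
    (L : List (Lq × Bool)) (hL : L.length ≤ n) :
    VE R hat z (kp D * (K + 30 * (n + 6) ^ 2 + L.length)) (FreeGroup.mk L)
      (nf μ (sS (FreeGroup.mk L))) := by
  induction L with
  | nil =>
    have : FreeGroup.mk ([] : List (Lq × Bool)) = 1 := FreeGroup.one_eq_mk.symm
    rw [this]
    have : nf μ (sS 1) = 1 := by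
      simp [nf, sS, hμ.1]
    rw [this]
    exact VE.refl _
  | cons a L ih =>
    simp only [List.length_cons] at hL
    have ih' := ih (by omega)
    obtain ⟨b1, b2⟩ := sS_bd L
    have p' : (0 : ℤ) < 4 ^ (n + 4) := by positivity
    have p1 : (4 : ℤ) ^ (n + 8) = 256 * 4 ^ (n + 4) := by ring
    have p2 : (4 : ℤ) ^ (L.length + 1) ≤ 4 ^ (n + 4) :=
      pow_le_pow_right₀ (by norm_num) (by omega)
    have p3 : (4 : ℤ) ^ (n + 3) ≤ 4 ^ (n + 4) := pow_le_pow_right₀ (by norm_num) (by omega)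
    rw [p1] at hn
    have hl := VE.left hb ih' (g := FreeGroup.mk [a]) (bd_mk [a])
    rw [← mk_cons] at hl
    have hr : kp D * (K + 30 * (n + 6) ^ 2 + L.length) + [a].length ≤
        kp D * (K + 30 * (n + 6) ^ 2 + (L.length + 1)) := by
      have := le_kp (D := D) hb 1
      simp only [List.length_cons, List.length_nil]
      nlinarith
    have h5 : 30 * (n + 5) ^ 2 ≤ 30 * (n + 6) ^ 2 :=
      Nat.mul_le_mul_left _ (Nat.pow_le_pow_left (by omega) 2)
    refine (hl.mono hr).trans ?_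
    rw [sS_cons]
    obtain ⟨x, b⟩ := a
    cases b
    · have e1 : (FreeGroup.mk [(x, false)] : FL) = (FreeGroup.of x)⁻¹ := by
        simp [FreeGroup.of, FreeGroup.invRev]
      rw [e1]
      simp only [Bool.false_eq_true, if_false]
      refine (nf_step' hb hμ hK x _ n (by omega) (by linarith)).mono ?_
      have := le_kp (D := D) hb 1
      calc kp D * (K + 30 * (n + 6) ^ 2) + 1 ≤ kp D * (K + 30 * (n + 6) ^ 2) + kp D * 1 := by omega
        _ = kp D * (K + 30 * (n + 6) ^ 2 + 1) := by ring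
        _ ≤ _ := Nat.mul_le_mul_left _ (by omega)
    · have e1 : (FreeGroup.mk [(x, true)] : FL) = FreeGroup.of x := rfl
      rw [e1]
      simp only [if_true]
      exact mono_kp hb (nf_step hb hμ hK x _ n (by omega) (by linarith)) (by omega)

/-- the relation at a position -/
def rN (μ : ℤ → FL) (s : ℤ × ℤ) : List (FL × Bool) :=
  [(nf μ (s.1, s.2 + 1), true), (nf μ s, false), (nf μ s, false), (nf μ s, false),
    (nf μ (s.1, s.2 - 1), true)]

omit hb in
theorem nf_bd (s : ℤ × ℤ) (n : ℕ) (hs : s.1.natAbs ≤ n) (he : |s.2| ≤ H) :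
    Bd (nf μ s) (n + m) := by
  have ge := abs_le.mp he
  exact ((bd_zpow bd_et s.1).mono hs).mul (hμ.2.1 s.2 (by linarith [ge.1]) (by linarith [ge.2]))

theorem rN_mem (s : ℤ × ℤ) (n : ℕ) (hs : s.1.natAbs ≤ n) (he : |s.2| < H) {r : ℕ}
    (hr : kp D * (n + m + k + 3) ≤ r) : Wd hat z (rN μ s) ∈ KR R r := by
  have ge := abs_lt.mp he
  obtain ⟨κ, e⟩ := s
  simp only at hs he ge
  have bκ : Bd (et ^ κ) n := (bd_zpow bd_et κ).mono hs
  have n1 := nf_bd hμ (κ, e + 1) n hs (abs_le.mpr ⟨by simp only; omega, by simp only; omega⟩)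
  have n0 := nf_bd hμ (κ, e) n hs (abs_le.mpr ⟨by simp only; omega, by simp only; omega⟩)
  have n2 := nf_bd hμ (κ, e - 1) n hs (abs_le.mpr ⟨by simp only; omega, by simp only; omega⟩)
  have v1 := hμ.2.2 e (by omega) (by omega) (et ^ κ) n bκ
  have v2 := hμ.2.2 (e - 1) (by omega) (by omega) (et ^ κ) n bκ
  rw [sub_add_cancel] at v2
  have c1 : et ^ κ * μ (e + 1) = nf μ (κ, e + 1) := rfl
  have c0 : et ^ κ * μ e = nf μ (κ, e) := rfl
  have c2 : et ^ κ * μ (e - 1) = nf μ (κ, e - 1) := rfl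
  rw [c1, c0] at v1
  rw [c0, c2] at v2
  have hr' : kp D * (n + k) ≤ r := (Nat.mul_le_mul_left _ (by omega)).trans hr
  have f1 : E R hat z r (nf μ (κ, e + 1)) (nf μ (κ, e - 1) * ea * ea) :=
    (v1.1.trans v2.2).mono hr'
  have f2 : E R hat z r (nf μ (κ, e - 1) * ea) (nf μ (κ, e)) := (v2.1.mono hr').symm
  have f3 : Wd hat z (rA (nf μ (κ, e - 1))) ∈ KR R r := by
    refine KR_mono ?_ (rA_mem hb n2)
    have := le_kp (D := D) hb (n + m + k + 3)
    omega
  have l1 : ∀ q : FL × Bool, q ∈ [(nf μ (κ, e + 1), true), (nf μ (κ, e), false),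
      (nf μ (κ, e - 1), true), (nf μ (κ, e - 1) * ea, true),
      (nf μ (κ, e - 1) * ea * ea, false)] → Bd q.1 (n + m + 2) := by
    intro q hq
    simp only [List.mem_cons, List.not_mem_nil, or_false] at hq
    rcases hq with rfl | rfl | rfl | rfl | rfl
    · exact n1.mono (by omega)
    · exact n0.mono (by omega)
    · exact n2.mono (by omega)
    · exact (n2.mul bd_ea).mono (by omega)
    · exact ((n2.mul bd_ea).mul bd_ea).mono (by omega)
  refine comb hb.toBaseC (N := 32) (n := n + m + 2)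
    ((rd_le hb (n + m + 2)).trans ((Nat.mul_le_mul_left _ (by omega)).trans hr)) _
    [rA (nf μ (κ, e - 1)), [(nf μ (κ, e + 1), true), (nf μ (κ, e - 1) * ea * ea, false)],
      [(nf μ (κ, e - 1) * ea, true), (nf μ (κ, e), false)],
      [(nf μ (κ, e - 1) * ea, true), (nf μ (κ, e), false)],
      [(nf μ (κ, e - 1) * ea, true), (nf μ (κ, e), false)]] ?_ ?_ ?_ ?_ ?_
  · intro P hP
    simp only [List.mem_cons, List.not_mem_nil, or_false] at hP
    rcases hP with rfl | rfl | rfl | rfl | rfl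
    · exact f3
    · exact f1
    · exact f2
    · exact f2
    · exact f2
  · simp only [List.map_cons, List.map_nil, List.sum_cons, List.sum_nil, Sm_cons, Sm_nil,
      rA, rN, sg_true, sg_false, Finsupp.single_neg]
    abel
  · simp [rA, rN]
  · intro q hq
    apply l1
    simp only [rN, List.mem_cons, List.not_mem_nil, or_false] at hq ⊢
    tauto
  · intro P hP
    simp only [List.mem_cons, List.not_mem_nil, or_false] at hP
    rcases hP with rfl | rfl | rfl | rfl | rfl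
    · exact rA_bd n2
    all_goals
      intro q hq
      apply l1
      simp only [List.mem_cons, List.not_mem_nil, or_false] at hq ⊢
      tauto

end num

end Pool.Agent.TH95.DI
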