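import Pool.Agent.TH95.DI.Trans

/-!
Blocks and paths.
-/

set_option autoImplicit false

set_option linter.unusedSectionVars false

noncomputable section

namespace Pool.Agent.TH95.DI

variable {α : Type} {R : Set (FreeGroup α)} {r s n m p q : ℕ} {B : Type}

/-- the blocks -/
def fb (j : ℤ) : FL := et ^ j * eh * et ^ (-j)

theorem bd_zpow {X : Type} {w : FreeGroup X} (h : Bd w 1) (j : ℤ) : Bd (w ^ j) j.natAbs := by
  obtain ⟨k, rfl | rfl⟩ := j.eq_nat_or_neg
  · rw [zpow_natCast]
    exact (h.pow _).mono (by simp)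
  · rw [zpow_neg, zpow_natCast]
    exact (h.pow _).inv.mono (by simp)

theorem bd_fb (j : ℤ) : Bd (fb j) (2 * j.natAbs + 1) :=
  (((bd_zpow bd_et j).mul bd_eh).mul (bd_zpow bd_et (-j))).mono (by
    rw [Int.natAbs_neg]
    omega)

@[simp] theorem fb_zero : fb 0 = eh := by simp [fb]

section base

variable {hat : FL →* FreeGroup α} {ι : FreeGroup B →* FreeGroup α} {z : FreeGroup α} {D : ℕ}
  (hb : BaseT R hat ι z D)

include hb

theorem qe1 : QE R hat z D 3 (et * eh * et⁻¹) (eh * ea) :=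
  QE.of_rel hb hb.Q1 ((bd_eh.mul bd_ea))

theorem qe2 : QE R hat z D 4 (et * ea * et⁻¹) (eh * ea * ea) :=
  QE.of_rel hb hb.Q2 (((bd_eh.mul bd_ea).mul bd_ea))

/-- the recursion of the blocks -/
theorem qe_fb (j : ℤ) : QE R hat z D (2 * j.natAbs + 16) (fb (j + 2))
    (fb (j + 1) * fb (j + 1) * (fb j)⁻¹ * fb (j + 1)) := by
  have q1 := qe1 hb
  have q2 := qe2 hb
  have bj := bd_zpow bd_et j
  have bj' := bd_zpow bd_et (-j)
  have ht := bd_et
  have hh := bd_eh
  have ha := bd_ea
  rw [Int.natAbs_neg] at bj'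
  have e1 : et ^ (j + 2) = et ^ j * et * et := by
    rw [zpow_add, show (2 : ℤ) = 1 + 1 from rfl, zpow_add, zpow_one, mul_assoc]
  have e1' : et ^ (-(j + 2)) = et⁻¹ * et⁻¹ * et ^ (-j) := by
    rw [zpow_neg, e1, zpow_neg]
    group
  have e2 : et ^ (j + 1) = et ^ j * et := by rw [zpow_add, zpow_one]
  have e2' : et ^ (-(j + 1)) = et⁻¹ * et ^ (-j) := by
    rw [zpow_neg, e2, zpow_neg]
    group
  have s1 := q1.ctx (n := 2 * j.natAbs + 16) (bj.mul ht) (ht.inv.mul bj') (by omega)
  have s2 := q2.ctx (n := 2 * j.natAbs + 16) (((bj.mul ht).mul hh).mul ht.inv) bj' (by omega)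
  have s3 := q1.ctx (n := 2 * j.natAbs + 16) (((bj.mul ht).mul hh).mul ht.inv)
    (((hh.inv.mul (ht.mul (hh.mul ht.inv)))).mul bj') (by omega)
  have s4 := q1.ctx (n := 2 * j.natAbs + 16) ((((((bj.mul ht).mul hh).mul ht.inv).mul hh).mul
    ha).mul hh.inv) bj' (by omega)
  have f1 : et ^ j * et * (et * eh * et⁻¹) * (et⁻¹ * et ^ (-j)) = fb (j + 2) := by
    unfold fb
    rw [e1, e1']
    group
  have f2 : et ^ j * et * (eh * ea) * (et⁻¹ * et ^ (-j)) =
      et ^ j * et * eh * et⁻¹ * (et * ea * et⁻¹) * et ^ (-j) := by group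
  have f3 : et ^ j * et * eh * et⁻¹ * (et * eh * et⁻¹) * (eh⁻¹ * (et * (eh * et⁻¹)) * et ^ (-j)) =
      fb (j + 1) * fb (j + 1) * (fb j)⁻¹ * fb (j + 1) := by
    unfold fb
    rw [e2, e2', zpow_neg]
    group
  have f4 : et ^ j * et * eh * et⁻¹ * (eh * ea) * (eh⁻¹ * (et * (eh * et⁻¹)) * et ^ (-j)) =
      et ^ j * et * eh * et⁻¹ * eh * ea * eh⁻¹ * (et * eh * et⁻¹) * et ^ (-j) := by group
  have f5 : et ^ j * et * eh * et⁻¹ * eh * ea * eh⁻¹ * (eh * ea) * et ^ (-j) =
      et ^ j * et * eh * et⁻¹ * (eh * ea * ea) * et ^ (-j) := by group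
  rw [f1, f2] at s1
  rw [f3, f4] at s3
  rw [f5] at s4
  exact (s1.trans s2).trans (s3.trans s4).symm

/-- the first block -/
theorem qe_fb1 : QE R hat z D 3 (fb 1) (eh * ea) := by
  have := qe1 hb
  simpa [fb] using this

end base

/-- bound for the lengths of positions -/
def mL (L : ℕ) : ℕ := 4 * (L + 1) ^ 2

/-- bound for the radius -/
def mR (L : ℕ) : ℕ := 40 * (L + 1) ^ 3

/-- paths of words along a block -/
def Pth (R : Set (FreeGroup α)) (hat : FL →* FreeGroup α) (z : FreeGroup α) (D L : ℕ)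
    (ν : ℤ → FL) : Prop :=
  ν 0 = 1 ∧ (∀ e, 0 ≤ e → e ≤ Gz L → Bd (ν e) (mL L)) ∧
  (∀ e, 0 ≤ e → e < Gz L → ∀ (c : FL) (n : ℕ), Bd c n →
    VE R hat z (kp D * (n + mR L)) (c * ν (e + 1)) (c * ν e * ea)) ∧
  ∀ (c : FL) (n : ℕ), Bd c n → VE R hat z (kp D * (n + mR L)) (c * ν (Gz L)) (c * fb L)

section base

variable {hat : FL →* FreeGroup α} {ι : FreeGroup B →* FreeGroup α} {z : FreeGroup α} {D : ℕ}
  (hb : BaseT R hat ι z D)

include hb

theorem le_kp (n : ℕ) : n ≤ kp D * n := Nat.le_mul_of_pos_left _ (by unfold kp; omega)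

theorem pth0 : Pth R hat z D 0 (fun _ => 1) := by
  refine ⟨rfl, fun _ _ _ => Bd.one.mono (by omega), ?_, ?_⟩
  · intro e h1 h2
    simp at h2
    omega
  · intro c n hc
    simp only [mul_one, Nat.cast_zero, fb_zero]
    refine (VE.h hb hc).symm.mono ?_
    have := le_kp (D := D) hb (n + mR 0)
    omega

theorem pth1 : Pth R hat z D 1 (fun e => if e ≤ 0 then 1 else ea) := by
  refine ⟨by simp, ?_, ?_, ?_⟩
  · intro e _ _
    dsimp only
    split_ifs
    · exact Bd.one.mono (by omega)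
    · exact bd_ea.mono (by unfold mL; norm_num)
  · intro e h1 h2 c n hc
    simp only [Nat.cast_one, Gz_one] at h2
    obtain rfl : e = 0 := by omega
    simp only [zero_add, le_refl, if_true, mul_one]
    rw [if_neg (by norm_num)]
    exact VE.refl _
  · intro c n hc
    simp only [Nat.cast_one, Gz_one]
    rw [if_neg (by norm_num)]
    have h1 := (qe_fb1 hb).ve hc (Bd.one)
    rw [mul_one, mul_one, ← mul_assoc] at h1
    have h2 : VE R hat z (kp D * (n + 5)) (c * eh * ea) (c * ea) := by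
      refine VE.a hb ((VE.h hb hc).mono ?_) (hc.mul bd_eh) (hc.mono (Nat.le_add_right _ _)) ?_
      · have := le_kp (D := D) hb (n + 5)
        omega
      · unfold kp
        nlinarith
    have h3 := (h1.mono (s := kp D * (n + mR 1)) (Nat.mul_le_mul_left _ (by
      unfold mR; omega))).trans (h2.mono (Nat.mul_le_mul_left _ (by unfold mR; omega)))
    exact h3.symm

theorem mono_kp {a b : ℕ} {c c' : FL} (h : VE R hat z (kp D * a) c c') (hab : a ≤ b) :
    VE R hat z (kp D * b) c c' := h.mono (Nat.mul_le_mul_left _ hab)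

theorem pth_step (L : ℕ) (h0 : ∃ ν, Pth R hat z D L ν) (h1 : ∃ ν, Pth R hat z D (L + 1) ν) :
    ∃ ν, Pth R hat z D (L + 2) ν := by
  obtain ⟨ν0, a1, a2, a3, a4⟩ := h0
  obtain ⟨ν1, b1, b2, b3, b4⟩ := h1
  have g1 := Gz_nat L
  have g2 := Gz_nat (L + 1)
  have g3 := Gz_rec L
  push_cast at *
  have e2 : ((L : ℤ) + 1) + 1 = (L : ℤ) + 2 := by ring
  rw [e2] at g2
  set G0 := Gz L with hG0
  set G1 := Gz ((L : ℤ) + 1) with hG1
  have hf1 : Bd (fb ((L : ℤ) + 1)) (2 * L + 3) := (bd_fb _).mono (by omega)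
  have hf0 : Bd (fb (L : ℤ)) (2 * L + 1) := (bd_fb _).mono (by omega)
  set F0 := fb (L : ℤ) with hF0
  set F1 := fb ((L : ℤ) + 1) with hF1
  have hm : mL (L + 1) + (4 * L + 6) ≤ mL (L + 2) := by unfold mL; nlinarith
  have hm0 : mL L ≤ mL (L + 1) := by unfold mL; nlinarith
  have hR0 : mR L ≤ mR (L + 1) := by
    unfold mR
    apply Nat.mul_le_mul_left
    exact Nat.pow_le_pow_left (by omega) 3
  have hR : mR (L + 1) + mL (L + 1) + 10 * L + 40 ≤ mR (L + 2) := by
    unfold mR mL
    ring_nf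
    nlinarith
  let ν : ℤ → FL := fun e => if e < G1 then ν1 e else if e < 2 * G1 then F1 * ν1 (e - G1)
    else F1 * F1 * ν1 (e - 2 * G1)
  have n1 : ∀ e, e < G1 → ν e = ν1 e := fun e h => if_pos h
  have n2 : ∀ e, G1 ≤ e → e < 2 * G1 → ν e = F1 * ν1 (e - G1) := by
    intro e h h'
    simp only [ν]
    rw [if_neg (by omega), if_pos h']
  have n3 : ∀ e, 2 * G1 ≤ e → ν e = F1 * F1 * ν1 (e - 2 * G1) := by
    intro e h
    simp only [ν]
    rw [if_neg (by omega), if_neg (by omega)]
  have hG2 : Gz ((L : ℤ) + 2) = 3 * G1 - G0 := g3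
  refine ⟨ν, ?_, ?_, ?_, ?_⟩
  · rw [n1 0 (by omega)]
    exact b1
  · intro e h3 h4
    push_cast at h4
    rw [hG2] at h4
    rcases lt_or_ge e G1 with h5 | h5
    · rw [n1 e h5]
      exact (b2 e h3 h5.le).mono (by omega)
    · rcases lt_or_ge e (2 * G1) with h6 | h6
      · rw [n2 e h5 h6]
        exact (hf1.mul (b2 (e - G1) (by omega) (by omega))).mono (by omega)
      · rw [n3 e h6]
        exact ((hf1.mul hf1).mul (b2 (e - 2 * G1) (by omega) (by omega))).mono (by omega)
  · intro e h3 h4 c n hc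
    push_cast at h4
    rw [hG2] at h4
    have hc1 := hc.mul hf1
    have hc2 := hc1.mul hf1
    rcases lt_or_ge e G1 with h5 | h5
    · rw [n1 e h5]
      rcases lt_or_ge (e + 1) G1 with h6 | h6
      · rw [n1 _ h6]
        exact mono_kp hb (b3 e h3 h5 c n hc) (by omega)
      · have h7 : e + 1 = G1 := by omega
        have h8 := b3 e h3 h5 c n hc
        have h9 := b4 c n hc
        rw [h7] at h8
        rw [h7, n2 G1 le_rfl (by omega), sub_self, b1, mul_one]
        exact mono_kp hb (h9.symm.trans h8) (by omega)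
    · rcases lt_or_ge e (2 * G1) with h5' | h5'
      · rw [n2 e h5 h5']
        rcases lt_or_ge (e + 1) (2 * G1) with h6 | h6
        · rw [n2 _ (by omega) h6]
          have h8 := b3 (e - G1) (by omega) (by omega) (c * F1) _ hc1
          rw [show e - G1 + 1 = e + 1 - G1 by ring] at h8
          simp only [mul_assoc] at h8 ⊢
          exact mono_kp hb h8 (by omega)
        · have h7 : e + 1 = 2 * G1 := by omega
          have h8 := b3 (e - G1) (by omega) (by omega) (c * F1) _ hc1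
          have h9 := b4 (c * F1) _ hc1
          rw [show e - G1 + 1 = G1 by omega] at h8
          rw [h7, n3 _ le_rfl, sub_self, b1, mul_one]
          have h10 := h9.symm.trans h8
          simp only [mul_assoc] at h10 ⊢
          exact mono_kp hb h10 (by omega)
      · rw [n3 e h5', n3 (e + 1) (by omega)]
        have h8 := b3 (e - 2 * G1) (by omega) (by omega) (c * F1 * F1) _ hc2
        rw [show e - 2 * G1 + 1 = e + 1 - 2 * G1 by ring] at h8
        simp only [mul_assoc] at h8 ⊢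
        exact mono_kp hb h8 (by omega)
  · intro c n hc
    push_cast
    rw [hG2, n3 _ (by omega)]
    have hc1 := hc.mul hf1
    have hc2 := hc1.mul hf1
    have hP := hc2.mul hf0.inv
    set P := c * F1 * F1 * F0⁻¹ with hPdef
    -- the two paths starting at `P`
    have c1 := rigid hb (r := kp D * (n + mR (L + 2))) (n := n + 6 * L + 7 + mL (L + 1))
      (P := fun e => P * ν1 e) (P' := fun e => P * ν0 e) (lo := 0) (hi := G0)
      (fun e h3 h4 => (hP.mul (b2 e h3 (by omega))).mono (by omega))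
      (fun e h3 h4 => (hP.mul (a2 e h3 h4)).mono (by omega))
      (fun e h3 h4 => mono_kp hb (b3 e h3 (by omega) P _ hP) (by omega))
      (fun e h3 h4 => mono_kp hb (a3 e h3 h4 P _ hP) (by omega))
      (Nat.mul_le_mul_left _ (by omega)) (e0 := 0) le_rfl g1.1
      (by simp only [b1, a1]; exact VE.refl _) G0 g1.1 le_rfl
    have c2 : VE R hat z (kp D * (n + mR (L + 2))) (P * ν1 G0) (c * F1 * F1) := by
      have h5 := a4 P _ hP
      have h6 : P * F0 = c * F1 * F1 := by rw [hPdef]; group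
      rw [h6] at h5
      exact c1.trans (mono_kp hb h5 (by omega))
    have c3 := rigid hb (r := kp D * (n + mR (L + 2))) (n := n + 6 * L + 7 + mL (L + 1))
      (P := fun e => P * ν1 (G0 + e)) (P' := fun e => c * F1 * F1 * ν1 e) (lo := 0) (hi := G1 - G0)
      (fun e h3 h4 => (hP.mul (b2 _ (by omega) (by omega))).mono (by omega))
      (fun e h3 h4 => (hc2.mul (b2 e h3 (by omega))).mono (by omega))
      (fun e h3 h4 => by
        have h5 := b3 (G0 + e) (by omega) (by omega) P _ hP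
        rw [add_assoc G0 e 1] at h5
        exact mono_kp hb h5 (by omega))
      (fun e h3 h4 => by
        have h5 := b3 e h3 (by omega) (c * F1 * F1) _ hc2
        exact mono_kp hb h5 (by omega))
      (Nat.mul_le_mul_left _ (by omega)) (e0 := 0) le_rfl (by omega)
      (by simp only [b1, add_zero, mul_one]; exact c2) (G1 - G0) (by omega) le_rfl
    simp only [add_sub_cancel] at c3
    have c4 := b4 P _ hP
    have c5 := (qe_fb hb L).ve hc Bd.one
    rw [mul_one, mul_one] at c5
    have c6 : c * (F1 * F1 * F0⁻¹ * F1) = P * F1 := by rw [hPdef]; group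
    rw [c6] at c5
    have e3 : 3 * G1 - G0 - 2 * G1 = G1 - G0 := by ring
    rw [e3]
    have c7 := c3.symm.trans (mono_kp hb c4 (by omega))
    have c8 := c7.trans (mono_kp hb c5.symm (by simp; omega))
    simp only [mul_assoc] at c8 ⊢
    exact c8

theorem exists_pth (L : ℕ) : ∃ ν, Pth R hat z D L ν := by
  have : (∃ ν, Pth R hat z D L ν) ∧ ∃ ν, Pth R hat z D (L + 1) ν := by
    induction L with
    | zero => exact ⟨⟨_, pth0 hb⟩, ⟨_, pth1 hb⟩⟩
    | succ L ih => exact ⟨ih.2, pth_step hb L ih.1 ih.2⟩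
  exact this.1

end base

end Pool.Agent.TH95.DI
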