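import Pool.Agent.TH95.SD.Low
import Pool.Agent.TH95.SD.Len

/-!
Products of conjugates of relators by short words; commutation with bounded radius.
-/

set_option autoImplicit false

set_option linter.unusedSectionVars false

noncomputable section

namespace Pool.Agent.TH95.DI

variable {α : Type}

/-- the subgroup generated by the conjugates of relators by words of length at most `r` -/
def KR (R : Set (FreeGroup α)) (r : ℕ) : Subgroup (FreeGroup α) :=
  Subgroup.closure {w | ∃ g ρ : FreeGroup α, Bd g r ∧ ρ ∈ R ∧ w = g * ρ * g⁻¹}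

variable {R : Set (FreeGroup α)} {r s n m : ℕ} {g h x y ρ : FreeGroup α}

theorem KR_gen (hg : Bd g r) (hρ : ρ ∈ R) : g * ρ * g⁻¹ ∈ KR R r :=
  Subgroup.subset_closure ⟨g, ρ, hg, hρ, rfl⟩

theorem KR_rel (hρ : ρ ∈ R) : ρ ∈ KR R 0 := by
  have := KR_gen (R := R) (g := 1) Bd.one hρ
  simpa using this

theorem KR_mono (h : r ≤ s) : KR R r ≤ KR R s := by
  apply Subgroup.closure_mono
  rintro _ ⟨g, ρ, hg, hρ, rfl⟩
  exact ⟨g, ρ, hg.mono h, hρ, rfl⟩

theorem KR_conj (hg : Bd g s) (hx : x ∈ KR R r) : g * x * g⁻¹ ∈ KR R (r + s) := by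
  unfold KR at hx
  induction hx using Subgroup.closure_induction with
  | mem y hy =>
    obtain ⟨c, ρ, hc, hρ, rfl⟩ := hy
    have := KR_gen (R := R) (g := g * c) (r := r + s) ((hg.mul hc).mono (by omega)) hρ
    convert this using 1
    group
  | one => simp
  | mul a b _ _ ha hb =>
    have := Subgroup.mul_mem _ ha hb
    convert this using 1
    group
  | inv a _ ha =>
    have := Subgroup.inv_mem _ ha
    convert this using 1
    group

theorem KR_conj' (hg : Bd g s) (hx : x ∈ KR R r) : g⁻¹ * x * g ∈ KR R (r + s) := by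
  have := KR_conj (R := R) hg.inv hx
  simpa using this

theorem KR_le : KR R r ≤ Subgroup.normalClosure R := by
  unfold KR
  rw [Subgroup.closure_le]
  rintro _ ⟨g, ρ, _, hρ, rfl⟩
  exact Subgroup.normalClosure_normal.conj_mem _ (Subgroup.subset_normalClosure hρ) g

theorem exists_bd (g : FreeGroup α) : ∃ n, Bd g n := by
  refine ⟨(Quot.out g).length, Quot.out g, le_rfl, ?_⟩
  exact Quot.out_eq g

theorem exists_KR (h : x ∈ Subgroup.normalClosure R) : ∃ r, x ∈ KR R r := by
  unfold Subgroup.normalClosure at h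
  induction h using Subgroup.closure_induction with
  | mem y hy =>
    obtain ⟨ρ, hρ, hc⟩ := Group.mem_conjugatesOfSet_iff.mp hy
    obtain ⟨c, rfl⟩ := isConj_iff.mp hc
    obtain ⟨n, hn⟩ := exists_bd c
    exact ⟨n, KR_gen hn hρ⟩
  | one => exact ⟨0, Subgroup.one_mem _⟩
  | mul a b _ _ ha hb =>
    obtain ⟨r, ha⟩ := ha
    obtain ⟨s, hb⟩ := hb
    exact ⟨r + s, Subgroup.mul_mem _ (KR_mono (by omega) ha) (KR_mono (by omega) hb)⟩
  | inv a _ ha =>
    obtain ⟨r, ha⟩ := ha
    exact ⟨r, Subgroup.inv_mem _ ha⟩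

theorem KR_list (h : x ∈ KR R r) : ∃ l : List (List (α × Bool) × FreeGroup α),
    (∀ p ∈ l, (p.2 ∈ R ∨ p.2⁻¹ ∈ R) ∧ p.1.length ≤ r) ∧
    x = (l.map (fun p => FreeGroup.mk p.1 * p.2 * (FreeGroup.mk p.1)⁻¹)).prod := by
  unfold KR at h
  induction h using Subgroup.closure_induction with
  | mem y hy =>
    obtain ⟨g, ρ, ⟨L, hL, rfl⟩, hρ, rfl⟩ := hy
    exact ⟨[(L, ρ)], by simp [hρ, hL], by simp⟩
  | one => exact ⟨[], by simp, by simp⟩
  | mul a b _ _ ha hb =>
    obtain ⟨l, h1, rfl⟩ := ha
    obtain ⟨l', h1', rfl⟩ := hb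
    refine ⟨l ++ l', ?_, by simp⟩
    intro p hp
    rcases List.mem_append.mp hp with hp | hp
    · exact h1 p hp
    · exact h1' p hp
  | inv a _ ha =>
    obtain ⟨l, h1, rfl⟩ := ha
    refine ⟨(l.map (fun p => (p.1, p.2⁻¹))).reverse, ?_, ?_⟩
    · intro p hp
      rw [List.mem_reverse, List.mem_map] at hp
      obtain ⟨q, hq, rfl⟩ := hp
      obtain ⟨h2, h3⟩ := h1 q hq
      refine ⟨?_, h3⟩
      rw [inv_inv]
      exact h2.symm
    · rw [List.prod_inv_reverse, List.map_reverse, List.map_map, List.map_map]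
      congr 2
      apply List.map_congr_left
      intro p _
      simp only [Function.comp_apply]
      group

/-! ### Commutation up to short conjugates of relators -/

/-- the commutator of two elements is a product of conjugates of relators by short words -/
def Cm (R : Set (FreeGroup α)) (r : ℕ) (g h : FreeGroup α) : Prop := g * h * g⁻¹ * h⁻¹ ∈ KR R r

namespace Cm

theorem mono (H : Cm R r g h) (hr : r ≤ s) : Cm R s g h := KR_mono hr H

theorem symm (H : Cm R r g h) : Cm R r h g := by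
  have := Subgroup.inv_mem _ H
  unfold Cm
  convert this using 1
  group

theorem inv_left (H : Cm R r g h) (hg : Bd g s) : Cm R (r + s) g⁻¹ h := by
  have := KR_conj' hg (Subgroup.inv_mem _ H)
  unfold Cm
  convert this using 1
  group

theorem inv_right (H : Cm R r g h) (hg : Bd h s) : Cm R (r + s) g h⁻¹ :=
  (H.symm.inv_left hg).symm

theorem one_left : Cm R r 1 h := by
  unfold Cm
  simp

theorem mul_left (H : Cm R r g h) (H' : Cm R r x h) (hg : Bd g s) : Cm R (r + s) (g * x) h := by
  have := Subgroup.mul_mem _ (KR_conj hg H') (KR_mono (Nat.le_add_right r s) H)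
  unfold Cm
  convert this using 1
  group

theorem congr_left {t : ℕ} (hx : x * y⁻¹ ∈ KR R r) (H : Cm R s y h) (hh : Bd h t)
    (h1 : r + t ≤ n) (h2 : s ≤ n) : Cm R n x h := by
  have h3 := KR_conj hh (Subgroup.inv_mem _ hx)
  have := Subgroup.mul_mem _ (Subgroup.mul_mem _ (KR_mono (by omega) hx) (KR_mono h2 H))
    (KR_mono h1 h3)
  unfold Cm
  convert this using 1
  group

theorem conj (H : Cm R r g h) {c : FreeGroup α} (hc : Bd c s) :
    Cm R (r + s) (c * g * c⁻¹) (c * h * c⁻¹) := by
  have := KR_conj hc H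
  unfold Cm
  convert this using 1
  group

end Cm

/-! ### The abstract situation -/

theorem mk_cons {X : Type} (a : X × Bool) (L : List (X × Bool)) :
    FreeGroup.mk (a :: L) = FreeGroup.mk [a] * FreeGroup.mk L := by
  rw [FreeGroup.mul_mk]
  rfl

theorem bd_mk {X : Type} (L : List (X × Bool)) : Bd (FreeGroup.mk L) L.length := ⟨L, le_rfl, rfl⟩

variable {X B : Type}

/-- the basic facts about a central element `z` -/
structure BaseC (R : Set (FreeGroup α)) (hat : FreeGroup X →* FreeGroup α)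
    (ι : FreeGroup B →* FreeGroup α) (z : FreeGroup α) (D : ℕ) : Prop where
  hat_len : ∀ (u : FreeGroup X) (n : ℕ), Bd u n → Bd (hat u) n
  ι_len : ∀ (u : FreeGroup B) (n : ℕ), Bd u n → Bd (ι u) n
  z_len : Bd z 1
  comm : ∀ β : B, Cm R D z (ι (FreeGroup.of β))
  conj : ∀ (x : X × Bool) (β : B), ∃ W : FreeGroup B, Bd W D ∧
    (hat (FreeGroup.mk [x]))⁻¹ * ι (FreeGroup.of β) * hat (FreeGroup.mk [x]) * (ι W)⁻¹ ∈ KR R D
  zN : ∃ W : FreeGroup B, Bd W D ∧ z * (ι W)⁻¹ ∈ KR R D

/-- the conjugates of the central element -/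
def U (hat : FreeGroup X →* FreeGroup α) (z : FreeGroup α) (u : FreeGroup X) : FreeGroup α :=
  hat u * z * (hat u)⁻¹

theorem U_mul (hat : FreeGroup X →* FreeGroup α) (z : FreeGroup α) (c u : FreeGroup X) :
    U hat z (c * u) = hat c * U hat z u * (hat c)⁻¹ := by
  unfold U
  rw [map_mul]
  group

theorem U_one (hat : FreeGroup X →* FreeGroup α) (z : FreeGroup α) : U hat z 1 = z := by
  simp [U]

section base

variable {hat : FreeGroup X →* FreeGroup α} {ι : FreeGroup B →* FreeGroup α} {z : FreeGroup α}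
  {D : ℕ} (hb : BaseC R hat ι z D)

include hb

theorem U_len {u : FreeGroup X} (hu : Bd u n) : Bd (U hat z u) (2 * n + 1) := by
  have h1 := hb.hat_len u n hu
  exact ((h1.mul hb.z_len).mul h1.inv).mono (by omega)

theorem cm_word {h : FreeGroup α} (H : ∀ β : B, Cm R r (ι (FreeGroup.of β)) h)
    {W : FreeGroup B} (hW : Bd W s) : Cm R (r + 1 + s) (ι W) h := by
  obtain ⟨L, hL, rfl⟩ := hW
  refine Cm.mono ?_ (Nat.add_le_add_left hL (r + 1))
  clear hL
  induction L with
  | nil =>
    have : FreeGroup.mk ([] : List (B × Bool)) = 1 := FreeGroup.one_eq_mk.symm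
    rw [this, map_one]
    exact Cm.one_left
  | cons a L ih =>
    rw [mk_cons, map_mul]
    have h1 : Cm R (r + 1) (ι (FreeGroup.mk [a])) h := by
      obtain ⟨β, b⟩ := a
      have hl : Bd (ι (FreeGroup.of β)) 1 := hb.ι_len _ _ (Bd.of β)
      cases b
      · have : (FreeGroup.mk [(β, false)] : FreeGroup B) = (FreeGroup.of β)⁻¹ := by
          simp [FreeGroup.of, FreeGroup.invRev]
        rw [this, map_inv]
        exact (H β).inv_left hl
      · exact (H β).mono (by omega)
    have h2 := (h1.mono (Nat.le_add_right _ L.length)).mul_left ih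
      (hb.ι_len _ _ (bd_mk [a]))
    exact h2.mono (by simp)

/-- the letters of `N` commute with the conjugates of `z` -/
theorem cm_letter (L : List (X × Bool)) : ∀ β : B,
    Cm R ((D + 3) * (L.length + 1)) (ι (FreeGroup.of β)) (U hat z (FreeGroup.mk L)) := by
  induction L with
  | nil =>
    intro β
    have : FreeGroup.mk ([] : List (X × Bool)) = 1 := FreeGroup.one_eq_mk.symm
    rw [this, U_one]
    exact (hb.comm β).symm.mono (by simp)
  | cons a L ih =>
    intro β
    obtain ⟨W, hW, h1⟩ := hb.conj a β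
    have h2 := cm_word hb ih hW
    have h3 := U_len hb (bd_mk L)
    have h4 := Cm.congr_left (n := (D + 3) * (L.length + 1) + 1 + D) h1 h2 h3 (by nlinarith) le_rfl
    have h5 := h4.conj (hb.hat_len _ _ (bd_mk [a]))
    rw [mk_cons, U_mul]
    have e : hat (FreeGroup.mk [a]) * ((hat (FreeGroup.mk [a]))⁻¹ * ι (FreeGroup.of β) *
        hat (FreeGroup.mk [a])) * (hat (FreeGroup.mk [a]))⁻¹ = ι (FreeGroup.of β) := by group
    rw [e] at h5
    exact h5.mono (by simp only [List.length_cons, List.length_nil]; nlinarith)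

theorem cm_N {W : FreeGroup B} {u : FreeGroup X} (hW : Bd W s) (hu : Bd u n) :
    Cm R ((D + 3) * (n + 1) + 1 + s) (ι W) (U hat z u) := by
  obtain ⟨L, hL, rfl⟩ := hu
  refine (cm_word hb (cm_letter hb L) hW).mono ?_
  have : (D + 3) * (L.length + 1) ≤ (D + 3) * (n + 1) := Nat.mul_le_mul_left _ (by omega)
  omega

/-- elements congruent to words of `N` commute with the conjugates of `z` -/
theorem cm_cong {x : FreeGroup α} {W : FreeGroup B} {u : FreeGroup X} (hx : x * (ι W)⁻¹ ∈ KR R D)
    (hW : Bd W D) (hu : Bd u n) : Cm R ((2 * D + 4) * (n + 1)) x (U hat z u) :=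
  Cm.congr_left hx (cm_N hb hW hu) (U_len hb hu) (by nlinarith) (by nlinarith)

/-- the conjugates of `z` commute -/
theorem cm_U {u v : FreeGroup X} (hu : Bd u n) (hv : Bd v n) :
    Cm R ((4 * D + 9) * (n + 1)) (U hat z u) (U hat z v) := by
  obtain ⟨W, hW, h1⟩ := hb.zN
  have h2 := cm_cong hb h1 hW ((hu.inv.mul hv))
  have h3 := h2.conj (hb.hat_len _ _ hu)
  rw [← U_mul, mul_inv_cancel_left] at h3
  exact h3.mono (by nlinarith)

end base

end Pool.Agent.TH95.DI
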