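import Pool.Agent.TH95.DI.Path
import Pool.Agent.TH95.DI.JobC

/-!
The presentation.
-/

set_option autoImplicit false

set_option linter.unusedSectionVars false

noncomputable section

namespace Pool.Agent.TH95.DI

/-- the letters of the presentation -/
abbrev LT : Type := Lt Lq Kq

/-- the formal conjugates of the special relator -/
def zs (u : FL) : Seq Lq Kq := FreeGroup.of (u, Kq.k0)

/-- the additional relators: the module relations and the two letters which are killed -/
inductive Uq : Set (Seq Lq Kq)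
  | s1 : Uq (zs (ea * ea) * (zs ea)⁻¹ * (zs ea)⁻¹ * (zs ea)⁻¹ * zs 1)
  | s2 : Uq (zs eh * (zs 1)⁻¹)
  | s3 : Uq (zs (eh * ea) * (zs ea)⁻¹)
  | k1 : Uq (FreeGroup.of (1, Kq.k1))
  | k2 : Uq (FreeGroup.of (1, Kq.k2))

/-- the relators of the presentation -/
def RR : Set (FreeGroup LT) := allRel rq Uq

/-- the inclusion of the letters of the quotient -/
abbrev hq : FL →* FreeGroup LT := hat

/-- the special letter -/
def zq : FreeGroup LT := lz Kq.k0

/-- the letters of the kernel -/
abbrev NB : Type := Bt Lq ⊕ Ci Lq Kq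

/-- the inclusion of the letters of the kernel -/
def iq : FreeGroup NB →* FreeGroup LT :=
  FreeGroup.map (Sum.elim (fun β => Sum.inr (Sum.inl (Sum.inr β))) (fun l => Sum.inl (Vt.c l)))

@[simp] theorem iq_inl (β : Bt Lq) : iq (FreeGroup.of (Sum.inl β)) = lh (Sum.inr β) := by
  simp [iq, lh]

@[simp] theorem iq_inr (l : Ci Lq Kq) : iq (FreeGroup.of (Sum.inr l)) = lv (Vt.c l) := by
  simp [iq, lv]

theorem rq_len : ∀ k, (rq k).length ≤ 6 := by
  intro k
  cases k <;> simp [rq]

theorem rq_good : Good (X := Lq) rq := by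
  apply good_of rq_len
  intro k
  cases k <;> simp [rq, FreeGroup.IsReduced]

/-- shears of the plane -/
def shf (c : ℤ → ℤ) : Equiv.Perm (ℤ × ℤ) where
  toFun p := (p.1, p.2 + c p.1)
  invFun p := (p.1, p.2 - c p.1)
  left_inv p := by simp
  right_inv p := by simp

/-- the translation -/
def trl : Equiv.Perm (ℤ × ℤ) where
  toFun p := (p.1 + 1, p.2)
  invFun p := (p.1 - 1, p.2)
  left_inv p := by simp
  right_inv p := by simp

/-- the action on the positions -/
def xiS : Lq → Equiv.Perm (ℤ × ℤ)
  | Lq.a => shf (fun k => Gz (1 - k) - Gz (-k))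
  | Lq.h => shf (fun k => Gz (-k))
  | Lq.t => trl

/-- the position of a word -/
def sS (u : FL) : ℤ × ℤ := FreeGroup.lift xiS u (0, 0)

/-- values of products of conjugates of the letters `z` -/
def vz (Λ : List (FreeGroup LT × Kq × Bool)) : FreeGroup LT :=
  (Λ.map (fun p => if p.2.2 then p.1 * lz p.2.1 * p.1⁻¹ else (p.1 * lz p.2.1 * p.1⁻¹)⁻¹)).prod

end Pool.Agent.TH95.DI
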