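import Pool.Agent.TH95.DI.Def

/-!
Congruences of conjugates of the central element and their transport.
-/

set_option autoImplicit false

set_option linter.unusedSectionVars false

noncomputable section

namespace Pool.Agent.TH95.DI

variable {α : Type} {R : Set (FreeGroup α)} {r s n m p q : ℕ} {B : Type}

@[simp] theorem sg_true : sg true = 1 := rfl
@[simp] theorem sg_false : sg false = -1 := rfl

section

variable {X : Type} (hat : FreeGroup X →* FreeGroup α) (z : FreeGroup α)

/-- congruence of two conjugates of the central element -/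
def E (R : Set (FreeGroup α)) (hat : FreeGroup X →* FreeGroup α) (z : FreeGroup α) (r : ℕ)
    (c c' : FreeGroup X) : Prop := Wd hat z [(c, true), (c', false)] ∈ KR R r

variable {hat z}

theorem E.iff {c c' : FreeGroup X} :
    E R hat z r c c' ↔ U hat z c * (U hat z c')⁻¹ ∈ KR R r := by
  simp [E, Us]

theorem E.refl (c : FreeGroup X) : E R hat z r c c := by
  rw [E.iff]
  simp

theorem E.symm {c c' : FreeGroup X} (h : E R hat z r c c') : E R hat z r c' c := by
  rw [E.iff] at *
  have := Subgroup.inv_mem _ h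
  simpa using this

theorem E.trans {c c' c'' : FreeGroup X} (h : E R hat z r c c') (h' : E R hat z r c' c'') :
    E R hat z r c c'' := by
  rw [E.iff] at *
  have := Subgroup.mul_mem _ h h'
  simpa using this

theorem E.mono {c c' : FreeGroup X} (h : E R hat z r c c') (hr : r ≤ s) : E R hat z s c c' :=
  KR_mono hr h

/-- translation of lists -/
def tl (c : FreeGroup X) (Λ : List (FreeGroup X × Bool)) : List (FreeGroup X × Bool) :=
  Λ.map (fun p => (c * p.1, p.2))

theorem Wd_tl (c : FreeGroup X) (Λ : List (FreeGroup X × Bool)) :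
    Wd hat z (tl c Λ) = hat c * Wd hat z Λ * (hat c)⁻¹ := by
  induction Λ with
  | nil => simp [tl]
  | cons p Λ ih =>
    have : tl c (p :: Λ) = (c * p.1, p.2) :: tl c Λ := rfl
    rw [this, Wd_cons, Wd_cons, ih]
    have h2 : Us hat z (c * p.1, p.2) = hat c * Us hat z p * (hat c)⁻¹ := by
      unfold Us
      split_ifs
      · exact U_mul hat z c p.1
      · rw [U_mul]
        group
    rw [h2]
    group

end

section base

variable {X : Type} {hat : FreeGroup X →* FreeGroup α} {ι : FreeGroup B →* FreeGroup α}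
  {z : FreeGroup α} {D : ℕ} (hb : BaseC R hat ι z D)

include hb

theorem E.left {c c' g : FreeGroup X} (h : E R hat z r c c') (hg : Bd g s) :
    E R hat z (r + s) (g * c) (g * c') := by
  have := KR_conj (hb.hat_len _ _ hg) h
  rw [← Wd_tl] at this
  exact this

theorem KR_tl {Λ : List (FreeGroup X × Bool)} (h : Wd hat z Λ ∈ KR R r) {g : FreeGroup X}
    (hg : Bd g s) : Wd hat z (tl g Λ) ∈ KR R (r + s) := by
  rw [Wd_tl]
  exact KR_conj (hb.hat_len _ _ hg) h

end base

/-- the facts about the central element, the relators of the quotient and the module relations -/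
structure BaseT (R : Set (FreeGroup α)) (hat : FL →* FreeGroup α)
    (ι : FreeGroup B →* FreeGroup α) (z : FreeGroup α) (D : ℕ) : Prop extends
    BaseC R hat ι z D where
  R1 : Wd hat z [(ea * ea, true), (ea, false), (ea, false), (ea, false), (1, true)] ∈ KR R 0
  R2 : Wd hat z [(eh, true), (1, false)] ∈ KR R 0
  R3 : Wd hat z [(eh * ea, true), (ea, false)] ∈ KR R 0
  Q1 : ∃ W : FreeGroup B, Bd W D ∧ hat (et * eh * et⁻¹ * (eh * ea)⁻¹) * (ι W)⁻¹ ∈ KR R D
  Q2 : ∃ W : FreeGroup B, Bd W D ∧ hat (et * ea * et⁻¹ * (eh * ea * ea)⁻¹) * (ι W)⁻¹ ∈ KR R D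

/-- the constant -/
def kp (D : ℕ) : ℕ := 4 * D + 80

/-- equality in the quotient group, in all contexts -/
def QE (R : Set (FreeGroup α)) (hat : FL →* FreeGroup α) (z : FreeGroup α) (D m : ℕ) (s s' : FL) :
    Prop := ∀ (c v : FL) (p q : ℕ), Bd c p → Bd v q →
      E R hat z (kp D * (p + q + m)) (c * s * v) (c * s' * v)

/-- congruence of pairs -/
def VE (R : Set (FreeGroup α)) (hat : FL →* FreeGroup α) (z : FreeGroup α) (r : ℕ) (c c' : FL) :
    Prop := E R hat z r c c' ∧ E R hat z r (c * ea) (c' * ea)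

section

variable {hat : FL →* FreeGroup α} {z : FreeGroup α} {D : ℕ}

theorem VE.refl (c : FL) : VE R hat z r c c := ⟨E.refl c, E.refl _⟩
theorem VE.symm {c c' : FL} (h : VE R hat z r c c') : VE R hat z r c' c := ⟨h.1.symm, h.2.symm⟩
theorem VE.trans {c c' c'' : FL} (h : VE R hat z r c c') (h' : VE R hat z r c' c'') :
    VE R hat z r c c'' := ⟨h.1.trans h'.1, h.2.trans h'.2⟩
theorem VE.mono {c c' : FL} (h : VE R hat z r c c') (hr : r ≤ s) : VE R hat z s c c' :=
  ⟨h.1.mono hr, h.2.mono hr⟩

theorem QE.refl (s : FL) : QE R hat z D m s s := fun _ _ _ _ _ _ => E.refl _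
theorem QE.symm {s s' : FL} (h : QE R hat z D m s s') : QE R hat z D m s' s :=
  fun c v p q hc hv => (h c v p q hc hv).symm
theorem QE.mono {s s' : FL} (h : QE R hat z D m s s') (hm : m ≤ n) : QE R hat z D n s s' :=
  fun c v p q hc hv => (h c v p q hc hv).mono (Nat.mul_le_mul_left _ (by omega))
theorem QE.trans {s s' s'' : FL} (h : QE R hat z D m s s') (h' : QE R hat z D m s' s'') :
    QE R hat z D m s s'' := fun c v p q hc hv => (h c v p q hc hv).trans (h' c v p q hc hv)

theorem QE.ctx {s s' : FL} (h : QE R hat z D m s s') {c v : FL} (hc : Bd c p) (hv : Bd v q)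
    (hn : p + q + m ≤ n) : QE R hat z D n (c * s * v) (c * s' * v) := by
  intro c' v' p' q' hc' hv'
  have := h (c' * c) (v * v') (p' + p) (q + q') (hc'.mul hc) (hv.mul hv')
  have e : ∀ s : FL, c' * c * s * (v * v') = c' * (c * s * v) * v' := by intro s; group
  rw [e, e] at this
  exact this.mono (Nat.mul_le_mul_left _ (by omega))

theorem bd_ea : Bd ea 1 := Bd.of _
theorem bd_eh : Bd eh 1 := Bd.of _
theorem bd_et : Bd et 1 := Bd.of _

theorem QE.ve {s s' : FL} (h : QE R hat z D m s s') {c v : FL} (hc : Bd c p) (hv : Bd v q) :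
    VE R hat z (kp D * (p + q + m + 1)) (c * s * v) (c * s' * v) := by
  refine ⟨(h c v p q hc hv).mono (Nat.mul_le_mul_left _ (by omega)), ?_⟩
  have := h c (v * ea) p (q + 1) hc (hv.mul bd_ea)
  rw [← mul_assoc, ← mul_assoc] at this
  exact this.mono (Nat.mul_le_mul_left _ (by omega))

end

section base

variable {hat : FL →* FreeGroup α} {ι : FreeGroup B →* FreeGroup α} {z : FreeGroup α} {D : ℕ}
  (hb : BaseT R hat ι z D)

include hb

theorem QE.of_rel {s s' : FL} (h : ∃ W : FreeGroup B, Bd W D ∧ hat (s * s'⁻¹) * (ι W)⁻¹ ∈ KR R D)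
    (hs : Bd s' n) : QE R hat z D (n + 1) s s' := by
  intro c v p q hc hv
  obtain ⟨W, hW, h1⟩ := h
  have h2 := cm_cong hb.toBaseC h1 hW (hs.mul hv)
  have h3 : E R hat z ((2 * D + 4) * (n + q + 1)) (s * v) (s' * v) := by
    rw [E.iff]
    have e : U hat z (s * v) = hat (s * s'⁻¹) * U hat z (s' * v) * (hat (s * s'⁻¹))⁻¹ := by
      rw [← U_mul]
      congr 1
      group
    rw [e]
    exact h2
  have h4 := h3.left hb.toBaseC hc
  rw [← mul_assoc, ← mul_assoc] at h4
  refine h4.mono ?_
  unfold kp
  nlinarith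

theorem VE.left {c c' g : FL} (h : VE R hat z r c c') (hg : Bd g s) :
    VE R hat z (r + s) (g * c) (g * c') := by
  refine ⟨h.1.left hb.toBaseC hg, ?_⟩
  rw [mul_assoc, mul_assoc]
  exact h.2.left hb.toBaseC hg

theorem rd_le (n : ℕ) : rd D 32 n ≤ kp D * (n + 1) := by
  unfold rd kp
  nlinarith

/-- the relation at a position -/
def rA (c : FL) : List (FL × Bool) :=
  [(c * ea * ea, true), (c * ea, false), (c * ea, false), (c * ea, false), (c, true)]

theorem rA_mem {c : FL} (hc : Bd c n) : Wd hat z (rA c) ∈ KR R n := by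
  have := KR_tl hb.toBaseC hb.R1 hc
  simpa [tl, rA, mul_assoc] using this

omit hb in
theorem rA_bd {c : FL} (hc : Bd c n) : ∀ p ∈ rA c, Bd p.1 (n + 2) := by
  intro p hp
  simp only [rA, List.mem_cons, List.not_mem_nil, or_false] at hp
  rcases hp with rfl | rfl | rfl | rfl | rfl
  · exact ((hc.mul bd_ea).mul bd_ea).mono (by omega)
  · exact (hc.mul bd_ea).mono (by omega)
  · exact (hc.mul bd_ea).mono (by omega)
  · exact (hc.mul bd_ea).mono (by omega)
  · exact hc.mono (by omega)

theorem VE.h {c : FL} (hc : Bd c n) : VE R hat z n (c * eh) c := by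
  constructor
  · have := KR_tl hb.toBaseC hb.R2 hc
    simpa [tl, E] using this
  · have := KR_tl hb.toBaseC hb.R3 hc
    simpa [tl, E, mul_assoc] using this

omit hb in
theorem bd_iv {Λ : List (FL × Bool)} (h : ∀ p ∈ Λ, Bd p.1 n) : ∀ p ∈ iv Λ, Bd p.1 n := by
  intro p hp
  exact h (p.1, !p.2) (mem_iv hp)

theorem KR_iv {Λ : List (FL × Bool)} (h : Wd hat z Λ ∈ KR R r) : Wd hat z (iv Λ) ∈ KR R r := by
  rw [Wd_iv]
  exact Subgroup.inv_mem _ h

/-- transport along `a` -/
theorem VE.a {c c' : FL} (h : VE R hat z r c c') (hc : Bd c n) (hc' : Bd c' n)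
    (hr : kp D * (n + 3) ≤ r) : VE R hat z r (c * ea) (c' * ea) := by
  refine ⟨h.2, ?_⟩
  have hn : n ≤ r := by
    have : n + 3 ≤ kp D * (n + 3) := Nat.le_mul_of_pos_left _ (by unfold kp; omega)
    omega
  have h1 := KR_mono hn (rA_mem hb hc)
  have h2 := KR_mono hn (KR_iv hb (rA_mem hb hc'))
  have l1 : ∀ q : FL × Bool, q ∈ [(c, true), (c', false), (c * ea, true), (c' * ea, false),
      (c * ea * ea, true), (c' * ea * ea, false), (c', true), (c, false)] → Bd q.1 (n + 2) := by
    intro q hq
    simp only [List.mem_cons, List.not_mem_nil, or_false] at hq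
    rcases hq with rfl | rfl | rfl | rfl | rfl | rfl | rfl | rfl
    · exact hc.mono (by omega)
    · exact hc'.mono (by omega)
    · exact (hc.mul bd_ea).mono (by omega)
    · exact (hc'.mul bd_ea).mono (by omega)
    · exact ((hc.mul bd_ea).mul bd_ea).mono (by omega)
    · exact ((hc'.mul bd_ea).mul bd_ea).mono (by omega)
    · exact hc'.mono (by omega)
    · exact hc.mono (by omega)
  refine comb hb.toBaseC (N := 32) (n := n + 2) ((rd_le hb (n + 2)).trans hr) _
    [rA c, iv (rA c'), [(c * ea, true), (c' * ea, false)], [(c * ea, true), (c' * ea, false)],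
      [(c * ea, true), (c' * ea, false)], [(c', true), (c, false)]] ?_ ?_ ?_ ?_ ?_
  · intro P hP
    simp only [List.mem_cons, List.not_mem_nil, or_false] at hP
    rcases hP with rfl | rfl | rfl | rfl | rfl | rfl
    · exact h1
    · exact h2
    · exact h.2
    · exact h.2
    · exact h.2
    · exact h.1.symm
  · simp only [List.map_cons, List.map_nil, List.sum_cons, List.sum_nil, Sm_iv, Sm_cons, Sm_nil,
      rA, sg_true, sg_false, Finsupp.single_neg]
    abel
  · simp [rA]
  · intro q hq
    apply l1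
    simp only [List.mem_cons, List.not_mem_nil, or_false] at hq ⊢
    tauto
  · intro P hP
    simp only [List.mem_cons, List.not_mem_nil, or_false] at hP
    rcases hP with rfl | rfl | rfl | rfl | rfl | rfl
    · exact rA_bd hc
    · exact bd_iv (rA_bd hc')
    all_goals
      intro q hq
      apply l1
      simp only [List.mem_cons, List.not_mem_nil, or_false] at hq ⊢
      tauto

/-- transport along `a⁻¹` -/
theorem VE.a' {c c' : FL} (h : VE R hat z r c c') (hc : Bd c n) (hc' : Bd c' n)
    (hr : kp D * (n + 4) ≤ r) : VE R hat z r (c * ea⁻¹) (c' * ea⁻¹) := by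
  refine ⟨?_, ?_⟩
  swap
  · rw [inv_mul_cancel_right, inv_mul_cancel_right]
    exact h.1
  have hn : n + 1 ≤ r := by
    have : n + 4 ≤ kp D * (n + 4) := Nat.le_mul_of_pos_left _ (by unfold kp; omega)
    omega
  have hd := hc.mul bd_ea.inv
  have hd' := hc'.mul bd_ea.inv
  have h1 := KR_mono hn (rA_mem hb hd)
  have h2 := KR_mono hn (KR_iv hb (rA_mem hb hd'))
  have l1 : ∀ q : FL × Bool, q ∈ [(c, true), (c', false), (c' * ea, true), (c * ea, false),
      (c * ea⁻¹, true), (c' * ea⁻¹, false)] → Bd q.1 (n + 3) := by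
    intro q hq
    simp only [List.mem_cons, List.not_mem_nil, or_false] at hq
    rcases hq with rfl | rfl | rfl | rfl | rfl | rfl
    · exact hc.mono (by omega)
    · exact hc'.mono (by omega)
    · exact (hc'.mul bd_ea).mono (by omega)
    · exact (hc.mul bd_ea).mono (by omega)
    · exact hd.mono (by omega)
    · exact hd'.mono (by omega)
  refine comb hb.toBaseC (N := 32) (n := n + 3) ((rd_le hb (n + 3)).trans hr) _
    [rA (c * ea⁻¹), iv (rA (c' * ea⁻¹)), [(c, true), (c', false)], [(c, true), (c', false)],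
      [(c, true), (c', false)], [(c' * ea, true), (c * ea, false)]] ?_ ?_ ?_ ?_ ?_
  · intro P hP
    simp only [List.mem_cons, List.not_mem_nil, or_false] at hP
    rcases hP with rfl | rfl | rfl | rfl | rfl | rfl
    · exact h1
    · exact h2
    · exact h.1
    · exact h.1
    · exact h.1
    · exact h.2.symm
  · simp only [List.map_cons, List.map_nil, List.sum_cons, List.sum_nil, Sm_iv, Sm_cons, Sm_nil,
      rA, sg_true, sg_false, Finsupp.single_neg, inv_mul_cancel_right]
    abel
  · simp [rA]
  · intro q hq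
    apply l1
    simp only [List.mem_cons, List.not_mem_nil, or_false] at hq ⊢
    tauto
  · intro P hP
    simp only [List.mem_cons, List.not_mem_nil, or_false] at hP
    rcases hP with rfl | rfl | rfl | rfl | rfl | rfl
    · exact rA_bd hd
    · exact bd_iv (rA_bd hd')
    all_goals
      intro q hq
      apply l1
      simp only [List.mem_cons, List.not_mem_nil, or_false] at hq ⊢
      tauto

/-- rigidity of paths -/
theorem rigid {P P' : ℤ → FL} {lo hi : ℤ} (hP : ∀ e, lo ≤ e → e ≤ hi → Bd (P e) n)
    (hP' : ∀ e, lo ≤ e → e ≤ hi → Bd (P' e) n)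
    (h1 : ∀ e, lo ≤ e → e < hi → VE R hat z r (P (e + 1)) (P e * ea))
    (h2 : ∀ e, lo ≤ e → e < hi → VE R hat z r (P' (e + 1)) (P' e * ea))
    (hr : kp D * (n + 5) ≤ r) {e0 : ℤ} (h0 : lo ≤ e0) (h0' : e0 ≤ hi)
    (he : VE R hat z r (P e0) (P' e0)) : ∀ e, lo ≤ e → e ≤ hi → VE R hat z r (P e) (P' e) := by
  have up : ∀ e, e0 ≤ e → e ≤ hi → VE R hat z r (P e) (P' e) := by
    intro e he0
    induction e, he0 using Int.leInduction with
    | base => intro _; exact he
    | succ e h3 ih =>
      intro h4
      have h5 := ih (by omega)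
      have h6 := VE.a hb h5 (hP e (by omega) (by omega)) (hP' e (by omega) (by omega))
        (by unfold kp at *; nlinarith)
      exact ((h1 e (by omega) (by omega)).trans h6).trans (h2 e (by omega) (by omega)).symm
  have dn : ∀ e, e ≤ e0 → lo ≤ e → VE R hat z r (P e) (P' e) := by
    intro e he0
    induction e, he0 using Int.leInductionDown with
    | base => intro _; exact he
    | pred e h3 ih =>
      intro h4
      have h5 := ih (by omega)
      have e1 := h1 (e - 1) h4 (by omega)
      have e2 := h2 (e - 1) h4 (by omega)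
      rw [sub_add_cancel] at e1 e2
      have h6 := (e1.symm.trans h5).trans e2
      have h7 := VE.a' hb h6 ((hP (e - 1) h4 (by omega)).mul bd_ea)
        ((hP' (e - 1) h4 (by omega)).mul bd_ea) hr
      rwa [mul_inv_cancel_right, mul_inv_cancel_right] at h7
  intro e h3 h4
  rcases le_total e0 e with h | h
  · exact up e h h4
  · exact dn e h h3

end base

end Pool.Agent.TH95.DI
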